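import Pool.Agent.TH320.Schur

/-!
# The subspace of a well-founded tree is not isomorphic to the subspace of the full tree
-/

set_option autoImplicit false

open Filter Topology

namespace Pool.Agent.TH320

/-! ### Averages over the levels of the dyadic tree -/

section avg

variable {Z : Type*} [AddCommGroup Z] [Module ℝ Z]

/-- The average over the level `n`. -/
noncomputable def Mn : ℕ → (List Bool → Z) → Z
  | 0, g => g []
  | n + 1, g => Mn n fun s => (1 / 2 : ℝ) • (g (false :: s) + g (true :: s))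

/-- The Rademacher average. -/
noncomputable def Rn (n : ℕ) (g : List Bool → Z) : Z :=
  Mn n fun s => (1 / 2 : ℝ) • (g (false :: s) - g (true :: s))

theorem Mn_add (n : ℕ) : ∀ g h : List Bool → Z, Mn n (fun s => g s + h s) = Mn n g + Mn n h := by
  induction n with
  | zero => intro g h; rfl
  | succ n ih =>
    intro g h
    simp only [Mn]
    rw [← ih]
    congr 1
    funext s
    module

theorem Rn_add (n : ℕ) (g h : List Bool → Z) : Rn n (fun s => g s + h s) = Rn n g + Rn n h := by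
  rw [Rn, Rn, Rn, ← Mn_add]
  congr 1
  funext s
  module

theorem Mn_const (n : ℕ) : ∀ (g : List Bool → Z) (c : Z), (∀ s : List Bool, s.length = n → g s = c) →
    Mn n g = c := by
  induction n with
  | zero => intro g c h; exact h [] rfl
  | succ n ih =>
    intro g c h
    refine ih _ c fun s hs => ?_
    rw [h _ (by simp [hs]), h _ (by simp [hs]), ← two_smul ℝ c, smul_smul]
    norm_num

end avg

theorem map_Mn {Z W : Type*} [AddCommGroup Z] [Module ℝ Z] [AddCommGroup W] [Module ℝ W]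
    (f : Z →ₗ[ℝ] W) (n : ℕ) : ∀ g : List Bool → Z, f (Mn n g) = Mn n fun s => f (g s) := by
  induction n with
  | zero => intro g; rfl
  | succ n ih =>
    intro g
    simp only [Mn]
    rw [ih]
    simp only [map_smul, map_add]

theorem map_Rn {Z W : Type*} [AddCommGroup Z] [Module ℝ Z] [AddCommGroup W] [Module ℝ W]
    (f : Z →ₗ[ℝ] W) (n : ℕ) (g : List Bool → Z) : f (Rn n g) = Rn n fun s => f (g s) := by
  rw [Rn, map_Mn, Rn]
  simp only [map_smul, map_sub]

theorem Mn_mono (n : ℕ) : ∀ g h : List Bool → ℝ, (∀ s, g s ≤ h s) → Mn n g ≤ Mn n h := by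
  induction n with
  | zero => intro g h H; exact H []
  | succ n ih =>
    intro g h H
    refine ih _ _ fun s => ?_
    simp only [smul_eq_mul]
    linarith [H (false :: s), H (true :: s)]

theorem Mn_sq (n : ℕ) : ∀ g : List Bool → ℝ, (Mn n g) ^ 2 ≤ Mn n fun s => g s ^ 2 := by
  induction n with
  | zero => intro g; exact le_rfl
  | succ n ih =>
    intro g
    refine (ih _).trans (Mn_mono n _ _ fun s => ?_)
    simp only [smul_eq_mul]
    nlinarith [sq_nonneg (g (false :: s) - g (true :: s))]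

/-- Bounded dyadic martingales have vanishing Rademacher averages. -/
theorem tendsto_Rn (m : List Bool → ℝ) (C : ℝ) (hC : ∀ s, |m s| ≤ C)
    (hm : ∀ s, m s = (1 / 2) * (m (false :: s) + m (true :: s))) :
    Tendsto (fun n => Rn n m) atTop (𝓝 0) := by
  have h1 : ∀ n, Mn (n + 1) (fun s => m s ^ 2) =
      Mn n (fun s => m s ^ 2) + Mn n fun s => ((1 / 2 : ℝ) • (m (false :: s) - m (true :: s))) ^ 2 := by
    intro n
    rw [← Mn_add]
    simp only [Mn]
    congr 1
    funext s
    simp only [smul_eq_mul]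
    rw [hm s]
    ring
  have h2 : ∀ n, Mn n (fun s => m s ^ 2) ≤ C ^ 2 := by
    intro n
    refine (Mn_mono n _ (fun _ => C ^ 2) fun s => ?_).trans (le_of_eq (Mn_const n _ _ fun _ _ => rfl))
    rw [← sq_abs]
    exact pow_le_pow_left₀ (abs_nonneg _) (hC s) 2
  have h3 : ∀ n, ∑ k ∈ Finset.range n, (Rn k m) ^ 2 ≤ Mn n fun s => m s ^ 2 := by
    intro n
    induction n with
    | zero =>
      simp only [Finset.range_zero, Finset.sum_empty]
      exact sq_nonneg (m [])
    | succ n ih =>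
      rw [Finset.sum_range_succ, h1]
      exact add_le_add ih (Mn_sq n _)
  have h4 : Summable fun k => (Rn k m) ^ 2 :=
    summable_of_sum_range_le (fun k => sq_nonneg _) fun n => (h3 n).trans (h2 n)
  have h5 := h4.tendsto_atTop_zero
  have h6 : Tendsto (fun k => |Rn k m|) atTop (𝓝 0) := by
    have := (Real.continuous_sqrt.tendsto 0).comp h5
    rw [Real.sqrt_zero] at this
    refine this.congr fun k => ?_
    exact Real.sqrt_sq_eq_abs _
  exact tendsto_zero_iff_abs_tendsto_zero _ |>.mpr h6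

/-! ### The dyadic branch -/

/-- The dyadic tree above the branch `(0,0), (0,0), …`. -/
def wb (s : List Bool) : Nd := s.map fun i => ((0, 0), i)

theorem wb_cons (i : Bool) (s : List Bool) : wb (i :: s) = ((0, 0), i) :: wb s := rfl

theorem wb_length (s : List Bool) : (wb s).length = s.length := by simp [wb]

/-- Averages of unit vectors. -/
noncomputable def Av : ℕ → List Bool → L1
  | 0, s => ee (wb s)
  | j + 1, s => (1 / 2 : ℝ) • (Av j (false :: s) + Av j (true :: s))

theorem norm_Av (j : ℕ) : ∀ s, ‖Av j s‖ ≤ 1 := by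
  induction j with
  | zero => intro s; exact (norm_ee _).le
  | succ j ih =>
    intro s
    rw [Av, norm_smul]
    have h := norm_add_le (Av j (false :: s)) (Av j (true :: s))
    have h1 : ‖(1 / 2 : ℝ)‖ = 1 / 2 := by norm_num
    rw [h1]
    linarith [ih (false :: s), ih (true :: s)]

theorem Av_mem (j : ℕ) : ∀ s, ee (wb s) - Av j s ∈ DD (Set.univ : Set (List (ℕ × ℕ))) := by
  induction j with
  | zero => intro s; rw [Av, sub_self]; exact zero_mem _
  | succ j ih =>
    intro s
    have h : ee (wb s) - Av (j + 1) s = dv (0, 0) (wb s) +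
        (1 / 2 : ℝ) • ((ee (wb (false :: s)) - Av j (false :: s)) +
          (ee (wb (true :: s)) - Av j (true :: s))) := by
      rw [Av, dv, wb_cons, wb_cons]
      module
    rw [h]
    exact add_mem (dv_mem trivial) (Submodule.smul_mem _ _ (add_mem (ih _) (ih _)))

/-- The sign at the level `n`. -/
noncomputable def chi (n : ℕ) : Nd → ℝ
  | [] => 0
  | p :: w => if w.length = n then (if p.2 then -1 else 1) else chi n w

theorem chi_zero (n : ℕ) : ∀ w : Nd, w.length ≤ n → chi n w = 0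
  | [], _ => rfl
  | p :: w, h => by
    rw [List.length_cons] at h
    rw [chi, if_neg (by omega)]
    exact chi_zero n w (by omega)

theorem abs_chi_le (n : ℕ) : ∀ w : Nd, |chi n w| ≤ 1
  | [] => by simp [chi]
  | p :: w => by
    rw [chi]
    split_ifs
    · simp
    · simp
    · exact abs_chi_le n w

theorem exists_rademacher (n : ℕ) : ∃ φ : L1 →L[ℝ] ℝ, (∀ x, |φ x| ≤ ‖x‖) ∧
    (∀ x ∈ DD (Set.univ : Set (List (ℕ × ℕ))), φ x = 0) ∧ φ (Rn n fun s => ee (wb s)) = 1 := by
  obtain ⟨φ, h1, h2⟩ := exists_lift_ee (Z := ℝ) (chi n) 1 fun w => by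
    rw [Real.norm_eq_abs]; exact abs_chi_le n w
  refine ⟨φ, fun x => ?_, fun x hx => ?_, ?_⟩
  · have := h2 x
    rwa [one_mul, Real.norm_eq_abs] at this
  · refine eq_on φ 0 (fun m w _ => ?_) hx
    rw [map_dv, h1, h1, h1, zero_apply, chi, chi]
    by_cases h : w.length = n
    · rw [if_pos h, if_pos h, chi_zero n w h.le]
      norm_num
    · rw [if_neg h, if_neg h, smul_eq_mul]
      ring
  · have h3 := map_Rn (φ : L1 →ₗ[ℝ] ℝ) n fun s => ee (wb s)
    have h4 : (φ : L1 →ₗ[ℝ] ℝ) (Rn n fun s => ee (wb s)) = φ (Rn n fun s => ee (wb s)) := rfl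
    rw [← h4, h3, Rn]
    refine Mn_const n _ _ fun s hs => ?_
    change (1 / 2 : ℝ) • (φ (ee (wb (false :: s))) - φ (ee (wb (true :: s)))) = 1
    have h5 : (wb s).length = n := by rw [wb_length, hs]
    rw [h1, h1, wb_cons, wb_cons, chi, chi]
    simp only [h5, if_true]
    norm_num

theorem not_iso_of_ps {D : Submodule ℝ L1} (hps : PS D) :
    IsEmpty (DD (Set.univ : Set (List (ℕ × ℕ))) ≃L[ℝ] D) := by
  refine ⟨fun τ => ?_⟩
  let U : Ultrafilter ℕ := Filter.hyperfilter ℕ
  have hU : (U : Filter ℕ) ≤ atTop := Nat.hyperfilter_le_atTop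
  let X : ℕ → List Bool → L1 := fun j s => (τ ⟨ee (wb s) - Av j s, Av_mem j s⟩ : L1)
  obtain ⟨K, hK0, hK⟩ : ∃ K : ℝ, 0 ≤ K ∧ ∀ z, ‖τ z‖ ≤ K * ‖z‖ :=
    ⟨_, ContinuousLinearMap.opNorm_nonneg _,
      (τ : DD (Set.univ : Set (List (ℕ × ℕ))) →L[ℝ] D).le_opNorm⟩
  have hX : ∀ j s, ‖X j s‖ ≤ K * 2 := by
    intro j s
    have h1 := hK ⟨ee (wb s) - Av j s, Av_mem j s⟩
    refine h1.trans (mul_le_mul_of_nonneg_left ?_ hK0)
    change ‖ee (wb s) - Av j s‖ ≤ 2
    refine (norm_sub_le _ _).trans ?_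
    rw [norm_ee]
    linarith [norm_Av j s]
  have hrel : ∀ j s, X (j + 1) s - (1 / 2 : ℝ) • (X j (false :: s) + X j (true :: s)) =
      (τ ⟨dv (0, 0) (wb s), dv_mem trivial⟩ : L1) := by
    intro j s
    have h1 : (⟨dv (0, 0) (wb s), dv_mem trivial⟩ : DD (Set.univ : Set (List (ℕ × ℕ)))) =
        ⟨ee (wb s) - Av (j + 1) s, Av_mem _ _⟩ - (1 / 2 : ℝ) •
          (⟨ee (wb (false :: s)) - Av j (false :: s), Av_mem _ _⟩ +
            ⟨ee (wb (true :: s)) - Av j (true :: s), Av_mem _ _⟩) := by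
      apply Subtype.ext
      change dv (0, 0) (wb s) = (ee (wb s) - Av (j + 1) s) - (1 / 2 : ℝ) •
        ((ee (wb (false :: s)) - Av j (false :: s)) + (ee (wb (true :: s)) - Av j (true :: s)))
      rw [Av, dv, wb_cons, wb_cons]
      module
    rw [h1, map_sub, map_smul, map_add]
    rfl
  choose y hy1 hy2 using fun s : List Bool =>
    exists_wlim U (fun n => X (n - s.length) s) (K * 2) (fun n => hX _ _)
  have hy3 : ∀ s, y s - (1 / 2 : ℝ) • (y (false :: s) + y (true :: s)) =
      (τ ⟨dv (0, 0) (wb s), dv_mem trivial⟩ : L1) := by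
    intro s
    refine ext' fun i => ?_
    have h1 := (hy2 s i).sub (((hy2 (false :: s) i).add (hy2 (true :: s) i)).const_mul (1 / 2 : ℝ))
    have h2 : ∀ᶠ n in (U : Filter ℕ), X (n - s.length) s i -
        1 / 2 * (X (n - (false :: s).length) (false :: s) i +
          X (n - (true :: s).length) (true :: s) i) =
        (τ ⟨dv (0, 0) (wb s), dv_mem trivial⟩ : L1) i := by
      filter_upwards [hU (eventually_ge_atTop (s.length + 1))] with n hn
      rw [← hrel (n - (s.length + 1)) s]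
      have h3 : n - (s.length + 1) + 1 = n - s.length := by omega
      rw [h3]
      rfl
    have h3 := tendsto_nhds_unique (h1.congr' h2) tendsto_const_nhds
    rw [← h3]
    rfl
  -- the sequences
  let a : List Bool → L1 := fun s => -y s
  have ha1 : ∀ s, ‖a s‖ ≤ K * 2 := fun s => by
    change ‖-y s‖ ≤ _
    rw [norm_neg]; exact hy1 s
  have ha3 : ∀ s, a s - (1 / 2 : ℝ) • (a (false :: s) + a (true :: s)) =
      -(τ ⟨dv (0, 0) (wb s), dv_mem trivial⟩ : L1) := by
    intro s
    rw [← hy3]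
    change -y s - (1 / 2 : ℝ) • (-y (false :: s) + -y (true :: s)) = _
    module
  have hα := hps (fun n => Rn n a) fun φ hφ => by
    have h1 : ∀ n, φ (Rn n a) = Rn n fun s => φ (a s) := fun n => map_Rn (φ : L1 →ₗ[ℝ] ℝ) n a
    simp only [h1]
    refine tendsto_Rn _ (‖φ‖ * (K * 2)) (fun s => ?_) fun s => ?_
    · exact (φ.le_opNorm _).trans (mul_le_mul_of_nonneg_left (ha1 s) (norm_nonneg _))
    · have h2 := hφ (-(τ ⟨dv (0, 0) (wb s), dv_mem trivial⟩ : L1))
        (D.neg_mem (Subtype.coe_prop _))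
      rw [← ha3, map_sub, map_smul, map_add, smul_eq_mul] at h2
      linarith
  have h3 : ∀ n : ℕ, ∃ u ∈ D, ‖Rn n a - u‖ <
      Metric.infDist (Rn n a) (D : Set L1) + 1 / ((n : ℝ) + 1) := by
    intro n
    have h4 : Metric.infDist (Rn n a) (D : Set L1) <
        Metric.infDist (Rn n a) (D : Set L1) + 1 / ((n : ℝ) + 1) := by
      have : (0 : ℝ) < 1 / ((n : ℝ) + 1) := by positivity
      linarith
    obtain ⟨u, hu, hu'⟩ := (Metric.infDist_lt_iff ⟨0, D.zero_mem⟩).mp h4
    exact ⟨u, hu, by rwa [dist_eq_norm] at hu'⟩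
  choose u hu1 hu2 using h3
  have hu3 : Tendsto (fun n => ‖Rn n a - u n‖) atTop (𝓝 0) := by
    have h4 := hα.add tendsto_one_div_add_atTop_nhds_zero_nat
    rw [add_zero] at h4
    exact squeeze_zero (fun n => norm_nonneg _) (fun n => (hu2 n).le) h4
  let β : ℕ → L1 := fun n => (Rn n fun s => ee (wb s)) + (τ.symm ⟨u n, hu1 n⟩ : L1)
  have hβ := schur β fun ψ => by
    let ψ1 : D →L[ℝ] ℝ := (ψ.comp (DD (Set.univ : Set (List (ℕ × ℕ)))).subtypeL).comp
      (τ.symm : D →L[ℝ] DD (Set.univ : Set (List (ℕ × ℕ))))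
    obtain ⟨ψ', hψ', -⟩ := _root_.exists_extension_norm_eq D ψ1
    have e1 : ∀ n, ψ (β n) = (Rn n fun s => ψ (ee (wb s)) + ψ' (a s)) - ψ' (Rn n a - u n) := by
      intro n
      have e2 : ψ' (u n) = ψ (τ.symm ⟨u n, hu1 n⟩ : L1) := hψ' ⟨u n, hu1 n⟩
      have e3 : ψ (Rn n fun s => ee (wb s)) = Rn n fun s => ψ (ee (wb s)) :=
        map_Rn (ψ : L1 →ₗ[ℝ] ℝ) n _
      have e4 : ψ' (Rn n a) = Rn n fun s => ψ' (a s) := map_Rn (ψ' : L1 →ₗ[ℝ] ℝ) n _
      change ψ ((Rn n fun s => ee (wb s)) + (τ.symm ⟨u n, hu1 n⟩ : L1)) = _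
      rw [map_add, Rn_add, map_sub, e2, e3, e4]
      ring
    simp only [e1]
    have e5 : Tendsto (fun n => ψ' (Rn n a - u n)) atTop (𝓝 0) := by
      refine squeeze_zero_norm (fun n => ψ'.le_opNorm _) ?_
      have := hu3.const_mul ‖ψ'‖
      rwa [mul_zero] at this
    have e6 : Tendsto (fun n => Rn n fun s => ψ (ee (wb s)) + ψ' (a s)) atTop (𝓝 0) := by
      refine tendsto_Rn _ (‖ψ‖ * 1 + ‖ψ'‖ * (K * 2)) (fun s => ?_) fun s => ?_
      · refine (abs_add_le _ _).trans (add_le_add ?_ ?_)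
        · refine (ψ.le_opNorm _).trans (mul_le_mul_of_nonneg_left ?_ (norm_nonneg _))
          exact (norm_ee _).le
        · exact (ψ'.le_opNorm _).trans (mul_le_mul_of_nonneg_left (ha1 s) (norm_nonneg _))
      · have h5 : ψ' (-(τ ⟨dv (0, 0) (wb s), dv_mem trivial⟩ : L1)) =
            -ψ (dv (0, 0) (wb s)) := by
          rw [map_neg]
          have := hψ' (τ ⟨dv (0, 0) (wb s), dv_mem trivial⟩)
          rw [this]
          change -ψ (τ.symm (τ _) : L1) = _
          rw [ContinuousLinearEquiv.symm_apply_apply]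
        rw [← ha3, map_sub, map_smul, map_add, map_dv, smul_eq_mul, smul_eq_mul, ← wb_cons,
          ← wb_cons] at h5
        linarith
    have := e6.sub e5
    rwa [sub_zero] at this
  have hlow : ∀ n, 1 ≤ ‖β n‖ := by
    intro n
    obtain ⟨φ, h1, h2, h3⟩ := exists_rademacher n
    have h4 : φ (β n) = 1 := by
      change φ ((Rn n fun s => ee (wb s)) + (τ.symm ⟨u n, hu1 n⟩ : L1)) = 1
      rw [map_add, h3, h2 _ (Subtype.coe_prop _), add_zero]
    have := h1 (β n)
    rw [h4] at this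
    simpa using this
  have := ge_of_tendsto hβ (Filter.Eventually.of_forall hlow)
  linarith

end Pool.Agent.TH320
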