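import Pool.Agent.TH387.EI.Defs
set_option autoImplicit false
open scoped ComplexOrder InnerProductSpace
noncomputable section

namespace Pool.Agent.TH320.EIV

open Pool.Agent.TH387.EI

universe u

section one
variable {A : Type u} [NonUnitalCStarAlgebra A]
  {H : Type u} [NormedAddCommGroup H] [InnerProductSpace ℂ H] [CompleteSpace H]

theorem norm_rep (ρ : A →⋆ₙₐ[ℂ] (H →L[ℂ] H)) (a : A) : ‖ρ a‖ ≤ ‖a‖ :=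
  NonUnitalStarAlgHom.norm_apply_le ρ a

theorem norm_rep_apply (ρ : A →⋆ₙₐ[ℂ] (H →L[ℂ] H)) (a : A) (v : H) : ‖ρ a v‖ ≤ ‖a‖ * ‖v‖ :=
  ((ρ a).le_opNorm v).trans (mul_le_mul_of_nonneg_right (norm_rep ρ a) (norm_nonneg v))

theorem inner_rep (ρ : A →⋆ₙₐ[ℂ] (H →L[ℂ] H)) (a b : A) (v : H) :
    ⟪ρ a v, ρ b v⟫_ℂ = ⟪v, ρ (star a * b) v⟫_ℂ := by
  rw [map_mul, map_star, mul_apply_eq_comp, ContinuousLinearMap.star_eq_adjoint,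
    ContinuousLinearMap.adjoint_inner_right]

omit [CompleteSpace H] in
theorem four_close (T : H →L[ℂ] H) (hT : ‖T‖ ≤ 1) (p q η ζ : H) (ε : ℝ) (hq : ‖q‖ ≤ 1)
    (hη : ‖η‖ ≤ 1) (hp : ‖p - (1 / 2 : ℂ) • η‖ ≤ ε) (hqζ : ‖q - (1 / 2 : ℂ) • ζ‖ ≤ ε) :
    ‖4 * ⟪p, T q⟫_ℂ - ⟪η, T ζ⟫_ℂ‖ ≤ 6 * ε := by
  have h1 : 4 * ⟪p, T q⟫_ℂ - ⟪η, T ζ⟫_ℂ =
      4 * ⟪p - (1 / 2 : ℂ) • η, T q⟫_ℂ + 2 * ⟪η, T (q - (1 / 2 : ℂ) • ζ)⟫_ℂ := by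
    rw [inner_sub_left, inner_smul_left, map_sub, map_smul, inner_sub_right, inner_smul_right]
    have : (starRingEnd ℂ) (1 / 2 : ℂ) = 1 / 2 := by
      have h2 : (1 / 2 : ℂ) = ((1 / 2 : ℝ) : ℂ) := by push_cast; ring
      rw [h2, Complex.conj_ofReal]
    rw [this]
    ring
  rw [h1]
  have hTv : ∀ v : H, ‖T v‖ ≤ ‖v‖ := fun v =>
    (T.le_opNorm v).trans (by nlinarith [norm_nonneg v])
  have h2 : ‖⟪p - (1 / 2 : ℂ) • η, T q⟫_ℂ‖ ≤ ε :=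
    (norm_inner_le_norm _ _).trans (by
      have := (hTv q).trans hq
      nlinarith [norm_nonneg (p - (1 / 2 : ℂ) • η), norm_nonneg (T q)])
  have h3 : ‖⟪η, T (q - (1 / 2 : ℂ) • ζ)⟫_ℂ‖ ≤ ε :=
    (norm_inner_le_norm _ _).trans (by
      have := (hTv (q - (1 / 2 : ℂ) • ζ)).trans hqζ
      nlinarith [norm_nonneg η, norm_nonneg (T (q - (1 / 2 : ℂ) • ζ))])
  calc ‖4 * ⟪p - (1 / 2 : ℂ) • η, T q⟫_ℂ + 2 * ⟪η, T (q - (1 / 2 : ℂ) • ζ)⟫_ℂ‖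
      ≤ ‖4 * ⟪p - (1 / 2 : ℂ) • η, T q⟫_ℂ‖ + ‖2 * ⟪η, T (q - (1 / 2 : ℂ) • ζ)⟫_ℂ‖ :=
        norm_add_le _ _
    _ = 4 * ‖⟪p - (1 / 2 : ℂ) • η, T q⟫_ℂ‖ + 2 * ‖⟪η, T (q - (1 / 2 : ℂ) • ζ)⟫_ℂ‖ := by
        rw [norm_mul, norm_mul]; norm_num
    _ ≤ 6 * ε := by linarith

end one

variable {A B : Type u} [NonUnitalCStarAlgebra A] [NonUnitalCStarAlgebra B]
  {H K : Type u} [NormedAddCommGroup H] [InnerProductSpace ℂ H] [CompleteSpace H]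
  [NormedAddCommGroup K] [InnerProductSpace ℂ K] [CompleteSpace K]

/-- inner products of vectors `π (φ u) κ` and `ρ u ξ`. -/
theorem basic1 {φ : A → B} {ε δ : ℝ} (hφ : AI φ ε)
    {ρ : A →⋆ₙₐ[ℂ] (H →L[ℂ] H)} {ξ : H}
    {π : B →⋆ₙₐ[ℂ] (K →L[ℂ] K)} {κ : K} (hκ : ‖κ‖ = 1)
    (h : Near φ ρ π ξ κ δ) (u v : A) (hu : ‖u‖ ≤ 1) (hv : ‖v‖ ≤ 1) :
    ‖⟪π (φ u) κ, π (φ v) κ⟫_ℂ - ⟪ρ u ξ, ρ v ξ⟫_ℂ‖ ≤ 2 * ε + δ := by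
  rw [inner_rep, inner_rep]
  have hus : ‖star u‖ ≤ 1 := by rwa [norm_star]
  have huv : ‖star u * v‖ ≤ 1 := (norm_mul_le _ _).trans (by
    nlinarith [norm_nonneg (star u), norm_nonneg v])
  have hf : ∀ y : B, ‖⟪κ, π y κ⟫_ℂ‖ ≤ ‖y‖ := fun y =>
    (norm_inner_le_norm _ _).trans (by
      have := norm_rep_apply π y κ
      rw [hκ] at this ⊢
      linarith)
  have e1 : ‖star (φ u) * φ v - φ (star u) * φ v‖ ≤ ε := by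
    rw [← sub_mul]
    refine (norm_mul_le _ _).trans ?_
    have h1 := hφ.star u hu
    rw [norm_sub_rev] at h1
    have h2 := hφ.norm v hv
    nlinarith [norm_nonneg (star (φ u) - φ (star u)), norm_nonneg (φ v)]
  have e2 : ‖φ (star u) * φ v - φ (star u * v)‖ ≤ ε := by
    rw [norm_sub_rev]; exact hφ.mul _ _ hus hv
  have e3 := h _ huv
  have key : ⟪κ, π (star (φ u) * φ v) κ⟫_ℂ - ⟪ξ, ρ (star u * v) ξ⟫_ℂ =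
      ⟪κ, π (star (φ u) * φ v - φ (star u) * φ v) κ⟫_ℂ +
      ⟪κ, π (φ (star u) * φ v - φ (star u * v)) κ⟫_ℂ -
      (⟪ξ, ρ (star u * v) ξ⟫_ℂ - ⟪κ, π (φ (star u * v)) κ⟫_ℂ) := by
    rw [map_sub π, map_sub π, sub_apply, sub_apply,
      inner_sub_right, inner_sub_right]
    ring
  rw [key]
  refine (norm_sub_le _ _).trans ?_
  have := norm_add_le (⟪κ, π (star (φ u) * φ v - φ (star u) * φ v) κ⟫_ℂ)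
    (⟪κ, π (φ (star u) * φ v - φ (star u * v)) κ⟫_ℂ)
  have f1 := (hf (star (φ u) * φ v - φ (star u) * φ v)).trans e1
  have f2 := (hf (φ (star u) * φ v - φ (star u * v))).trans e2
  linarith

theorem basic2 {φ : A → B} {ε δ : ℝ} (hφ : AI φ ε)
    {ρ : A →⋆ₙₐ[ℂ] (H →L[ℂ] H)} {ξ : H}
    {π : B →⋆ₙₐ[ℂ] (K →L[ℂ] K)} {κ : K} (hκ : ‖κ‖ = 1)
    (h : Near φ ρ π ξ κ δ) (u v a : A) (hu : ‖u‖ ≤ 1) (hv : ‖v‖ ≤ 1) (ha : ‖a‖ ≤ 1) :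
    ‖⟪π (φ u) κ, π (φ a) (π (φ v) κ)⟫_ℂ - ⟪ρ u ξ, ρ a (ρ v ξ)⟫_ℂ‖ ≤ 3 * ε + δ := by
  have hav : ‖a * v‖ ≤ 1 := (norm_mul_le _ _).trans (by
    nlinarith [norm_nonneg a, norm_nonneg v])
  have b1 := basic1 hφ hκ h u (a * v) hu hav
  have hpu : ‖π (φ u) κ‖ ≤ 1 := (norm_rep_apply π _ κ).trans (by
    rw [hκ, mul_one]; exact hφ.norm u hu)
  have e1 : ‖⟪π (φ u) κ, π (φ a * φ v - φ (a * v)) κ⟫_ℂ‖ ≤ ε := by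
    refine (norm_inner_le_norm _ _).trans ?_
    have h1 := norm_rep_apply π (φ a * φ v - φ (a * v)) κ
    rw [hκ, mul_one] at h1
    have h2 := hφ.mul a v ha hv
    rw [norm_sub_rev] at h2
    nlinarith [norm_nonneg (π (φ u) κ), norm_nonneg (π (φ a * φ v - φ (a * v)) κ)]
  have key : ⟪π (φ u) κ, π (φ a) (π (φ v) κ)⟫_ℂ - ⟪ρ u ξ, ρ a (ρ v ξ)⟫_ℂ =
      ⟪π (φ u) κ, π (φ a * φ v - φ (a * v)) κ⟫_ℂ +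
      (⟪π (φ u) κ, π (φ (a * v)) κ⟫_ℂ - ⟪ρ u ξ, ρ (a * v) ξ⟫_ℂ) := by
    rw [map_sub π, sub_apply, inner_sub_right, map_mul π, map_mul ρ,
      mul_apply_eq_comp, mul_apply_eq_comp]
    ring
  rw [key]
  refine (norm_add_le _ _).trans ?_
  linarith

theorem sqrt_bounds (s : ℝ) (hs : 0 ≤ s) (hs2 : s ≤ 2) : s ≤ 2 * √s := by
  have h1 := Real.sqrt_nonneg s
  have h2 := Real.sq_sqrt hs
  have h3 : √s ≤ 2 := by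
    rw [show (2 : ℝ) = √(2 ^ 2) by rw [Real.sqrt_sq (by norm_num)]]
    exact Real.sqrt_le_sqrt (by linarith)
  nlinarith

/-- squared distance of vectors `π (φ u) κ` -/
theorem dist_sq {φ : A → B} {ε δ : ℝ} (hφ : AI φ ε)
    {ρ : A →⋆ₙₐ[ℂ] (H →L[ℂ] H)} {ξ : H}
    {π : B →⋆ₙₐ[ℂ] (K →L[ℂ] K)} {κ : K} (hκ : ‖κ‖ = 1)
    (h : Near φ ρ π ξ κ δ) (u v : A) (hu : ‖u‖ ≤ 1) (hv : ‖v‖ ≤ 1) :
    ‖π (φ u) κ - π (φ v) κ‖ ^ 2 ≤ ‖ρ u ξ - ρ v ξ‖ ^ 2 + 4 * (2 * ε + δ) := by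
  have h1 := basic1 hφ hκ h u u hu hu
  have h2 := basic1 hφ hκ h u v hu hv
  have h3 := basic1 hφ hκ h v u hv hu
  have h4 := basic1 hφ hκ h v v hv hv
  have key : ((‖π (φ u) κ - π (φ v) κ‖ ^ 2 : ℝ) : ℂ) - ((‖ρ u ξ - ρ v ξ‖ ^ 2 : ℝ) : ℂ) =
      (⟪π (φ u) κ, π (φ u) κ⟫_ℂ - ⟪ρ u ξ, ρ u ξ⟫_ℂ) -
      (⟪π (φ u) κ, π (φ v) κ⟫_ℂ - ⟪ρ u ξ, ρ v ξ⟫_ℂ) -
      (⟪π (φ v) κ, π (φ u) κ⟫_ℂ - ⟪ρ v ξ, ρ u ξ⟫_ℂ) +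
      (⟪π (φ v) κ, π (φ v) κ⟫_ℂ - ⟪ρ v ξ, ρ v ξ⟫_ℂ) := by
    have e1 : ((‖π (φ u) κ - π (φ v) κ‖ ^ 2 : ℝ) : ℂ) =
        ⟪π (φ u) κ - π (φ v) κ, π (φ u) κ - π (φ v) κ⟫_ℂ := by
      rw [inner_self_eq_norm_sq_to_K]; push_cast; rfl
    have e2 : ((‖ρ u ξ - ρ v ξ‖ ^ 2 : ℝ) : ℂ) =
        ⟪ρ u ξ - ρ v ξ, ρ u ξ - ρ v ξ⟫_ℂ := by
      rw [inner_self_eq_norm_sq_to_K]; push_cast; rfl
    rw [e1, e2, inner_sub_left, inner_sub_right, inner_sub_right, inner_sub_left,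
      inner_sub_right, inner_sub_right]
    ring
  have h5 : ‖((‖π (φ u) κ - π (φ v) κ‖ ^ 2 : ℝ) : ℂ) - ((‖ρ u ξ - ρ v ξ‖ ^ 2 : ℝ) : ℂ)‖ ≤
      4 * (2 * ε + δ) := by
    rw [key]
    refine (norm_add_le _ _).trans ?_
    have g1 := norm_sub_le ((⟪π (φ u) κ, π (φ u) κ⟫_ℂ - ⟪ρ u ξ, ρ u ξ⟫_ℂ) -
      (⟪π (φ u) κ, π (φ v) κ⟫_ℂ - ⟪ρ u ξ, ρ v ξ⟫_ℂ))
      (⟪π (φ v) κ, π (φ u) κ⟫_ℂ - ⟪ρ v ξ, ρ u ξ⟫_ℂ)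
    have g2 := norm_sub_le (⟪π (φ u) κ, π (φ u) κ⟫_ℂ - ⟪ρ u ξ, ρ u ξ⟫_ℂ)
      (⟪π (φ u) κ, π (φ v) κ⟫_ℂ - ⟪ρ u ξ, ρ v ξ⟫_ℂ)
    linarith
  rw [← Complex.ofReal_sub, Complex.norm_real, Real.norm_eq_abs] at h5
  have := (abs_le.1 h5).2
  linarith

end Pool.Agent.TH320.EIV

namespace Pool.Agent.TH387.EI
open Pool.Agent.TH320.EIV
universe u

variable {A B : Type u} [NonUnitalCStarAlgebra A] [NonUnitalCStarAlgebra B]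
  {H K : Type u} [NormedAddCommGroup H] [InnerProductSpace ℂ H] [CompleteSpace H]
  [NormedAddCommGroup K] [InnerProductSpace ℂ K] [CompleteSpace K]

theorem exists_V (hvec : KapVecP.{u}) (hlim : KapLimP.{u}) (φ : A → B) (ε δ : ℝ) (hε : 0 < ε)
    (hε1 : ε ≤ 1) (hδ : 0 ≤ δ) (hδ1 : δ ≤ 1) (hφ : AI φ ε)
    (ρ : A →⋆ₙₐ[ℂ] (H →L[ℂ] H)) (hρ : Kap ρ) (ξ : H) (hξ : ‖ξ‖ = 1)
    (π : B →⋆ₙₐ[ℂ] (K →L[ℂ] K)) (hπ : Kap π) (κ : K) (hκ : ‖κ‖ = 1)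
    (h : Near φ ρ π ξ κ δ) :
    ∃ V : H → K, NW V (1000 * √(ε + δ)) ∧
      ∀ a : A, ‖a‖ ≤ 1 → ∀ η ζ : H, ‖η‖ ≤ 1 → ‖ζ‖ ≤ 1 →
        ‖⟪V η, π (φ a) (V ζ)⟫_ℂ - ⟪η, ρ a ζ⟫_ℂ‖ ≤ 1000 * √(ε + δ) := by
  have hs : 0 ≤ ε + δ := by linarith
  have hsq := sqrt_bounds (ε + δ) hs (by linarith)
  have hs0 := Real.sqrt_nonneg (ε + δ)
  have hssq := Real.sq_sqrt hs
  have hex : ∀ η : H, ∃ a : A, ‖a‖ ≤ 1 ∧ (‖η‖ ≤ 1 → ‖ρ a ξ - (1 / 2 : ℂ) • η‖ ≤ ε) := by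
    intro η
    by_cases hη : ‖η‖ ≤ 1
    · obtain ⟨a, ha, ha2⟩ := hvec A H ρ hρ ξ hξ η hη ε hε
      exact ⟨a, ha, fun _ => ha2⟩
    · exact ⟨0, by simp, fun h => absurd h hη⟩
  choose α hα1 hα2 using hex
  have hpn : ∀ a : A, ‖a‖ ≤ 1 → ‖ρ a ξ‖ ≤ 1 := fun a ha =>
    (norm_rep_apply ρ a ξ).trans (by rw [hξ, mul_one]; exact ha)
  have hVin : ∀ (v w : K), ⟪(2 : ℂ) • v, (2 : ℂ) • w⟫_ℂ = 4 * ⟪v, w⟫_ℂ := by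
    intro v w
    rw [inner_smul_left, inner_smul_right]
    have : (starRingEnd ℂ) (2 : ℂ) = 2 := by
      have h2 : (2 : ℂ) = ((2 : ℝ) : ℂ) := by push_cast; ring
      rw [h2, Complex.conj_ofReal]
    rw [this]; ring
  have hmid : ∀ a : A, ‖a‖ ≤ 1 → ∀ η ζ : H,
      ‖⟪(2 : ℂ) • π (φ (α η)) κ, π (φ a) ((2 : ℂ) • π (φ (α ζ)) κ)⟫_ℂ -
        4 * ⟪ρ (α η) ξ, ρ a (ρ (α ζ) ξ)⟫_ℂ‖ ≤ 12 * ε + 4 * δ := by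
    intro a ha η ζ
    rw [map_smul, hVin, ← mul_sub, norm_mul]
    have := basic2 hφ hκ h (α η) (α ζ) a (hα1 η) (hα1 ζ) ha
    have h4 : ‖(4 : ℂ)‖ = 4 := by norm_num
    rw [h4]; linarith
  refine ⟨fun η => (2 : ℂ) • π (φ (α η)) κ, ⟨?_, ?_, ?_⟩, ?_⟩
  · intro η ζ hη hζ
    have h1 := basic1 hφ hκ h (α η) (α ζ) (hα1 η) (hα1 ζ)
    have h2 := four_close (1 : H →L[ℂ] H) (ContinuousLinearMap.norm_id_le) (ρ (α η) ξ)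
      (ρ (α ζ) ξ) η ζ ε (hpn _ (hα1 ζ)) hη (hα2 η hη) (hα2 ζ hζ)
    simp only [one_apply_eq_self] at h2
    rw [hVin]
    have h3 : 4 * ⟪π (φ (α η)) κ, π (φ (α ζ)) κ⟫_ℂ - ⟪η, ζ⟫_ℂ =
        4 * (⟪π (φ (α η)) κ, π (φ (α ζ)) κ⟫_ℂ - ⟪ρ (α η) ξ, ρ (α ζ) ξ⟫_ℂ) +
        (4 * ⟪ρ (α η) ξ, ρ (α ζ) ξ⟫_ℂ - ⟪η, ζ⟫_ℂ) := by ring
    rw [h3]
    refine (norm_add_le _ _).trans ?_
    rw [norm_mul]
    have h4 : ‖(4 : ℂ)‖ = 4 := by norm_num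
    rw [h4]
    linarith
  · intro k hk
    obtain ⟨b, hb1, hb2⟩ := hvec B K π hπ κ hκ k hk ε hε
    obtain ⟨x, hx1, hx2⟩ := hφ.surj b hb1
    have hxk : ‖π (φ x) κ - (1 / 2 : ℂ) • k‖ ≤ 2 * ε := by
      have e1 : π (φ x) κ - (1 / 2 : ℂ) • k =
          (π b κ - (1 / 2 : ℂ) • k) - π (b - φ x) κ := by
        rw [map_sub, sub_apply]; abel
      rw [e1]
      refine (norm_sub_le _ _).trans ?_
      have := norm_rep_apply π (b - φ x) κ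
      rw [hκ, mul_one] at this
      linarith
    set q : H := ρ x ξ with hq
    set Q : K := π (φ x) κ with hQ
    have hQn : ‖Q‖ ≤ 1 / 2 + 2 * ε := by
      have e1 : Q = (Q - (1 / 2 : ℂ) • k) + (1 / 2 : ℂ) • k := by abel
      rw [e1]
      refine (norm_add_le _ _).trans ?_
      rw [norm_smul]
      have : ‖(1 / 2 : ℂ)‖ = 1 / 2 := by norm_num
      rw [this]; linarith
    have hqn : ‖q‖ ^ 2 ≤ 1 / 4 + 8 * ε + δ := by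
      have h1 := basic1 hφ hκ h x x hx1 hx1
      rw [inner_self_eq_norm_sq_to_K, inner_self_eq_norm_sq_to_K] at h1
      have h2 : ‖((‖Q‖ ^ 2 - ‖q‖ ^ 2 : ℝ) : ℂ)‖ ≤ 2 * ε + δ := by
        push_cast; exact h1
      rw [Complex.norm_real, Real.norm_eq_abs] at h2
      have h3 := (abs_le.1 h2).1
      have h4 : ‖Q‖ ^ 2 ≤ (1 / 2 + 2 * ε) ^ 2 := by
        have := norm_nonneg Q
        nlinarith
      nlinarith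
    set m : ℝ := 8 * ε + δ with hm
    have hm0 : 0 ≤ m := by rw [hm]; linarith
    have hq2 : ‖q‖ ≤ 1 / 2 + m := by
      have h1 := norm_nonneg q
      by_contra hcon
      push Not at hcon
      nlinarith
    -- the vector
    have hη : ∃ η : H, ‖η‖ ≤ 1 ∧ ‖q - (1 / 2 : ℂ) • η‖ ≤ m := by
      by_cases hq3 : ‖q‖ ≤ 1 / 2
      · refine ⟨(2 : ℂ) • q, ?_, ?_⟩
        · rw [norm_smul]
          have : ‖(2 : ℂ)‖ = 2 := by norm_num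
          rw [this]; linarith
        · rw [smul_smul]; norm_num; exact hm0
      · push Not at hq3
        have hqpos : 0 < ‖q‖ := by linarith
        refine ⟨((‖q‖⁻¹ : ℝ) : ℂ) • q, ?_, ?_⟩
        · rw [norm_smul, Complex.norm_real, Real.norm_eq_abs, abs_of_pos (inv_pos.2 hqpos),
            inv_mul_cancel₀ hqpos.ne']
        · have e1 : q - (1 / 2 : ℂ) • ((‖q‖⁻¹ : ℝ) : ℂ) • q =
              ((1 - 1 / 2 * ‖q‖⁻¹ : ℝ) : ℂ) • q := by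
            rw [smul_smul]; push_cast; rw [sub_smul, one_smul]
          rw [e1, norm_smul, Complex.norm_real, Real.norm_eq_abs]
          have h5 : 0 ≤ 1 - 1 / 2 * ‖q‖⁻¹ := by
            have : ‖q‖⁻¹ ≤ 2 := by
              rw [inv_le_comm₀ hqpos (by norm_num)]; linarith
            linarith
          rw [abs_of_nonneg h5, sub_mul, mul_assoc, inv_mul_cancel₀ hqpos.ne']
          linarith
    obtain ⟨η, hη1, hη2⟩ := hη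
    refine ⟨η, hη1, ?_⟩
    have hd := dist_sq hφ hκ h (α η) x (hα1 η) hx1
    have hd2 : ‖ρ (α η) ξ - ρ x ξ‖ ≤ ε + m := by
      have e1 : ρ (α η) ξ - ρ x ξ = (ρ (α η) ξ - (1 / 2 : ℂ) • η) - (q - (1 / 2 : ℂ) • η) := by
        rw [hq]; abel
      rw [e1]
      exact (norm_sub_le _ _).trans (add_le_add (hα2 η hη1) hη2)
    have hd3 : ‖π (φ (α η)) κ - Q‖ ^ 2 ≤ (15 * √(ε + δ)) ^ 2 := by
      have hnn := norm_nonneg (ρ (α η) ξ - ρ x ξ)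
      have h6 : ‖ρ (α η) ξ - ρ x ξ‖ ^ 2 ≤ (9 * (ε + δ)) ^ 2 := by
        have : ε + m ≤ 9 * (ε + δ) := by rw [hm]; linarith
        nlinarith
      rw [mul_pow, hssq]
      nlinarith
    have hd4 : ‖π (φ (α η)) κ - Q‖ ≤ 15 * √(ε + δ) := by
      have h7 : 0 ≤ 15 * √(ε + δ) := by positivity
      exact (sq_le_sq₀ (norm_nonneg _) h7).1 hd3
    have e2 : (2 : ℂ) • π (φ (α η)) κ - k =
        (2 : ℂ) • (π (φ (α η)) κ - Q) + (2 : ℂ) • (Q - (1 / 2 : ℂ) • k) := by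
      rw [smul_sub, smul_sub, smul_smul]
      norm_num
    rw [e2]
    refine (norm_add_le _ _).trans ?_
    rw [norm_smul, norm_smul]
    have : ‖(2 : ℂ)‖ = 2 := by norm_num
    rw [this]
    linarith
  · intro T hT
    obtain ⟨S, hS, hS2⟩ := hlim A B φ hφ.norm H K ρ hρ π T hT
    refine ⟨S, hS, ?_⟩
    intro η ζ hη hζ
    have h1 := hS2 ((2 : ℂ) • π (φ (α η)) κ) ((2 : ℂ) • π (φ (α ζ)) κ) (ρ (α η) ξ) (ρ (α ζ) ξ)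
      4 (24 * ε + 8 * δ) (by
        intro z hz
        have := hmid z hz η ζ
        have e1 : 2 * ⟪(2 : ℂ) • π (φ (α η)) κ, π (φ z) ((2 : ℂ) • π (φ (α ζ)) κ)⟫_ℂ -
          2 * 4 * ⟪ρ (α η) ξ, ρ z (ρ (α ζ) ξ)⟫_ℂ =
          2 * (⟪(2 : ℂ) • π (φ (α η)) κ, π (φ z) ((2 : ℂ) • π (φ (α ζ)) κ)⟫_ℂ -
          4 * ⟪ρ (α η) ξ, ρ z (ρ (α ζ) ξ)⟫_ℂ) := by ring
        rw [e1, norm_mul]
        have h2 : ‖(2 : ℂ)‖ = 2 := by norm_num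
        rw [h2]; linarith)
    have h2 := four_close T hT (ρ (α η) ξ)
      (ρ (α ζ) ξ) η ζ ε (hpn _ (hα1 ζ)) hη (hα2 η hη) (hα2 ζ hζ)
    have e3 : ⟪(2 : ℂ) • π (φ (α η)) κ, S ((2 : ℂ) • π (φ (α ζ)) κ)⟫_ℂ - ⟪η, T ζ⟫_ℂ =
        (⟪(2 : ℂ) • π (φ (α η)) κ, S ((2 : ℂ) • π (φ (α ζ)) κ)⟫_ℂ -
          4 * ⟪ρ (α η) ξ, T (ρ (α ζ) ξ)⟫_ℂ) +
        (4 * ⟪ρ (α η) ξ, T (ρ (α ζ) ξ)⟫_ℂ - ⟪η, T ζ⟫_ℂ) := by ring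
    rw [e3]
    refine (norm_add_le _ _).trans ?_
    linarith
  · intro a ha η ζ hη hζ
    have h1 := hmid a ha η ζ
    have h2 := four_close (ρ a) ((norm_rep ρ a).trans ha) (ρ (α η) ξ)
      (ρ (α ζ) ξ) η ζ ε (hpn _ (hα1 ζ)) hη (hα2 η hη) (hα2 ζ hζ)
    have e3 : ⟪(2 : ℂ) • π (φ (α η)) κ, π (φ a) ((2 : ℂ) • π (φ (α ζ)) κ)⟫_ℂ - ⟪η, ρ a ζ⟫_ℂ =
        (⟪(2 : ℂ) • π (φ (α η)) κ, π (φ a) ((2 : ℂ) • π (φ (α ζ)) κ)⟫_ℂ -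
          4 * ⟪ρ (α η) ξ, ρ a (ρ (α ζ) ξ)⟫_ℂ) +
        (4 * ⟪ρ (α η) ξ, ρ a (ρ (α ζ) ξ)⟫_ℂ - ⟪η, ρ a ζ⟫_ℂ) := by ring
    rw [e3]
    refine (norm_add_le _ _).trans ?_
    linarith

end Pool.Agent.TH387.EI
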