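import Pool.Agent.TH320.LRes1

set_option autoImplicit false

/-! # Locally checkable labelling problems on the shift graph of `ℤ^d` -/

noncomputable section

namespace Pool.Agent.TH320.GL

open MeasureTheory Topology
open Pool.Agent.W927 (Conf shift FreePart)
open Pool.Agent.TH320.LC (act act_val act_zero act_add)

/-- A rooted graph with vertices labelled by `Fin k`. -/
structure RG (k : ℕ) where
  /-- the vertices -/
  V : Type
  /-- the graph -/
  G : SimpleGraph V
  /-- the root -/
  root : V
  /-- the labels -/
  lab : V → Fin k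

/-- Isomorphism of rooted labelled graphs. -/
def RG.Iso {k : ℕ} (A B : RG k) : Prop :=
  ∃ e : A.G ≃g B.G, e A.root = B.root ∧ ∀ w, B.lab (e w) = A.lab w

/-- Isomorphism is an equivalence relation. -/
def RG.setoid (k : ℕ) : Setoid (RG k) where
  r := RG.Iso
  iseqv := by
    refine ⟨fun A => ⟨.refl, rfl, fun _ => rfl⟩, ?_, ?_⟩
    · rintro A B ⟨e, h1, h2⟩
      refine ⟨e.symm, ?_, fun w => ?_⟩
      · rw [← h1]; simp
      · rw [← h2]; simp
    · rintro A B C ⟨e, h1, h2⟩ ⟨f, h3, h4⟩
      refine ⟨e.trans f, ?_, fun w => ?_⟩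
      · simp [h1, h3]
      · simp [h2, h4]

/-- Isomorphism types of rooted labelled graphs. -/
abbrev RGType (k : ℕ) := Quotient (RG.setoid k)

/-- The isomorphism type of a rooted labelled graph. -/
def RG.type {k : ℕ} (A : RG k) : RGType k := Quotient.mk (RG.setoid k) A

/-- The ball of radius `r` around `v`: the endpoints of walks of length at most `r` from `v`. -/
def ball {V : Type} (G : SimpleGraph V) (r : ℕ) (v : V) : Set V :=
  {u | ∃ p : G.Walk v u, p.length ≤ r}

theorem mem_ball_self {V : Type} (G : SimpleGraph V) (r : ℕ) (v : V) : v ∈ ball G r v :=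
  ⟨.nil, Nat.zero_le _⟩

/-- The ball of radius `r` around `v` as an induced subgraph, rooted at `v` and labelled by `f`. -/
def ballRG {V : Type} (G : SimpleGraph V) (r : ℕ) {k : ℕ} (f : V → Fin k) (v : V) : RG k where
  V := ball G r v
  G := G.induce (ball G r v)
  root := ⟨v, mem_ball_self G r v⟩
  lab := fun w => f w

/-- A locally checkable labelling problem: the labels `Fin k`, the radius `r` and a set `P` of
isomorphism types of finite rooted labelled graphs of radius at most `r`. -/
structure LCL where
  /-- the number of labels -/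
  k : ℕ
  /-- the radius -/
  r : ℕ
  /-- the allowed isomorphism types -/
  P : Set (RGType k)
  /-- they are types of finite rooted graphs of radius at most `r` -/
  small : ∀ B : RG k, B.type ∈ P → Finite B.V ∧ ∀ w, w ∈ ball B.G r B.root

/-- The labelling `f` satisfies the problem at the vertex `v`: the labelled ball around `v` is
allowed. -/
def LCL.At (Q : LCL) {V : Type} (G : SimpleGraph V) (f : V → Fin Q.k) (v : V) : Prop :=
  (ballRG G Q.r f v).type ∈ Q.P

/-- The shift graph of `ℤ^d` on the free part of `2^{ℤ^d}`: neighbours differ by a standard basis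
vector. -/
def shiftGraph (d : ℕ) : SimpleGraph (FreePart d) where
  Adj x y := ∃ i : Fin d, y.1 = shift (Pi.single i 1) x.1 ∨ y.1 = shift (-Pi.single i 1) x.1
  symm := ⟨by
    rintro x y ⟨i, h | h⟩
    · refine ⟨i, Or.inr ?_⟩
      rw [h, Pool.Agent.TH320.LC.shift_shift, neg_add_cancel]
      funext k; simp [shift]
    · refine ⟨i, Or.inl ?_⟩
      rw [h, Pool.Agent.TH320.LC.shift_shift, add_neg_cancel]
      funext k; simp [shift]⟩
  loopless := ⟨by
    rintro x ⟨i, h | h⟩
    · refine x.2 (Pi.single i 1) ?_ h.symm
      intro h0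
      have := congrFun h0 i
      simp at this
    · refine x.2 (-Pi.single i 1) ?_ h.symm
      intro h0
      have := congrFun h0 i
      simp at this⟩

/-- An invariant set: a union of connected components of the shift graph. -/
def Inv {d : ℕ} (Y : Set (FreePart d)) : Prop :=
  ∀ x y, (shiftGraph d).Adj x y → x ∈ Y → y ∈ Y

/-- The shift graph admits a Borel solution. -/
def LCL.HasBorel (Q : LCL) (d : ℕ) : Prop :=
  ∃ f : FreePart d → Fin Q.k, Measurable f ∧ ∀ v, Q.At (shiftGraph d) f v

/-- The shift graph admits a measurable solution: for every Borel probability measure there is a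
Borel solution on an invariant conull Borel set. -/
def LCL.HasMeasurable (Q : LCL) (d : ℕ) : Prop :=
  ∀ μ : Measure (FreePart d), IsProbabilityMeasure μ →
    ∃ (Y : Set (FreePart d)) (f : FreePart d → Fin Q.k), MeasurableSet Y ∧ Inv Y ∧ μ Yᶜ = 0 ∧
      Measurable f ∧ ∀ v ∈ Y, Q.At (shiftGraph d) f v

/-- The shift graph admits a Baire measurable solution: there is a Borel solution on an invariant
comeagre Borel set. -/
def LCL.HasBaire (Q : LCL) (d : ℕ) : Prop :=
  ∃ (Y : Set (FreePart d)) (f : FreePart d → Fin Q.k), MeasurableSet Y ∧ Inv Y ∧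
    Y ∈ residual (FreePart d) ∧ Measurable f ∧ ∀ v ∈ Y, Q.At (shiftGraph d) f v

end Pool.Agent.TH320.GL

end
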