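import Pool.Agent.TH320.GGrid

set_option autoImplicit false

/-! # Encoding of a local rule for the oriented plane in a problem for unoriented graphs -/

noncomputable section

namespace Pool.Agent.TH320.GL

open MeasureTheory Topology
open Pool.Agent.W927 (Conf shift FreePart)
open Pool.Agent.W927.BM (FreeBorel emb emb_add emb_zero emb_eq_zero emb_fst emb_snd)
open Pool.Agent.TH320.LC (act act_val act_zero act_add)

/-- labels: colour, colours of the neighbours in all directions, label -/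
abbrev Lam (d m : ℕ) (L : Type) := Fin m × (Dir d → Fin m) × L

section defs

variable {d : ℕ} (hd : 2 ≤ d) {m K : ℕ} {L : Type} (e : Fin K ≃ Lam d m L)
  (R : (ℤ → ℤ → L) → Prop)

/-- The labelled grids whose balls around the origin are allowed. -/
structure Good (f : (Fin d → ℤ) → Fin K) : Prop where
  dir : ∀ g p, (e (f g)).2.1 p = (e (f (uv p + g))).1
  col : ∀ g p q, (e (f (uv p + g))).1 = (e (f (uv q + g))).1 → p = q
  rule : R fun t x => (e (f (emb hd t x))).2.2

/-- The encoded problem. -/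
def enc : LCL where
  k := K
  r := 4
  P := {q | ∃ f : (Fin d → ℤ) → Fin K, Good hd e R f ∧ q = (ballRG (grid d) 4 f 0).type}
  small := by
    rintro B ⟨f, -, h⟩
    obtain ⟨φ, h1, -⟩ := Quotient.exact h
    constructor
    · have : Finite (ball (grid d) 4 0) := (ball_finite 4 0).to_subtype
      exact Finite.of_injective (β := ball (grid d) 4 0) φ φ.injective
    · intro w
      have h2 : ∀ u : ball (grid d) 4 0, u ∈ ball ((grid d).induce (ball (grid d) 4 0)) 4
          ⟨0, mem_ball_self _ _ _⟩ := fun u => mem_ball_induce u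
      have h3 := map_mem_ball (φ.symm.toRelEmbedding) (h2 (φ w))
      have e1 : φ.symm.toRelEmbedding (φ w) = w := φ.symm_apply_apply w
      have e2 : φ.symm.toRelEmbedding (⟨0, mem_ball_self _ _ _⟩ : ball (grid d) 4 0) = B.root := by
        change φ.symm _ = _
        have : (⟨0, mem_ball_self _ _ _⟩ : ball (grid d) 4 0) = φ B.root := h1.symm
        rw [this]
        exact φ.symm_apply_apply _
      rw [e1] at h3
      rw [← e2]
      exact h3

end defs

variable {d : ℕ} {hd : 2 ≤ d} {m K : ℕ} {L : Type} {e : Fin K ≃ Lam d m L}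
  {R : (ℤ → ℤ → L) → Prop}

/-! ## from labellings of the oriented graph to solutions -/

/-- A solution of the encoded problem. -/
theorem at_of_rule {c : FreePart d → Fin m} {g : FreePart d → L}
    (hc : ∀ p q : Dir d, p ≠ q → ∀ x, c (act (uv p - uv q) x) ≠ c x) {x : FreePart d}
    (hx : R fun s t => g (act (emb hd s t) x)) :
    (enc hd e R).At (shiftGraph d) (fun y => e.symm (c y, fun p => c (act (uv p) y), g y)) x := by
  refine ⟨fun h => e.symm (c (act h x), fun p => c (act (uv p) (act h x)), g (act h x)), ?_,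
    shift_ball_type 4 _ x⟩
  refine ⟨?_, ?_, ?_⟩
  · intro h p
    simp only [Equiv.apply_symm_apply]
    rw [act_add]
  · intro h p q hpq
    simp only [Equiv.apply_symm_apply] at hpq
    by_contra hne
    apply hc p q hne (act (uv q + h) x)
    rw [← act_add, ← hpq]
    congr 2
    abel
  · simp only [Equiv.apply_symm_apply]
    exact hx

/-! ## frames of solutions -/

section neg

/-- A chart around `w`. -/
structure Chart (e : Fin K ≃ Lam d m L) (F : FreePart d → Fin K) (w : FreePart d)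
    (f : (Fin d → ℤ) → Fin K) (ψ : (Fin d → ℤ) → FreePart d) : Prop where
  zero : ψ 0 = w
  lab : ∀ p ∈ ball (grid d) 4 0, F (ψ p) = f p
  adj : ∀ p ∈ ball (grid d) 4 0, ∀ q ∈ ball (grid d) 4 0, (grid d).Adj p q →
    (shiftGraph d).Adj (ψ p) (ψ q)
  nb : ∀ z, (shiftGraph d).Adj w z → ∃ p, z = ψ (uv p)

theorem exists_chart {F : FreePart d → Fin K} {w : FreePart d}
    (h : (enc hd e R).At (shiftGraph d) F w) : ∃ f ψ, Good hd e R f ∧ Chart e F w f ψ := by
  classical
  obtain ⟨f, hf, ht⟩ := h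
  obtain ⟨φ, h1, h2⟩ := Quotient.exact ht
  have h1' : φ ⟨w, mem_ball_self _ _ _⟩ = (⟨0, mem_ball_self _ _ _⟩ : ball (grid d) 4 0) := h1
  have h2' : ∀ z : ball (shiftGraph d) 4 w, f (φ z).1 = F z.1 := h2
  let φ' : (shiftGraph d).induce (ball (shiftGraph d) 4 w) ≃g (grid d).induce (ball (grid d) 4 0) := φ
  let ψ : (Fin d → ℤ) → FreePart d := fun p =>
    if hp : p ∈ ball (grid d) 4 0 then (φ'.symm ⟨p, hp⟩).1 else w
  have hψ : ∀ p (hp : p ∈ ball (grid d) 4 0), ψ p = (φ'.symm ⟨p, hp⟩).1 := fun p hp => dif_pos hp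
  have hψ' : ∀ z : ball (shiftGraph d) 4 w, ψ (φ' z).1 = z.1 := by
    intro z
    rw [hψ _ (φ' z).2]
    exact congrArg Subtype.val (φ'.symm_apply_apply z)
  refine ⟨f, ψ, hf, ?_, ?_, ?_, ?_⟩
  · have := hψ' ⟨w, mem_ball_self _ _ _⟩
    rw [show (φ' ⟨w, mem_ball_self _ _ _⟩ : ball (grid d) 4 0) = ⟨0, mem_ball_self _ _ _⟩ from h1']
      at this
    exact this
  · intro p hp
    have h3 := h2' (φ'.symm ⟨p, hp⟩)
    rw [show (φ (φ'.symm ⟨p, hp⟩) : ball (grid d) 4 0) = ⟨p, hp⟩ from φ'.apply_symm_apply _] at h3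
    rw [hψ p hp, h3]
  · intro p hp q hq hpq
    rw [hψ p hp, hψ q hq]
    have : ((shiftGraph d).induce (ball (shiftGraph d) 4 w)).Adj (φ'.symm ⟨p, hp⟩)
        (φ'.symm ⟨q, hq⟩) := φ'.symm.map_adj_iff.2 hpq
    exact this
  · intro z hz
    have hz4 : z ∈ ball (shiftGraph d) 4 w :=
      ball_mono _ (by norm_num) _ (ball_step (r := 0) ⟨.nil, le_rfl⟩ hz)
    have h3 : ((shiftGraph d).induce (ball (shiftGraph d) 4 w)).Adj ⟨w, mem_ball_self _ _ _⟩
        ⟨z, hz4⟩ := hz
    have h4 := φ'.map_adj_iff.2 h3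
    rw [show (φ' ⟨w, mem_ball_self _ _ _⟩ : ball (grid d) 4 0) = ⟨0, mem_ball_self _ _ _⟩ from h1']
      at h4
    have h5 : (grid d).Adj 0 (φ' ⟨z, hz4⟩).1 := h4
    obtain ⟨p, hp⟩ := grid_adj.1 h5
    refine ⟨p, ?_⟩
    rw [add_zero] at hp
    rw [← hp]
    exact (hψ' ⟨z, hz4⟩).symm

/-- `z` is the neighbour of `w` in the direction `p` -/
def St (e : Fin K ≃ Lam d m L) (F : FreePart d → Fin K) (w : FreePart d) (p : Dir d)
    (z : FreePart d) : Prop :=
  (shiftGraph d).Adj w z ∧ (e (F z)).1 = (e (F w)).2.1 p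

/-- `a` is the frame of `w` -/
def Fr (e : Fin K ≃ Lam d m L) (F : FreePart d → Fin K) (w : FreePart d)
    (a : Dir d → Dir d) : Prop :=
  ∀ p, (e (F (act (uv (a p)) w))).1 = (e (F w)).2.1 p

theorem Fr.st {F : FreePart d → Fin K} {w : FreePart d} {a : Dir d → Dir d} (h : Fr e F w a)
    (p : Dir d) : St e F w p (act (uv (a p)) w) :=
  ⟨shift_adj.2 ⟨_, rfl⟩, h p⟩

theorem uv_mem (n : ℕ) (hn : 1 ≤ n) (p : Dir d) : uv p ∈ ball (grid d) n 0 :=
  ball_mono _ hn _ (mem_ball_uv p)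

theorem Chart.st_iff {F : FreePart d → Fin K} {w : FreePart d} {f : (Fin d → ℤ) → Fin K}
    {ψ : (Fin d → ℤ) → FreePart d} (hf : Good hd e R f) (h : Chart e F w f ψ) (p : Dir d)
    (z : FreePart d) : St e F w p z ↔ z = ψ (uv p) := by
  have h0 : (e (F w)).2.1 p = (e (f (uv p))).1 := by
    have h1 := h.lab 0 (mem_ball_self _ _ _)
    rw [h.zero] at h1
    rw [h1, hf.dir, add_zero]
  constructor
  · rintro ⟨h1, h2⟩
    obtain ⟨q, rfl⟩ := h.nb z h1
    rw [h.lab _ (uv_mem 4 (by norm_num) q), h0] at h2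
    have := hf.col 0 q p (by rw [add_zero, add_zero]; exact h2)
    rw [this]
  · rintro rfl
    refine ⟨?_, ?_⟩
    · have := h.adj 0 (mem_ball_self _ _ _) (uv p) (uv_mem 4 (by norm_num) p)
        ⟨p, (add_zero _).symm⟩
      rwa [h.zero] at this
    · rw [h.lab _ (uv_mem 4 (by norm_num) p), h0]

theorem Chart.st {F : FreePart d → Fin K} {w : FreePart d} {f : (Fin d → ℤ) → Fin K}
    {ψ : (Fin d → ℤ) → FreePart d} (hf : Good hd e R f) (h : Chart e F w f ψ) (p : Dir d)
    {g : Fin d → ℤ} (hg : g ∈ ball (grid d) 3 0) : St e F (ψ g) p (ψ (uv p + g)) := by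
  have hg4 : g ∈ ball (grid d) 4 0 := ball_mono _ (by norm_num) _ hg
  have hg5 : uv p + g ∈ ball (grid d) 4 0 := ball_step hg ⟨p, rfl⟩
  refine ⟨h.adj g hg4 _ hg5 ⟨p, rfl⟩, ?_⟩
  rw [h.lab g hg4, h.lab _ hg5, hf.dir]

variable {F : FreePart d → Fin K}

theorem st_unique {w : FreePart d} (hw : (enc hd e R).At (shiftGraph d) F w) {p : Dir d}
    {z z' : FreePart d} (h : St e F w p z) (h' : St e F w p z') : z = z' := by
  obtain ⟨f, ψ, hf, hψ⟩ := exists_chart hw
  rw [hψ.st_iff hf] at h h'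
  rw [h, h']

theorem exists_frame {w : FreePart d} (hw : (enc hd e R).At (shiftGraph d) F w) :
    ∃ a, Fr e F w a := by
  obtain ⟨f, ψ, hf, hψ⟩ := exists_chart hw
  have h1 : ∀ p, ∃ q, ψ (uv p) = act (uv q) w := by
    intro p
    have := (hψ.st_iff hf p _).2 rfl
    exact shift_adj.1 this.1
  choose a ha using h1
  refine ⟨a, fun p => ?_⟩
  rw [← ha]
  exact ((hψ.st_iff hf p _).2 rfl).2

theorem Fr.eq_chart {w : FreePart d} {f : (Fin d → ℤ) → Fin K} {ψ : (Fin d → ℤ) → FreePart d}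
    (hf : Good hd e R f) (hψ : Chart e F w f ψ) {a : Dir d → Dir d} (ha : Fr e F w a) (p : Dir d) :
    act (uv (a p)) w = ψ (uv p) :=
  (hψ.st_iff hf p _).1 (ha.st p)

theorem Fr.inj {w : FreePart d} (hw : (enc hd e R).At (shiftGraph d) F w) {a : Dir d → Dir d}
    (ha : Fr e F w a) : Function.Injective a := by
  obtain ⟨f, ψ, hf, hψ⟩ := exists_chart hw
  intro p q hpq
  have h1 := ha.eq_chart hf hψ p
  have h2 := ha.eq_chart hf hψ q
  rw [hpq] at h1
  have h3 : ψ (uv p) = ψ (uv q) := h1.symm.trans h2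
  refine hf.col 0 p q ?_
  rw [add_zero, add_zero, ← hψ.lab _ (uv_mem 4 (by norm_num) p),
    ← hψ.lab _ (uv_mem 4 (by norm_num) q), h3]

theorem Fr.unique {w : FreePart d} (hw : (enc hd e R).At (shiftGraph d) F w) {a b : Dir d → Dir d}
    (ha : Fr e F w a) (hb : Fr e F w b) : a = b := by
  funext p
  exact uv_inj (act_inj (st_unique hw (ha.st p) (hb.st p)))

theorem Fr.back {w : FreePart d} (hw : (enc hd e R).At (shiftGraph d) F w) {a : Dir d → Dir d}
    (ha : Fr e F w a) (p : Dir d)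
    (hz : (enc hd e R).At (shiftGraph d) F (act (uv (a p)) w)) {b : Dir d → Dir d}
    (hb : Fr e F (act (uv (a p)) w) b) : b (op p) = op (a p) := by
  obtain ⟨f, ψ, hf, hψ⟩ := exists_chart hw
  have h1 := hψ.st hf (op p) (uv_mem 3 (by norm_num) p)
  rw [uv_op, neg_add_cancel, hψ.zero, ← ha.eq_chart hf hψ p] at h1
  have h2 := st_unique hz (hb.st (op p)) h1
  rw [← act_add] at h2
  have h3 : act (uv (b (op p)) + uv (a p)) w = act 0 w := by rw [h2, act_zero]
  have h4 := act_inj h3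
  apply uv_inj
  rw [uv_op]
  exact eq_neg_of_add_eq_zero_left h4

theorem Fr.comm {w : FreePart d} (hw : (enc hd e R).At (shiftGraph d) F w) {a : Dir d → Dir d}
    (ha : Fr e F w a) (p q : Dir d)
    (hp : (enc hd e R).At (shiftGraph d) F (act (uv (a p)) w))
    (hq : (enc hd e R).At (shiftGraph d) F (act (uv (a q)) w)) {b b' : Dir d → Dir d}
    (hb : Fr e F (act (uv (a p)) w) b) (hb' : Fr e F (act (uv (a q)) w) b') :
    uv (b q) + uv (a p) = uv (b' p) + uv (a q) := by
  obtain ⟨f, ψ, hf, hψ⟩ := exists_chart hw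
  have h1 := hψ.st hf q (uv_mem 3 (by norm_num) p)
  have h2 := hψ.st hf p (uv_mem 3 (by norm_num) q)
  rw [← ha.eq_chart hf hψ p] at h1
  rw [← ha.eq_chart hf hψ q] at h2
  have h3 := st_unique hp (hb.st q) h1
  have h4 := st_unique hq (hb'.st p) h2
  rw [add_comm (uv p)] at h4
  have h5 := h3.trans h4.symm
  rw [← act_add, ← act_add] at h5
  exact act_inj h5

section Y

variable {Y : Set (FreePart d)} (hYi : Inv Y)
  (hY : ∀ w ∈ Y, (enc hd e R).At (shiftGraph d) F w)

include hYi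

theorem mem_act_uv {w : FreePart d} (hw : w ∈ Y) (p : Dir d) : act (uv p) w ∈ Y :=
  hYi w _ (shift_adj.2 ⟨p, rfl⟩) hw

include hY

theorem Fr.op {w : FreePart d} (hw : w ∈ Y) {a : Dir d → Dir d} (ha : Fr e F w a) (p : Dir d) :
    a (op p) = GL.op (a p) := by
  have hinj := ha.inj (hY w hw)
  obtain ⟨q, hq⟩ := (Finite.injective_iff_surjective.1 hinj) (GL.op (a p))
  by_cases hqp : q = GL.op p
  · rw [← hqp, hq]
  exfalso
  obtain ⟨b, hb⟩ := exists_frame (hY _ (mem_act_uv hYi hw (a p)))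
  obtain ⟨b', hb'⟩ := exists_frame (hY _ (mem_act_uv hYi hw (a q)))
  have h1 := ha.comm (hY w hw) p q (hY _ (mem_act_uv hYi hw _)) (hY _ (mem_act_uv hYi hw _)) hb hb'
  have h2 := ha.back (hY w hw) p (hY _ (mem_act_uv hYi hw _)) hb
  have hbinj := hb.inj (hY _ (mem_act_uv hYi hw _))
  have h3 : b q ≠ GL.op (a p) := by
    intro h
    rw [← h2] at h
    exact hqp (hbinj h)
  -- evaluate at the coordinate of `a p`
  rw [hq, uv_op] at h1
  have h4 := congrFun h1 (a p).1
  simp only [Pi.add_apply, Pi.neg_apply, uv_self] at h4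
  have h5 : ∀ r : Dir d, |uv r (a p).1| ≤ 1 := by
    intro r
    by_cases hi : (a p).1 = r.1
    · rw [hi, uv_self]; split_ifs <;> simp
    · rw [uv_ne r hi]; simp
  have h6 := abs_le.1 (h5 (b q))
  have h7 := abs_le.1 (h5 (b' p))
  apply h3
  by_cases hi : (a p).1 = (b q).1
  · refine Prod.ext hi.symm ?_
    rw [hi, uv_self] at h4 h6
    rw [hi] at h7
    simp only [GL.op]
    cases hb1 : (a p).2 <;> cases hb2 : (b q).2 <;> simp [hb1, hb2] at h4 ⊢ <;> omega
  · exfalso
    rw [uv_ne (b q) hi] at h4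
    cases hb1 : (a p).2 <;> simp [hb1] at h4 <;> omega

/-- The frame of a neighbour is the same. -/
theorem Fr.step {w : FreePart d} (hw : w ∈ Y) {a : Dir d → Dir d} (ha : Fr e F w a) (r : Dir d) :
    Fr e F (act (uv r) w) a := by
  have hinj := ha.inj (hY w hw)
  obtain ⟨p, rfl⟩ := (Finite.injective_iff_surjective.1 hinj) r
  obtain ⟨b, hb⟩ := exists_frame (hY _ (mem_act_uv hYi hw (a p)))
  suffices h : b = a by rw [h] at hb; exact hb
  have hback := ha.back (hY w hw) p (hY _ (mem_act_uv hYi hw _)) hb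
  have hbinj := hb.inj (hY _ (mem_act_uv hYi hw _))
  have hop : b (GL.op p) = a (GL.op p) := by rw [hback, ha.op hYi hY hw]
  have hrest : ∀ q, q ≠ p → q ≠ GL.op p → b q = a q := by
    intro q hqp hqo
    obtain ⟨b', hb'⟩ := exists_frame (hY _ (mem_act_uv hYi hw (a q)))
    have h1 := ha.comm (hY w hw) p q (hY _ (mem_act_uv hYi hw _)) (hY _ (mem_act_uv hYi hw _))
      hb hb'
    have h0 : a p ≠ GL.op (b q) := by
      intro h
      have : b q = GL.op (a p) := by rw [h, op_op]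
      rw [← hback] at this
      exact hqo (hbinj this)
    rcases uv_add h1 h0 with ⟨h2, h3⟩ | ⟨h2, h3⟩
    · exact absurd (hinj h3) (Ne.symm hqp)
    · exact h2
  funext q
  by_cases hqo : q = GL.op p
  · rw [hqo, hop]
  by_cases hqp : q = p
  · subst hqp
    have h1 := hb.op hYi hY (mem_act_uv hYi hw _) (GL.op q)
    rw [op_op, hop, ha.op hYi hY hw, op_op] at h1
    exact h1
  · exact hrest q hqp hqo

end Y

end neg

end Pool.Agent.TH320.GL

end
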