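import Pool.Agent.TH320.GDefs

set_option autoImplicit false

/-! # The grid graph, orbit maps and balls -/

noncomputable section

namespace Pool.Agent.TH320.GL

open MeasureTheory Topology
open Pool.Agent.W927 (Conf shift FreePart)
open Pool.Agent.TH320.LC (act act_val act_zero act_add)

/-! ## balls under embeddings -/

section emb

variable {V W : Type} {G : SimpleGraph V} {H : SimpleGraph W}

theorem ball_mono (G : SimpleGraph V) {r s : ℕ} (h : r ≤ s) (v : V) : ball G r v ⊆ ball G s v := by
  rintro u ⟨p, hp⟩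
  exact ⟨p, hp.trans h⟩

theorem ball_step {r : ℕ} {v u w : V} (h : u ∈ ball G r v) (h2 : G.Adj u w) :
    w ∈ ball G (r + 1) v := by
  obtain ⟨p, hp⟩ := h
  exact ⟨p.concat h2, by rw [SimpleGraph.Walk.length_concat]; omega⟩

theorem map_mem_ball (φ : G ↪g H) {r : ℕ} {v u : V} (h : u ∈ ball G r v) :
    φ u ∈ ball H r (φ v) := by
  obtain ⟨p, hp⟩ := h
  exact ⟨p.map φ.toHom, by rw [SimpleGraph.Walk.length_map]; exact hp⟩

theorem exists_of_walk (φ : G ↪g H) (hφ : ∀ v w, H.Adj (φ v) w → ∃ u, φ u = w)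
    {a b : W} (p : H.Walk a b) : ∀ v : V, φ v = a →
      ∃ u, φ u = b ∧ ∃ q : G.Walk v u, q.length = p.length := by
  induction p with
  | nil => intro v h; exact ⟨v, h, .nil, rfl⟩
  | cons hadj p ih =>
    intro v h
    subst h
    obtain ⟨u, rfl⟩ := hφ _ _ hadj
    obtain ⟨z, hz, q, hq⟩ := ih u rfl
    exact ⟨z, hz, .cons (φ.map_adj_iff.1 hadj) q, by
      rw [SimpleGraph.Walk.length_cons, SimpleGraph.Walk.length_cons, hq]⟩

theorem exists_of_mem_ball (φ : G ↪g H) (hφ : ∀ v w, H.Adj (φ v) w → ∃ u, φ u = w) {r : ℕ}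
    {v : V} {w : W} (h : w ∈ ball H r (φ v)) : ∃ u ∈ ball G r v, φ u = w := by
  obtain ⟨p, hp⟩ := h
  obtain ⟨u, hu, q, hq⟩ := exists_of_walk φ hφ p v rfl
  exact ⟨u, ⟨q, by rw [hq]; exact hp⟩, hu⟩

/-- The balls around `v` and around `φ v` are isomorphic. -/
theorem ball_type (φ : G ↪g H) (hφ : ∀ v w, H.Adj (φ v) w → ∃ u, φ u = w) (r : ℕ) {k : ℕ}
    (f : W → Fin k) (v : V) :
    (ballRG G r (fun u => f (φ u)) v).type = (ballRG H r f (φ v)).type := by
  refine Quotient.sound ?_
  let e0 : ball G r v → ball H r (φ v) := fun u => ⟨φ u.1, map_mem_ball φ u.2⟩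
  have hb : Function.Bijective e0 := by
    constructor
    · intro a b h
      exact Subtype.ext (φ.injective (congrArg Subtype.val h))
    · rintro ⟨w, hw⟩
      obtain ⟨u, hu, rfl⟩ := exists_of_mem_ball φ hφ hw
      exact ⟨⟨u, hu⟩, rfl⟩
  refine ⟨⟨Equiv.ofBijective e0 hb, ?_⟩, ?_, ?_⟩
  · intro a b
    exact φ.map_adj_iff
  · rfl
  · intro w
    rfl

/-- points of a ball are within the radius inside of the ball -/
theorem mem_ball_induce {r : ℕ} {v : V} (w : ball G r v) :
    w ∈ ball (G.induce (ball G r v)) r ⟨v, mem_ball_self G r v⟩ := by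
  have key : ∀ {a b : V} (p : G.Walk a b) (i : ℕ) (ha : a ∈ ball G i v) (hi : i + p.length ≤ r)
      (ha' : a ∈ ball G r v) (hb' : b ∈ ball G r v),
      ∃ q : (G.induce (ball G r v)).Walk ⟨a, ha'⟩ ⟨b, hb'⟩, q.length = p.length := by
    intro a b p
    induction p with
    | nil => intro i ha hi ha' hb'; exact ⟨.nil, rfl⟩
    | cons hadj p ih =>
      intro i ha hi ha' hb'
      rw [SimpleGraph.Walk.length_cons] at hi
      have h1 := ball_step ha hadj
      obtain ⟨q, hq⟩ := ih (i + 1) h1 (by omega) (ball_mono G (by omega) v h1) hb'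
      have hadj' : (G.induce (ball G r v)).Adj ⟨_, ha'⟩ ⟨_, ball_mono G (by omega) v h1⟩ := hadj
      refine ⟨.cons hadj' q, ?_⟩
      rw [SimpleGraph.Walk.length_cons, SimpleGraph.Walk.length_cons, hq]
  obtain ⟨w, p, hp⟩ := w
  obtain ⟨q, hq⟩ := key p 0 ⟨.nil, le_rfl⟩ (by omega) (mem_ball_self G r v) ⟨p, hp⟩
  exact ⟨q, by omega⟩

end emb

/-! ## directions -/

/-- directions: a coordinate and a sign -/
abbrev Dir (d : ℕ) := Fin d × Bool

variable {d : ℕ}

/-- unit vectors -/
def uv (p : Dir d) : Fin d → ℤ := if p.2 then Pi.single p.1 1 else -Pi.single p.1 1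

/-- opposite direction -/
def op (p : Dir d) : Dir d := (p.1, !p.2)

theorem op_op (p : Dir d) : op (op p) = p := by
  simp [op]

theorem uv_op (p : Dir d) : uv (op p) = -uv p := by
  rcases p with ⟨i, b⟩
  cases b <;> simp [uv, op]

theorem uv_self (p : Dir d) : uv p p.1 = if p.2 then 1 else -1 := by
  rcases p with ⟨i, b⟩
  cases b <;> simp [uv]

theorem uv_ne (p : Dir d) {i : Fin d} (h : i ≠ p.1) : uv p i = 0 := by
  rcases p with ⟨j, b⟩
  cases b <;> simp [uv, Pi.single_eq_of_ne h]

theorem uv_ne_zero (p : Dir d) : uv p ≠ 0 := by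
  intro h
  have := congrFun h p.1
  rw [uv_self] at this
  cases hb : p.2 <;> simp [hb] at this

theorem op_ne (p : Dir d) : op p ≠ p := by
  rcases p with ⟨i, b⟩
  cases b <;> simp [op]

theorem uv_inj {p q : Dir d} (h : uv p = uv q) : p = q := by
  have h1 : p.1 = q.1 := by
    by_contra hne
    have := congrFun h p.1
    rw [uv_self, uv_ne q hne] at this
    cases hb : p.2 <;> simp [hb] at this
  have h2 := congrFun h p.1
  rw [uv_self, h1, uv_self] at h2
  refine Prod.ext h1 ?_
  cases hb : p.2 <;> cases hc : q.2 <;> simp [hb, hc] at h2 ⊢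

/-- The sum of two unit vectors determines them unless it vanishes. -/
theorem uv_add {p q r s : Dir d} (h : uv p + uv q = uv r + uv s) (h0 : q ≠ op p) :
    (p = r ∧ q = s) ∨ (p = s ∧ q = r) := by
  by_cases hpq : p.1 = q.1
  · -- then `p = q`
    have hpq' : p = q := by
      refine Prod.ext hpq ?_
      by_contra hne
      apply h0
      refine Prod.ext hpq.symm ?_
      simp only [op]
      cases hb : p.2 <;> cases hc : q.2 <;> simp [hb, hc] at hne ⊢
    subst hpq'
    have h1 := congrFun h p.1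
    simp only [Pi.add_apply, uv_self] at h1
    have hr : r.1 = p.1 := by
      by_contra hne
      rw [uv_ne r (Ne.symm hne)] at h1
      by_cases hs : s.1 = p.1
      · rw [← hs, uv_self] at h1
        cases hb : p.2 <;> cases hc : s.2 <;> simp [hb, hc] at h1
      · rw [uv_ne s (Ne.symm hs)] at h1
        cases hb : p.2 <;> simp [hb] at h1
    have hs : s.1 = p.1 := by
      by_contra hne
      rw [uv_ne s (Ne.symm hne), ← hr, uv_self] at h1
      cases hb : p.2 <;> cases hc : r.2 <;> simp [hb, hc] at h1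
    left
    have h2 : uv r p.1 = if r.2 then 1 else -1 := by rw [← hr, uv_self]
    have h3 : uv s p.1 = if s.2 then 1 else -1 := by rw [← hs, uv_self]
    rw [h2, h3] at h1
    constructor
    · refine Prod.ext hr.symm ?_
      cases hb : p.2 <;> cases hc : r.2 <;> cases he : s.2 <;> simp [hb, hc, he] at h1 ⊢
    · refine Prod.ext hs.symm ?_
      cases hb : p.2 <;> cases hc : r.2 <;> cases he : s.2 <;> simp [hb, hc, he] at h1 ⊢
  · have h1 := congrFun h p.1
    have h2 := congrFun h q.1
    simp only [Pi.add_apply] at h1 h2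
    rw [uv_self, uv_ne q hpq, add_zero] at h1
    rw [uv_ne p (Ne.symm hpq), uv_self, zero_add] at h2
    by_cases hr : r.1 = p.1
    · left
      have hs : s.1 = q.1 := by
        by_contra hne
        rw [uv_ne s (Ne.symm hne), uv_ne r (by rw [hr]; exact Ne.symm hpq)] at h2
        cases hb : q.2 <;> simp [hb] at h2
      have e1 : uv r p.1 = if r.2 then 1 else -1 := by rw [← hr, uv_self]
      have e2 : uv s q.1 = if s.2 then 1 else -1 := by rw [← hs, uv_self]
      rw [e1, uv_ne s (by rw [hs]; exact hpq)] at h1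
      rw [e2, uv_ne r (by rw [hr]; exact Ne.symm hpq)] at h2
      constructor
      · refine Prod.ext hr.symm ?_
        cases hb : p.2 <;> cases hc : r.2 <;> simp [hb, hc] at h1 ⊢
      · refine Prod.ext hs.symm ?_
        cases hb : q.2 <;> cases hc : s.2 <;> simp [hb, hc] at h2 ⊢
    · right
      have hs : s.1 = p.1 := by
        by_contra hne
        rw [uv_ne s (Ne.symm hne), uv_ne r (Ne.symm hr)] at h1
        cases hb : p.2 <;> simp [hb] at h1
      have hr' : r.1 = q.1 := by
        by_contra hne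
        rw [uv_ne r (Ne.symm hne), uv_ne s (by rw [hs]; exact Ne.symm hpq)] at h2
        cases hb : q.2 <;> simp [hb] at h2
      have e1 : uv s p.1 = if s.2 then 1 else -1 := by rw [← hs, uv_self]
      have e2 : uv r q.1 = if r.2 then 1 else -1 := by rw [← hr', uv_self]
      rw [e1, uv_ne r (Ne.symm hr)] at h1
      rw [e2, uv_ne s (by rw [hs]; exact Ne.symm hpq)] at h2
      constructor
      · refine Prod.ext hs.symm ?_
        cases hb : p.2 <;> cases hc : s.2 <;> simp [hb, hc] at h1 ⊢
      · refine Prod.ext hr'.symm ?_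
        cases hb : q.2 <;> cases hc : r.2 <;> simp [hb, hc] at h2 ⊢

/-! ## the grid -/

/-- the grid graph of `ℤ^d` -/
def grid (d : ℕ) : SimpleGraph (Fin d → ℤ) where
  Adj g h := ∃ p : Dir d, h = uv p + g
  symm := ⟨by
    rintro g h ⟨p, rfl⟩
    exact ⟨op p, by rw [uv_op]; abel⟩⟩
  loopless := ⟨by
    rintro g ⟨p, h⟩
    exact uv_ne_zero p (by simpa using h)⟩

theorem grid_adj {g h : Fin d → ℤ} : (grid d).Adj g h ↔ ∃ p : Dir d, h = uv p + g := Iff.rfl

theorem shift_adj {x y : FreePart d} : (shiftGraph d).Adj x y ↔ ∃ p : Dir d, y = act (uv p) x := by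
  constructor
  · rintro ⟨i, h | h⟩
    · exact ⟨(i, true), Subtype.ext (by rw [act_val, h]; simp [uv])⟩
    · exact ⟨(i, false), Subtype.ext (by rw [act_val, h]; simp [uv])⟩
  · rintro ⟨⟨i, b⟩, rfl⟩
    refine ⟨i, ?_⟩
    cases b
    · right; rw [act_val]; simp [uv]
    · left; rw [act_val]; simp [uv]

theorem act_inj {g h : Fin d → ℤ} {x : FreePart d} (e : act g x = act h x) : g = h := by
  have h1 : act (-h + g) x = x := by rw [act_add, e, ← act_add, neg_add_cancel, act_zero]
  have h2 := (Pool.Agent.TH320.LC.freeBorel_act d).free _ _ h1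
  have : g = h + (-h + g) := by abel
  rw [this, h2, add_zero]

/-- the orbit map -/
def orb (x : FreePart d) : grid d ↪g shiftGraph d where
  toFun g := act g x
  inj' _ _ h := act_inj h
  map_rel_iff' := by
    intro g h
    change (shiftGraph d).Adj (act g x) (act h x) ↔ (grid d).Adj g h
    rw [shift_adj, grid_adj]
    constructor
    · rintro ⟨p, hp⟩
      rw [← act_add] at hp
      exact ⟨p, act_inj hp⟩
    · rintro ⟨p, rfl⟩
      exact ⟨p, act_add _ _ _⟩

theorem orb_apply (x : FreePart d) (g : Fin d → ℤ) : orb x g = act g x := rfl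

theorem orb_surj (x : FreePart d) (g : Fin d → ℤ) (w : FreePart d)
    (h : (shiftGraph d).Adj (orb x g) w) : ∃ u, orb x u = w := by
  rw [shift_adj] at h
  obtain ⟨p, rfl⟩ := h
  exact ⟨uv p + g, by rw [orb_apply, orb_apply, act_add]⟩

/-- balls of the shift graph are balls of the grid -/
theorem shift_ball_type (r : ℕ) {k : ℕ} (f : FreePart d → Fin k) (x : FreePart d) :
    (ballRG (shiftGraph d) r f x).type = (ballRG (grid d) r (fun g => f (act g x)) 0).type := by
  have := ball_type (orb x) (orb_surj x) r f 0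
  have e : orb x 0 = x := act_zero x
  rw [e] at this
  exact this.symm

theorem ball_finite (r : ℕ) (g : Fin d → ℤ) : (ball (grid d) r g).Finite := by
  have key : ∀ {a b : Fin d → ℤ} (p : (grid d).Walk a b), ∀ i, |b i - a i| ≤ p.length := by
    intro a b p
    induction p with
    | nil => intro i; simp
    | cons h p ih =>
      intro i
      rw [SimpleGraph.Walk.length_cons]
      obtain ⟨q, hq⟩ := grid_adj.1 h
      have h1 := ih i
      have h2 : |uv q i| ≤ 1 := by
        by_cases hi : i = q.1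
        · subst hi; rw [uv_self]; split_ifs <;> simp
        · rw [uv_ne q hi]; simp
      push_cast
      have h3 := congrFun hq i
      rw [Pi.add_apply] at h3
      rw [abs_le] at h1 h2 ⊢
      omega
  refine (Set.finite_Icc (g - fun _ => (r : ℤ)) (g + fun _ => (r : ℤ))).subset ?_
  rintro u ⟨p, hp⟩
  constructor
  · intro i
    have := abs_le.1 (key p i)
    simp only [Pi.sub_apply]
    omega
  · intro i
    have := abs_le.1 (key p i)
    simp only [Pi.add_apply]
    omega

theorem mem_ball_uv (p : Dir d) : uv p ∈ ball (grid d) 1 0 := by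
  have h : (grid d).Adj 0 (uv p) := ⟨p, (add_zero _).symm⟩
  exact ⟨.cons h .nil, by rw [SimpleGraph.Walk.length_cons, SimpleGraph.Walk.length_nil]⟩

theorem ball_add {m n : ℕ} {g h : Fin d → ℤ} (hg : g ∈ ball (grid d) m 0)
    (hh : h ∈ ball (grid d) n 0) : g + h ∈ ball (grid d) (m + n) 0 := by
  let φ : grid d ↪g grid d :=
    { toFun := fun x => x + g
      inj' := fun _ _ h => add_right_cancel h
      map_rel_iff' := by
        intro a b
        change (∃ p, b + g = uv p + (a + g)) ↔ ∃ p, b = uv p + a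
        constructor
        · rintro ⟨p, hp⟩
          exact ⟨p, by rw [← add_assoc] at hp; exact add_right_cancel hp⟩
        · rintro ⟨p, rfl⟩
          exact ⟨p, by rw [add_assoc]⟩ }
  have h1 := map_mem_ball φ hh
  have e1 : φ 0 = g := zero_add g
  have e2 : φ h = g + h := add_comm h g
  rw [e1, e2] at h1
  obtain ⟨p, hp⟩ := hg
  obtain ⟨q, hq⟩ := h1
  exact ⟨p.append q, by rw [SimpleGraph.Walk.length_append]; omega⟩

end Pool.Agent.TH320.GL

end
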