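import Pool.Agent.TH320.GEnc

set_option autoImplicit false

/-! # Frames are constant on orbits: solutions are solutions for a signed permutation -/

noncomputable section

namespace Pool.Agent.TH320.GL

open MeasureTheory Topology
open Pool.Agent.W927 (Conf shift FreePart)
open Pool.Agent.W927.BM (FreeBorel emb emb_add emb_zero emb_eq_zero emb_fst emb_snd)
open Pool.Agent.TH320.LC (act act_val act_zero act_add)

variable {d : ℕ}

/-- The unit vectors generate. -/
theorem dir_induction (S : Set (Fin d → ℤ)) (h0 : (0 : Fin d → ℤ) ∈ S)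
    (hS : ∀ g ∈ S, ∀ p : Dir d, uv p + g ∈ S) (g : Fin d → ℤ) : g ∈ S := by
  have h1 : ∀ (i : Fin d) (n : ℤ), ∀ g ∈ S, Pi.single i n + g ∈ S := by
    intro i n
    induction n using Int.induction_on with
    | zero => intro g hg; rwa [Pi.single_zero, zero_add]
    | succ n ih =>
      intro g hg
      have := hS _ (ih g hg) (i, true)
      have e : uv (i, true) + (Pi.single i (n : ℤ) + g) = Pi.single i ((n : ℤ) + 1) + g := by
        rw [Pi.single_add]
        simp only [uv, if_true]
        abel
      rwa [e] at this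
    | pred n ih =>
      intro g hg
      have := hS _ (ih g hg) (i, false)
      have e : uv (i, false) + (Pi.single i (-(n : ℤ)) + g) = Pi.single i (-(n : ℤ) - 1) + g := by
        rw [Pi.single_sub]
        simp only [uv]
        rw [if_neg (by simp)]
        abel
      rwa [e] at this
  have h2 : ∀ s : Finset (Fin d), ∑ i ∈ s, Pi.single i (g i) ∈ S := by
    classical
    intro s
    induction s using Finset.induction_on with
    | empty => rwa [Finset.sum_empty]
    | insert i s hi ih =>
      rw [Finset.sum_insert hi]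
      exact h1 i _ _ ih
  have h3 := h2 Finset.univ
  rwa [Finset.univ_sum_single] at h3

/-- The linear map of a frame. -/
def Lin (a : Dir d → Dir d) : (Fin d → ℤ) →+ (Fin d → ℤ) where
  toFun g := ∑ i, g i • uv (a (i, true))
  map_zero' := by simp
  map_add' g h := by simp [add_smul, Finset.sum_add_distrib]

theorem Lin_apply (a : Dir d → Dir d) (g : Fin d → ℤ) : Lin a g = ∑ i, g i • uv (a (i, true)) := rfl

theorem Lin_uv {a : Dir d → Dir d} (ha : ∀ p, a (op p) = op (a p)) (p : Dir d) :
    Lin a (uv p) = uv (a p) := by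
  classical
  have h1 : ∀ i : Fin d, Lin a (Pi.single i 1) = uv (a (i, true)) := by
    intro i
    rw [Lin_apply, Finset.sum_eq_single i]
    · rw [Pi.single_eq_same, one_smul]
    · intro j _ hj
      rw [Pi.single_eq_of_ne hj, zero_smul]
    · simp
  rcases p with ⟨i, b⟩
  cases b
  · have e : uv (i, false) = -Pi.single i 1 := by simp [uv]
    have e2 : ((i, false) : Dir d) = op (i, true) := rfl
    rw [e, map_neg, h1, e2, ha, uv_op]
  · have e : uv (i, true) = Pi.single i 1 := by simp [uv]
    rw [e, h1]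

theorem Lin_ne_zero {a : Dir d → Dir d} (ha : ∀ p, a (op p) = op (a p))
    (hinj : Function.Injective a) {g : Fin d → ℤ} (hg : g ≠ 0) : Lin a g ≠ 0 := by
  intro h
  apply hg
  funext i
  have h1 := congrFun h (a (i, true)).1
  rw [Lin_apply, Finset.sum_apply, Finset.sum_eq_single i] at h1
  · rw [Pi.smul_apply, uv_self] at h1
    rw [Pi.zero_apply, smul_eq_mul] at h1
    rw [Pi.zero_apply]
    split_ifs at h1 <;> omega
  · intro j _ hj
    rw [Pi.smul_apply, uv_ne, smul_zero]
    intro he
    -- the directions agree up to sign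
    by_cases hs : (a (i, true)).2 = (a (j, true)).2
    · have := hinj (Prod.ext he hs)
      exact hj (congrArg Prod.fst this).symm
    · have h2 : a (i, true) = op (a (j, true)) := by
        refine Prod.ext he ?_
        simp only [op]
        cases hb : (a (i, true)).2 <;> cases hc : (a (j, true)).2 <;> simp [hb, hc] at hs ⊢
      rw [← ha] at h2
      exact hj (congrArg Prod.fst (hinj h2)).symm
  · simp

theorem ball_succ {n : ℕ} {g : Fin d → ℤ} (h : g ∈ ball (grid d) (n + 1) 0) :
    g ∈ ball (grid d) n 0 ∨ ∃ h ∈ ball (grid d) n 0, ∃ p, g = uv p + h := by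
  obtain ⟨w, hw⟩ := h
  rcases hr : w.reverse with _ | ⟨hadj, q⟩
  · left; exact mem_ball_self _ _ _
  · right
    have hl : w.reverse.length = w.length := w.length_reverse
    rw [hr, SimpleGraph.Walk.length_cons] at hl
    refine ⟨_, ⟨q.reverse, by rw [SimpleGraph.Walk.length_reverse]; omega⟩, ?_⟩
    exact hadj.symm

theorem single_mem_ball (i : Fin d) (n : ℕ) : (Pi.single i (n : ℤ) : Fin d → ℤ) ∈ ball (grid d) n 0 ∧
    (Pi.single i (-(n : ℤ)) : Fin d → ℤ) ∈ ball (grid d) n 0 := by
  induction n with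
  | zero => simp [mem_ball_self]
  | succ n ih =>
    refine ⟨ball_step ih.1 ⟨(i, true), ?_⟩, ball_step ih.2 ⟨(i, false), ?_⟩⟩
    · push_cast
      rw [Pi.single_add]
      simp only [uv, if_true]
      abel
    · have e : (-((n + 1 : ℕ) : ℤ)) = -1 + -(n : ℤ) := by push_cast; ring
      rw [e, Pi.single_add, Pi.single_neg]
      simp [uv]

theorem single_mem_ball2 (i : Fin d) {t : ℤ} (ht : |t| ≤ 2) :
    (Pi.single i t : Fin d → ℤ) ∈ ball (grid d) 2 0 := by
  rcases le_total 0 t with h | h
  · have h1 := (single_mem_ball i t.toNat).1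
    rw [Int.toNat_of_nonneg h] at h1
    refine ball_mono _ ?_ _ h1
    rw [abs_le] at ht
    omega
  · have h1 := (single_mem_ball i (-t).toNat).2
    rw [Int.toNat_of_nonneg (by omega), neg_neg] at h1
    refine ball_mono _ ?_ _ h1
    rw [abs_le] at ht
    omega

theorem emb_mem_ball (hd : 2 ≤ d) {t x : ℤ} (ht : |t| ≤ 2) (hx : |x| ≤ 2) :
    emb hd t x ∈ ball (grid d) 4 0 :=
  ball_add (single_mem_ball2 _ ht) (single_mem_ball2 _ hx)

section neg

variable {hd : 2 ≤ d} {m K : ℕ} {L : Type} {e : Fin K ≃ Lam d m L}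
  {R : (ℤ → ℤ → L) → Prop} {F : FreePart d → Fin K} {Y : Set (FreePart d)} (hYi : Inv Y)
  (hY : ∀ w ∈ Y, (enc hd e R).At (shiftGraph d) F w)

include hYi in
theorem inv_act {w : FreePart d} (hw : w ∈ Y) (g : Fin d → ℤ) : act g w ∈ Y := by
  refine dir_induction {g | act g w ∈ Y} ?_ ?_ g
  · rw [Set.mem_ofPred_eq, act_zero]; exact hw
  · intro g hg p
    rw [Set.mem_ofPred_eq, act_add]
    exact mem_act_uv hYi hg p

include hYi hY

/-- The frame is constant on the orbit. -/
theorem Fr.orbit {w : FreePart d} (hw : w ∈ Y) {a : Dir d → Dir d} (ha : Fr e F w a)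
    (g : Fin d → ℤ) : Fr e F (act g w) a := by
  refine dir_induction {g | Fr e F (act g w) a} ?_ ?_ g
  · rw [Set.mem_ofPred_eq, act_zero]; exact ha
  · intro g hg p
    rw [Set.mem_ofPred_eq, act_add]
    exact Fr.step hYi hY (inv_act hYi hw g) hg p

/-- Charts are linear. -/
theorem Chart.eq {w : FreePart d} (hw : w ∈ Y) {a : Dir d → Dir d} (ha : Fr e F w a)
    {f : (Fin d → ℤ) → Fin K} {ψ : (Fin d → ℤ) → FreePart d} (hf : Good hd e R f)
    (h : Chart e F w f ψ) : ∀ n ≤ 4, ∀ g ∈ ball (grid d) n 0, ψ g = act (Lin a g) w := by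
  intro n
  induction n with
  | zero =>
    rintro - g ⟨q, hq⟩
    have hg : g = 0 := by
      cases q with
      | nil => rfl
      | cons h q => rw [SimpleGraph.Walk.length_cons] at hq; omega
    subst hg
    rw [h.zero, map_zero, act_zero]
  | succ n ih =>
    intro hn g hg'
    rcases ball_succ hg' with hg | ⟨g, hg, p, rfl⟩
    · exact ih (by omega) g hg
    have h1 := ih (by omega) g hg
    have h2 := h.st hf p (ball_mono _ (by omega) _ hg)
    rw [h1] at h2
    have h3 := (ha.orbit hYi hY hw (Lin a g)).st p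
    have h4 := st_unique (hY _ (inv_act hYi hw (Lin a g))) h2 h3
    rw [h4, ← act_add, map_add, Lin_uv (fun p => ha.op hYi hY hw p)]

/-- Solutions satisfy the rule along the linear map of the frame. -/
theorem Fr.rule (hR : ∀ σ σ' : ℤ → ℤ → L, (∀ t x, |t| ≤ 2 → |x| ≤ 2 → σ t x = σ' t x) → R σ → R σ')
    {w : FreePart d} (hw : w ∈ Y) {a : Dir d → Dir d} (ha : Fr e F w a) :
    R fun t x => (e (F (act (Lin a (emb hd t x)) w))).2.2 := by
  obtain ⟨f, ψ, hf, hψ⟩ := exists_chart (hY w hw)
  refine hR _ _ ?_ hf.rule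
  intro t x ht hx
  have h1 := emb_mem_ball hd ht hx
  rw [← hψ.lab _ h1, hψ.eq hYi hY hw ha hf 4 le_rfl _ h1]

end neg

end Pool.Agent.TH320.GL

end
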