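import Pool.Agent.TH320.GPos

set_option autoImplicit false

/-! # Solutions of the encoded problem on rotations of the circle -/

noncomputable section

namespace Pool.Agent.TH320.GL

open MeasureTheory Topology
open Pool.Agent.W927 (Conf shift FreePart lin TT codeF measurable_codeF code_shift exists_alpha)
open Pool.Agent.W927.BM (FreeBorel emb emb_add emb_zero emb_eq_zero emb_fst emb_snd Rule)
open Pool.Agent.TH320.LC (act act_val act_zero act_add freeBorel_act actHomeo exists_fin_col)

variable {d : ℕ}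

theorem codeF_act {α : Fin d → TT} (hα : ∀ g : Fin d → ℤ, g ≠ 0 → addOrderOf (lin α g) = 0)
    (θ : TT) (g : Fin d → ℤ) : codeF hα (lin α g + θ) = act g (codeF hα θ) := by
  apply Subtype.ext
  rw [act_val, add_comm]
  exact code_shift α θ g

theorem lin_Lin (α : Fin d → TT) (a : Dir d → Dir d) (g : Fin d → ℤ) :
    lin (fun i => lin α (uv (a (i, true)))) g = lin α (Lin a g) := by
  rw [Lin_apply, map_sum]
  change ∑ i, g i • lin α (uv (a (i, true))) = _
  refine Finset.sum_congr rfl fun i _ => ?_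
  rw [map_zsmul]

section

variable {hd : 2 ≤ d} {m K : ℕ} {L : Type} {e : Fin K ≃ Lam d m L}
  {R : (ℤ → ℤ → L) → Prop} {F : FreePart d → Fin K} {Y : Set (FreePart d)}

theorem meas_Fr (hF : Measurable F) (a : Dir d → Dir d) : MeasurableSet {w | Fr e F w a} := by
  have h1 : {w | Fr e F w a} = ⋂ p, {w | (e (F (act (uv (a p)) w))).1 = (e (F w)).2.1 p} := by
    ext w
    simp only [Set.mem_ofPred_eq, Set.mem_iInter]
    exact Iff.rfl
  rw [h1]
  refine MeasurableSet.iInter fun p => ?_
  have h2 : Measurable fun w => (F (act (uv (a p)) w), F w) :=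
    (hF.comp ((freeBorel_act d).meas _)).prodMk hF
  exact h2 (MeasurableSet.of_discrete (s := {q : Fin K × Fin K | (e q.1).1 = (e q.2).2.1 p}))

/-- On a circle coded in the free part the frame of a solution is constant almost everywhere. -/
theorem exists_const_frame {α : Fin d → TT}
    (hα : ∀ g : Fin d → ℤ, g ≠ 0 → addOrderOf (lin α g) = 0) (hF : Measurable F)
    (hYm : MeasurableSet Y) (hYi : Inv Y) (hY0 : (volume : Measure TT) (codeF hα ⁻¹' Yᶜ) = 0)
    (hY : ∀ w ∈ Y, (enc hd e R).At (shiftGraph d) F w) :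
    ∃ a : Dir d → Dir d, (∀ p, a (op p) = op (a p)) ∧ Function.Injective a ∧
      ∀ᵐ θ : TT, codeF hα θ ∈ Y ∧ Fr e F (codeF hα θ) a := by
  let Θ : (Dir d → Dir d) → Set TT := fun a => {θ | codeF hα θ ∈ Y ∧ Fr e F (codeF hα θ) a}
  have hΘm : ∀ a, MeasurableSet (Θ a) := fun a =>
    (measurable_codeF hα) (hYm.inter (meas_Fr (e := e) hF a))
  have hcov : codeF hα ⁻¹' Y ⊆ ⋃ a, Θ a := by
    intro θ hθ
    obtain ⟨a, ha⟩ := exists_frame (hY _ hθ)
    exact Set.mem_iUnion.2 ⟨a, hθ, ha⟩
  have hpos : ∃ a, volume (Θ a) ≠ 0 := by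
    by_contra hcon
    push Not at hcon
    have h1 : (volume : Measure TT) (codeF hα ⁻¹' Y) = 0 :=
      measure_mono_null hcov (measure_iUnion_null hcon)
    have h2 : (volume : Measure TT) Set.univ = 0 := by
      have : (Set.univ : Set TT) ⊆ codeF hα ⁻¹' Y ∪ codeF hα ⁻¹' Yᶜ := by
        intro θ _
        by_cases h : codeF hα θ ∈ Y
        · exact Or.inl h
        · exact Or.inr h
      exact measure_mono_null this (measure_union_null h1 hY0)
    simp at h2
  obtain ⟨a, ha⟩ := hpos
  obtain ⟨θ, hθY, hθ⟩ := nonempty_of_measure_ne_zero ha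
  refine ⟨a, fun p => hθ.op hYi hY hθY p, hθ.inj (hY _ hθY), ?_⟩
  -- ergodicity of a rotation
  have hg : uv ((⟨0, by omega⟩, true) : Dir d) ≠ 0 := uv_ne_zero _
  have herg : Ergodic (fun θ : TT => lin α (uv ((⟨0, by omega⟩, true) : Dir d)) + θ) volume :=
    AddCircle.ergodic_add_left.2 (hα _ hg)
  have hinv : (fun θ : TT => lin α (uv ((⟨0, by omega⟩, true) : Dir d)) + θ) ⁻¹' Θ a = Θ a := by
    have key : ∀ (g : Fin d → ℤ) (θ : TT), θ ∈ Θ a → lin α g + θ ∈ Θ a := by
      rintro g θ ⟨h1, h2⟩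
      refine ⟨?_, ?_⟩
      · rw [codeF_act]; exact inv_act hYi h1 g
      · rw [codeF_act]; exact h2.orbit hYi hY h1 g
    ext θ
    constructor
    · intro h
      have := key (-uv ((⟨0, by omega⟩, true) : Dir d)) _ h
      rwa [map_neg, neg_add_cancel_left] at this
    · exact key _ θ
  rcases herg.toPreErgodic.measure_self_or_compl_eq_zero (hΘm a) hinv with h | h
  · exact absurd h ha
  · rw [ae_iff]
    exact h

end

end Pool.Agent.TH320.GL

end
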