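import Pool.Agent.TH320.GLin

set_option autoImplicit false

/-! # Solutions of the encoded problem on comeagre sets -/

noncomputable section

namespace Pool.Agent.TH320.GL

open MeasureTheory Topology
open Pool.Agent.W927 (Conf shift FreePart)
open Pool.Agent.W927.BM (FreeBorel emb emb_add emb_zero emb_eq_zero emb_fst emb_snd Rule)
open Pool.Agent.TH320.LC (act act_val act_zero act_add freeBorel_act actHomeo exists_fin_col)

variable {d : ℕ}

open Classical in
/-- differences of different unit vectors -/
def diffs (d : ℕ) : Finset (Fin d → ℤ) :=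
  ((Finset.univ : Finset (Dir d × Dir d)).filter fun pq => pq.1 ≠ pq.2).image
    fun pq => uv pq.1 - uv pq.2

theorem mem_diffs {g : Fin d → ℤ} : g ∈ diffs d ↔ ∃ p q : Dir d, p ≠ q ∧ uv p - uv q = g := by
  simp [diffs]

/-- A Borel colouring with different colours on all neighbours of each point. -/
theorem exists_col (d : ℕ) : ∃ c : FreePart d → Fin ((diffs d).card + 1), Measurable c ∧
    ∀ p q : Dir d, p ≠ q → ∀ x, c (act (uv p - uv q) x) ≠ c x := by
  obtain ⟨c, hc, h⟩ := exists_fin_col (freeBorel_act d) (diffs d) (by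
    intro g hg h0
    obtain ⟨p, q, hne, rfl⟩ := mem_diffs.1 hg
    exact hne (uv_inj (sub_eq_zero.1 h0))) (by
    intro g hg
    obtain ⟨p, q, hne, rfl⟩ := mem_diffs.1 hg
    exact mem_diffs.2 ⟨q, p, Ne.symm hne, by abel⟩)
  exact ⟨c, hc, fun p q hpq x => h _ (mem_diffs.2 ⟨p, q, hpq, rfl⟩) x⟩

/-- The encoded labelling is Borel. -/
theorem meas_enc {m K : ℕ} {L : Type} (e : Fin K ≃ Lam d m L) {c : FreePart d → Fin m}
    (hc : Measurable c) {g : FreePart d → L} (hg : ∀ l, MeasurableSet (g ⁻¹' {l})) :
    Measurable fun y => e.symm (c y, fun p => c (act (uv p) y), g y) := by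
  refine measurable_to_countable' fun k => ?_
  have h1 : (fun y => e.symm (c y, fun p => c (act (uv p) y), g y)) ⁻¹' {k} =
      (c ⁻¹' {(e k).1}) ∩ ((⋂ p, (fun y => c (act (uv p) y)) ⁻¹' {(e k).2.1 p}) ∩
        g ⁻¹' {(e k).2.2}) := by
    ext y
    simp only [Set.mem_preimage, Set.mem_singleton_iff, Set.mem_inter_iff, Set.mem_iInter]
    rw [Equiv.symm_apply_eq]
    constructor
    · intro h
      rw [← h]
      exact ⟨rfl, fun p => rfl, rfl⟩
    · rintro ⟨h1, h2, h3⟩
      exact Prod.ext h1 (Prod.ext (funext h2) h3)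
  rw [h1]
  refine (hc (measurableSet_singleton _)).inter ((MeasurableSet.iInter fun p => ?_).inter (hg _))
  exact (hc.comp ((freeBorel_act d).meas (uv p))) (measurableSet_singleton _)

/-- A Borel set contains a Borel invariant set: the points with orbit in the set. -/
def core (G : Set (FreePart d)) : Set (FreePart d) := ⋂ g : Fin d → ℤ, act g ⁻¹' G

theorem core_meas {G : Set (FreePart d)} (hG : MeasurableSet G) : MeasurableSet (core G) :=
  MeasurableSet.iInter fun g => (freeBorel_act d).meas g hG

theorem core_inv (G : Set (FreePart d)) : Inv (core G) := by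
  intro x y hxy hx
  obtain ⟨p, rfl⟩ := shift_adj.1 hxy
  simp only [core, Set.mem_iInter, Set.mem_preimage] at hx ⊢
  intro g
  rw [← act_add]
  exact hx _

theorem core_sub (G : Set (FreePart d)) : core G ⊆ G := by
  intro x hx
  simp only [core, Set.mem_iInter, Set.mem_preimage] at hx
  have := hx 0
  rwa [act_zero] at this

theorem core_residual {G : Set (FreePart d)} (hG : G ∈ residual (FreePart d)) :
    core G ∈ residual (FreePart d) := by
  refine countable_iInter_mem.2 fun g => ?_
  exact tendsto_residual_of_isOpenMap (actHomeo g).continuous (actHomeo g).isOpenMap hG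

end Pool.Agent.TH320.GL

end
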