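import Pool.Agent.TH320.GNeg

set_option autoImplicit false

/-! # A local problem on the shift graph with a Baire measurable solution and no measurable one -/

noncomputable section

namespace Pool.Agent.TH320.GL

open MeasureTheory Topology
open Pool.Agent.W927 (Conf shift FreePart lin TT codeF measurable_codeF code_shift exists_alpha)
open Pool.Agent.W927.BM (FreeBorel emb emb_add emb_zero emb_eq_zero emb_fst emb_snd Rule
  Rule_congr circle_neg)
open Pool.Agent.TH320.LC (act act_val act_zero act_add freeBorel_act actHomeo exists_fin_col)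

variable {d : ℕ}

theorem hasMeasurable_of_hasBorel {Q : LCL} (h : Q.HasBorel d) : Q.HasMeasurable d := by
  obtain ⟨f, hf, h⟩ := h
  exact fun μ _ => ⟨Set.univ, f, MeasurableSet.univ, fun _ _ _ _ => Set.mem_univ _, by simp, hf,
    fun v _ => h v⟩

/-- the rule at the origin -/
def R0 (σ : ℤ → ℤ → Pool.Agent.W927.BM.Lab) : Prop := Rule σ 0 0

theorem R0_congr (σ σ' : ℤ → ℤ → Pool.Agent.W927.BM.Lab)
    (h : ∀ t x, |t| ≤ 2 → |x| ≤ 2 → σ t x = σ' t x) (hR : R0 σ) : R0 σ' :=
  Rule_congr (t := 0) (x := 0) (t' := 0) (x' := 0)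
    (fun s y hs hy => by rw [zero_add, zero_add]; exact h s y hs hy) hR

/-- Baire measurable solutions -/
theorem baire_pos (hd : 2 ≤ d) {K : ℕ}
    (e : Fin K ≃ Lam d ((diffs d).card + 1) Pool.Agent.W927.BM.Lab) :
    (enc hd e R0).HasBaire d := by
  obtain ⟨c, hcm, hc⟩ := exists_col d
  have ha := freeBorel_act d
  obtain ⟨f, G, hf, hG, -, hGres, hGR⟩ := Pool.Agent.W927.BM.pos (FreePart d)
    (fun t x => act (emb hd t x))
    (fun y => by rw [emb_zero, act_zero]) (fun s t x z y => by rw [emb_add, act_add])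
    (fun t x => ha.meas _) (fun t x y h => emb_eq_zero hd (ha.free _ _ h))
  refine ⟨core G, fun y => e.symm (c y, fun p => c (act (uv p) y), f y), core_meas hG, core_inv G,
    core_residual hGres, meas_enc e hcm hf, ?_⟩
  intro v hv
  exact at_of_rule hc (hGR v (core_sub G hv) 0 0)

/-- No measurable solutions -/
theorem baire_neg (hd : 2 ≤ d) {m K : ℕ} (e : Fin K ≃ Lam d m Pool.Agent.W927.BM.Lab) :
    ¬ (enc hd e R0).HasMeasurable d := by
  intro H
  obtain ⟨α, hα⟩ := exists_alpha d
  have : IsProbabilityMeasure (volume : Measure TT) := ⟨by simp⟩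
  obtain ⟨Y, F, hYm, hYi, hY0, hF, hY⟩ := H (Measure.map (codeF hα) volume)
    (Measure.isProbabilityMeasure_map (measurable_codeF hα).aemeasurable)
  rw [Measure.map_apply (measurable_codeF hα) hYm.compl] at hY0
  obtain ⟨a, haop, hainj, hae⟩ := exists_const_frame hα hF hYm hYi hY0 hY
  have hα' : ∀ g : Fin d → ℤ, g ≠ 0 →
      addOrderOf (lin (fun i => lin α (uv (a (i, true)))) g) = 0 := by
    intro g hg
    rw [lin_Lin]
    exact hα _ (Lin_ne_zero haop hainj hg)
  refine circle_neg hd hα' ⟨fun θ => (e (F (codeF hα θ))).2.2, ?_, ?_⟩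
  · intro l
    have h2 : Measurable fun θ => F (codeF hα θ) := hF.comp (measurable_codeF hα)
    exact (h2 (MeasurableSet.of_discrete (s := {k | (e k).2.2 = l}))).nullMeasurableSet
  · filter_upwards [hae] with θ hθ t x
    obtain ⟨hθY, hθ⟩ := hθ
    have h1 := (hθ.orbit hYi hY hθY (Lin a (emb hd t x))).rule hYi hY R0_congr
      (inv_act hYi hθY (Lin a (emb hd t x)))
    refine Rule_congr (t := 0) (x := 0) ?_ h1
    intro s y _ _
    rw [zero_add, zero_add, ← act_add, ← map_add, ← emb_add, ← codeF_act, lin_Lin, add_comm s t,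
      add_comm y x]

/-- the separation -/
theorem baire_separation (d : ℕ) (hd : 2 ≤ d) :
    ∃ Q : LCL, Q.HasBaire d ∧ ¬ Q.HasMeasurable d ∧ ¬ Q.HasBorel d := by
  let e := (Fintype.equivFin (Lam d ((diffs d).card + 1) Pool.Agent.W927.BM.Lab)).symm
  exact ⟨enc hd e R0, baire_pos hd e, baire_neg hd e,
    fun h => baire_neg hd e (hasMeasurable_of_hasBorel h)⟩

end Pool.Agent.TH320.GL

end
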