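import Pool.Agent.TH320.GCirc

set_option autoImplicit false

/-! # A local problem on the shift graph with a measurable solution and no Borel solution -/

noncomputable section

namespace Pool.Agent.TH320.GL

open MeasureTheory Topology Filter
open Pool.Agent.W927 (Conf shift FreePart lin TT codeF measurable_codeF code_shift exists_alpha
  okV cfg Walls Cols Gen gen_add gen_orbit gen_exists localize syndetic not_meagre_univ RuleB)
open Pool.Agent.W927.BM (FreeBorel emb emb_add emb_zero emb_eq_zero emb_fst emb_snd)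
open Pool.Agent.TH320.LC (act act_val act_zero act_add freeBorel_act actHomeo exists_fin_col
  exists_meas_lab)

variable {d : ℕ}

/-- the rule of walls and colours at the origin -/
def R1 (σ : ℤ → ℤ → Pool.Agent.W927.Lab) : Prop :=
  okV (σ (-1) 0).1 (σ 0 0).1 (σ 0 (-1)).2.1 (σ 0 0).2.1 ∧
  ((σ 0 0).2.1 = .n → (σ 0 0).2.2.1 = !(σ (-1) 0).2.2.1) ∧
  ((σ 0 0).1 = .n → (σ 0 0).2.2.1 = !(σ 0 (-1)).2.2.1)

theorem R1_congr (σ σ' : ℤ → ℤ → Pool.Agent.W927.Lab)
    (h : ∀ t x, |t| ≤ 2 → |x| ≤ 2 → σ t x = σ' t x) (hR : R1 σ) : R1 σ' := by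
  have h1 := h 0 0 (by norm_num) (by norm_num)
  have h2 := h (-1) 0 (by norm_num) (by norm_num)
  have h3 := h 0 (-1) (by norm_num) (by norm_num)
  unfold R1 at hR ⊢
  rw [← h1, ← h2, ← h3]
  exact hR

/-- measurable solutions -/
theorem meas_pos (hd : 2 ≤ d) {K : ℕ}
    (e : Fin K ≃ Lam d ((diffs d).card + 1) Pool.Agent.W927.Lab) :
    (enc hd e R1).HasMeasurable d := by
  obtain ⟨c, hcm, hc⟩ := exists_col d
  intro μ hμ
  obtain ⟨f, Y, hf, hY, hYinv, hYμ, hR⟩ := exists_meas_lab hd (freeBorel_act d) μ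
  refine ⟨Y, fun y => e.symm (c y, fun p => c (act (uv p) y), f y), hY, ?_, hYμ,
    meas_enc e hcm fun l => hf _, ?_⟩
  · intro x y hxy hx
    obtain ⟨p, rfl⟩ := shift_adj.1 hxy
    exact hYinv _ _ hx
  · intro v hv
    refine at_of_rule hc ?_
    have h := hR v hv
    have e1 : -emb hd 1 0 = emb hd (-1) 0 := by
      unfold Pool.Agent.W927.BM.emb
      rw [neg_add, ← Pi.single_neg, ← Pi.single_neg, neg_zero]
    have e2 : -emb hd 0 1 = emb hd 0 (-1) := by
      unfold Pool.Agent.W927.BM.emb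
      rw [neg_add, ← Pi.single_neg, ← Pi.single_neg, neg_zero]
    have e0 : emb hd 0 0 = 0 := emb_zero hd
    unfold RuleB at h
    rw [e1, e2, ← e0] at h
    exact h

/-- Borel solutions have a generically constant frame. -/
theorem exists_gen_frame {hd : 2 ≤ d} {m K : ℕ} {L : Type} {e : Fin K ≃ Lam d m L}
    {R : (ℤ → ℤ → L) → Prop} {F : FreePart d → Fin K} {α : Fin d → TT}
    (hα : ∀ g : Fin d → ℤ, g ≠ 0 → addOrderOf (lin α g) = 0) (hF : Measurable F)
    (hY : ∀ w, (enc hd e R).At (shiftGraph d) F w) :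
    ∃ a : Dir d → Dir d, (∀ p, a (op p) = op (a p)) ∧ Function.Injective a ∧
      Gen fun θ : TT => Fr e F (codeF hα θ) a := by
  have hYi : Inv (Set.univ : Set (FreePart d)) := fun _ _ _ _ => Set.mem_univ _
  have hY' : ∀ w ∈ (Set.univ : Set (FreePart d)), (enc hd e R).At (shiftGraph d) F w :=
    fun w _ => hY w
  let Θ : (Dir d → Dir d) → Set TT := fun a => {θ | Fr e F (codeF hα θ) a}
  have hΘm : ∀ a, MeasurableSet (Θ a) := fun a => (measurable_codeF hα) (meas_Fr (e := e) hF a)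
  have hpos : ∃ a, ¬ IsMeagre (Θ a) := by
    by_contra hcon
    push Not at hcon
    apply not_meagre_univ
    have : (Set.univ : Set TT) ⊆ ⋃ a, Θ a := by
      intro θ _
      obtain ⟨a, ha⟩ := exists_frame (hY (codeF hα θ))
      exact Set.mem_iUnion.2 ⟨a, ha⟩
    exact IsMeagre.mono this (isMeagre_iUnion hcon)
  obtain ⟨a, ha⟩ := hpos
  obtain ⟨θ, hθ⟩ : (Θ a).Nonempty := by
    by_contra hne
    rw [Set.not_nonempty_iff_eq_empty] at hne
    apply ha
    rw [hne]
    exact IsMeagre.empty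
  obtain ⟨O, hO, hne, hg⟩ := localize (hΘm a) ha
  have key : ∀ (g : Fin d → ℤ) (θ : TT), θ ∈ Θ a → lin α g + θ ∈ Θ a := by
    intro g θ h
    change Fr e F (codeF hα (lin α g + θ)) a
    rw [codeF_act]
    exact Fr.orbit hYi hY' (Set.mem_univ _) h g
  refine ⟨a, fun p => hθ.op hYi hY' (Set.mem_univ _) p, hθ.inj (hY _), ?_⟩
  have h0 : uv ((⟨0, by omega⟩, true) : Dir d) ≠ 0 := uv_ne_zero _
  obtain ⟨B, hB⟩ := syndetic hO hne (hα _ h0)
  filter_upwards [gen_orbit hg (lin α (uv ((⟨0, by omega⟩, true) : Dir d))) 0] with x hx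
  obtain ⟨k, -, hk⟩ := hB x
  have h1 := hx k 0
  rw [smul_zero, add_zero, natCast_zsmul] at h1
  have h2 := key (-(k • uv ((⟨0, by omega⟩, true) : Dir d))) _ (h1 hk)
  rw [map_neg, map_nsmul, add_comm x, neg_add_cancel_left] at h2
  exact h2

theorem emb_eq_smul (hd : 2 ≤ d) (i j : ℤ) : emb hd i j = i • emb hd 1 0 + j • emb hd 0 1 := by
  unfold Pool.Agent.W927.BM.emb
  rw [Pi.single_zero, Pi.single_zero, add_zero, zero_add, ← Pi.single_smul, ← Pi.single_smul]
  simp

/-- No Borel solutions -/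
theorem meas_neg (hd : 2 ≤ d) {m K : ℕ} (e : Fin K ≃ Lam d m Pool.Agent.W927.Lab) :
    ¬ (enc hd e R1).HasBorel d := by
  rintro ⟨F, hF, hY⟩
  have hYi : Inv (Set.univ : Set (FreePart d)) := fun _ _ _ _ => Set.mem_univ _
  have hY' : ∀ w ∈ (Set.univ : Set (FreePart d)), (enc hd e R1).At (shiftGraph d) F w :=
    fun w _ => hY w
  obtain ⟨α, hα⟩ := exists_alpha d
  obtain ⟨a, haop, hainj, hgen⟩ := exists_gen_frame hα hF hY
  have h10 : emb hd 1 0 ≠ 0 := fun h => by have := (emb_eq_zero hd h).1; omega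
  have h01 : emb hd 0 1 ≠ 0 := fun h => by have := (emb_eq_zero hd h).2; omega
  have hu := hα _ (Lin_ne_zero haop hainj h10)
  have hv := hα _ (Lin_ne_zero haop hainj h01)
  let G : TT → Pool.Agent.W927.Lab := fun θ => (e (F (codeF hα θ))).2.2
  have hm : ∀ A : Set Pool.Agent.W927.Lab, MeasurableSet {θ : TT | G θ ∈ A} := by
    intro A
    have h2 : Measurable fun θ => F (codeF hα θ) := hF.comp (measurable_codeF hα)
    exact h2 (MeasurableSet.of_discrete (s := {k | (e k).2.2 ∈ A}))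
  have hpt : ∀ (x : TT) (i j : ℤ), x + i • lin α (Lin a (emb hd 1 0)) +
      j • lin α (Lin a (emb hd 0 1)) = lin α (Lin a (emb hd i j)) + x := by
    intro x i j
    rw [emb_eq_smul hd i j, map_add, map_add, map_zsmul, map_zsmul, map_zsmul, map_zsmul]
    abel
  have hcfg : ∀ (x : TT) (i j : ℤ), x + i • lin α (Lin a (emb hd 1 0)) +
      j • lin α (Lin a (emb hd 0 1)) = lin α (Lin a (emb hd i j)) + x := hpt
  refine no_gen_labelling (u := lin α (Lin a (emb hd 1 0))) (v := lin α (Lin a (emb hd 0 1)))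
    (H := fun θ => (G θ).1) (V := fun θ => (G θ).2.1) (C := fun θ => (G θ).2.2.1) hu hv
    (fun c => hm {l | l.1 = c}) (fun c => hm {l | l.2.1 = c}) (fun c => hm {l | l.2.2.1 = c}) ?_
  filter_upwards [hgen] with x hx
  have hr : ∀ i j : ℤ, R1 fun s t => G (lin α (Lin a (emb hd (i + s) (j + t))) + x) := by
    intro i j
    have h1 := (hx.orbit hYi hY' (Set.mem_univ _) (Lin a (emb hd i j))).rule hYi hY' R1_congr
      (Set.mem_univ _)
    refine R1_congr _ _ ?_ h1
    intro s t _ _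
    simp only [G]
    rw [← act_add, ← map_add, ← emb_add, ← codeF_act, add_comm s i, add_comm t j]
  constructor
  · intro i j
    have h1 := (hr i j).1
    simp only [add_zero] at h1
    simp only [cfg, hcfg, sub_eq_add_neg]
    exact h1
  · constructor
    · intro i j h
      have h1 := (hr i j).2.1
      simp only [add_zero] at h1
      simp only [cfg, hcfg, sub_eq_add_neg] at h ⊢
      exact h1 h
    · intro i j h
      have h1 := (hr i j).2.2
      simp only [add_zero] at h1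
      simp only [cfg, hcfg, sub_eq_add_neg] at h ⊢
      exact h1 h

/-- the separation -/
theorem meas_separation (d : ℕ) (hd : 2 ≤ d) :
    ∃ Q : LCL, Q.HasMeasurable d ∧ ¬ Q.HasBorel d := by
  let e := (Fintype.equivFin (Lam d ((diffs d).card + 1) Pool.Agent.W927.Lab)).symm
  exact ⟨enc hd e R1, meas_pos hd e, meas_neg hd e⟩

end Pool.Agent.TH320.GL

end
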