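import Pool.Agent.TH320.L1

/-!
# A gliding hump lemma and the Schur property of `ℓ₁`
-/

set_option autoImplicit false

open Filter Topology

namespace Pool.Agent.TH320

theorem gliding {P : Type*} (δ : ℕ → P → ℝ) (c : ℕ → P → ℕ → ℝ) (h0 : ∀ k p, 0 ≤ δ k p)
    (hs : ∀ k, Summable (δ k)) (ht : ∀ p, Tendsto (fun k => δ k p) atTop (𝓝 0))
    (hc : ∀ k p l, |c k p l| ≤ δ l p) (hd : ∀ k p, c k p k = δ k p)
    (H : ∀ κ : P → ℕ, Tendsto (fun l => ∑' p, c (κ p) p l) atTop (𝓝 0)) :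
    Tendsto (fun k => ∑' p, δ k p) atTop (𝓝 0) := by
  classical
  by_contra hcon
  have hnn : ∀ k, 0 ≤ ∑' p, δ k p := fun k => tsum_nonneg (h0 k)
  obtain ⟨ε, hε, hf⟩ : ∃ ε > 0, ∀ K, ∃ k > K, ε ≤ ∑' p, δ k p := by
    rw [Metric.tendsto_atTop] at hcon
    push Not at hcon
    obtain ⟨ε, hε, h⟩ := hcon
    refine ⟨ε, hε, fun K => ?_⟩
    obtain ⟨k, hk, hk'⟩ := h (K + 1)
    refine ⟨k, by omega, ?_⟩
    rwa [Real.dist_eq, sub_zero, abs_of_nonneg (hnn k)] at hk'
  have step : ∀ (K : ℕ) (F : Finset P), ∃ (k : ℕ) (F' : Finset P), K < k ∧ F ⊆ F' ∧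
      ∑ p ∈ F, δ k p < ε / 8 ∧ ε ≤ ∑' p, δ k p ∧ ∑' p, δ k p - ∑ p ∈ F', δ k p < ε / 8 := by
    intro K F
    have h1 : Tendsto (fun k => ∑ p ∈ F, δ k p) atTop (𝓝 0) := by
      have := tendsto_finsetSum F fun p _ => ht p
      simpa using this
    have h2 : ∀ᶠ k in atTop, ∑ p ∈ F, δ k p < ε / 8 := h1.eventually (gt_mem_nhds (by positivity))
    obtain ⟨K', hK'⟩ := eventually_atTop.mp h2
    obtain ⟨k, hk, hk'⟩ := hf (max K K')
    have h3 : ∀ᶠ s in atTop, ∑' p, δ k p - ε / 8 < ∑ p ∈ s, δ k p :=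
      (hs k).hasSum.eventually (lt_mem_nhds (by linarith))
    obtain ⟨s, hs'⟩ := eventually_atTop.mp h3
    refine ⟨k, F ∪ s, lt_of_le_of_lt (le_max_left _ _) hk, Finset.subset_union_left,
      hK' k (le_of_lt (lt_of_le_of_lt (le_max_right _ _) hk)), hk', ?_⟩
    have := hs' (F ∪ s) Finset.subset_union_right
    linarith
  choose kk FF h1 h2 h3 h4 h5 using step
  let st : ℕ → ℕ × Finset P := fun j => Nat.rec (0, ∅) (fun _ q => (kk q.1 q.2, FF q.1 q.2)) j
  have hst : ∀ j, st (j + 1) = (kk (st j).1 (st j).2, FF (st j).1 (st j).2) := fun j => rfl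
  have hmono : Monotone fun j => (st j).2 := by
    refine monotone_nat_of_le_succ fun j => ?_
    rw [hst]
    exact h2 _ _
  have hk : StrictMono fun j => (st j).1 := by
    refine strictMono_nat_of_lt_succ fun j => ?_
    rw [hst]
    exact h1 _ _
  let κ : P → ℕ := fun p => if h : ∃ j, p ∈ (st j).2 then (st (Nat.find h)).1 else 0
  have hκ : ∀ j p, p ∈ (st (j + 1)).2 → p ∉ (st j).2 → κ p = (st (j + 1)).1 := by
    intro j p hp hp'
    have hex : ∃ i, p ∈ (st i).2 := ⟨j + 1, hp⟩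
    have : Nat.find hex = j + 1 := by
      rw [Nat.find_eq_iff]
      exact ⟨hp, fun i hi hi' => hp' (hmono (Nat.lt_succ_iff.mp hi) hi')⟩
    simp only [κ, dif_pos hex, this]
  have hlow : ∀ j, ε / 2 ≤ ∑' p, c (κ p) p (st (j + 1)).1 := by
    intro j
    set l := (st (j + 1)).1 with hl
    set F := (st j).2 with hF
    set F' := (st (j + 1)).2 with hF'
    have e1 : ∑ p ∈ F, δ l p < ε / 8 := h3 _ _
    have e2 : ε ≤ ∑' p, δ l p := h4 _ _
    have e3 : ∑' p, δ l p - ∑ p ∈ F', δ l p < ε / 8 := h5 _ _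
    have e4 : F ⊆ F' := h2 _ _
    have hsc : Summable fun p => c (κ p) p l :=
      Summable.of_norm_bounded (hs l) fun p => hc _ _ _
    have e5 : ∑ p ∈ F', δ l p - 2 * ∑ p ∈ F, δ l p ≤ ∑ p ∈ F', c (κ p) p l := by
      rw [← Finset.sum_sdiff e4, ← Finset.sum_sdiff e4]
      have e6 : ∑ p ∈ F' \ F, c (κ p) p l = ∑ p ∈ F' \ F, δ l p := by
        refine Finset.sum_congr rfl fun p hp => ?_
        rw [Finset.mem_sdiff] at hp
        rw [hκ j p hp.1 hp.2]
        exact hd _ _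
      have e7 : -∑ p ∈ F, δ l p ≤ ∑ p ∈ F, c (κ p) p l := by
        rw [← Finset.sum_neg_distrib]
        exact Finset.sum_le_sum fun p _ => (abs_le.mp (hc _ _ _)).1
      rw [e6]
      linarith
    have e8 : -(∑' p, δ l p - ∑ p ∈ F', δ l p) ≤
        ∑' p, c (κ p) p l - ∑ p ∈ F', c (κ p) p l := by
      have a1 := (hs l).sum_add_tsum_subtype_compl F'
      have a2 := hsc.sum_add_tsum_subtype_compl F'
      have a3 : -∑' p : {x // x ∉ F'}, δ l p ≤ ∑' p : {x // x ∉ F'}, c (κ p) p l := by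
        rw [← tsum_neg]
        refine Summable.tsum_le_tsum (fun p => (abs_le.mp (hc _ _ _)).1) ?_ ?_
        · exact ((hs l).subtype _).neg
        · exact hsc.subtype _
      linarith
    linarith
  have hlim := (H κ).comp (hk.tendsto_atTop.comp (tendsto_add_atTop_nat 1))
  have := ge_of_tendsto hlim (Filter.Eventually.of_forall fun j => hlow j)
  linarith

/-- The Schur property of `ℓ₁`. -/
theorem schur (α : ℕ → L1) (h : ∀ f : L1 →L[ℝ] ℝ, Tendsto (fun k => f (α k)) atTop (𝓝 0)) :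
    Tendsto (fun k => ‖α k‖) atTop (𝓝 0) := by
  have key := gliding (P := ℕ) (fun k p => |α k p|)
    (fun k p l => (SignType.sign (α k p) : ℝ) * α l p) (fun k p => abs_nonneg _)
    (fun k => summable_abs _) (fun p => ?_) (fun k p l => ?_) (fun k p => ?_) (fun κ => ?_)
  · refine key.congr fun k => ?_
    exact (hasSum_abs (α k)).tsum_eq
  · have := (h (co p)).abs
    simpa [co_apply] using this
  · rw [abs_mul]
    refine (mul_le_mul_of_nonneg_right ?_ (abs_nonneg _)).trans (one_mul _).le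
    rcases SignType.trichotomy (SignType.sign (α k p)) with h | h | h <;> simp [h]
  · exact sign_mul_self _
  · obtain ⟨T, hT, -⟩ := exists_lift (Z := ℝ) (fun p => (SignType.sign (α (κ p) p) : ℝ)) 1
      (fun p => by
        rcases SignType.trichotomy (SignType.sign (α (κ p) p)) with h | h | h <;> simp [h])
    refine (h T).congr fun l => ?_
    have h1 := (hasSum_uv (α l)).mapL T
    simp only [map_smul, hT, smul_eq_mul] at h1
    rw [← h1.tsum_eq]
    exact tsum_congr fun p => mul_comm _ _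

end Pool.Agent.TH320
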