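import Pool.Agent.TH320.Iso

/-!
# Ill-founded trees
-/

set_option autoImplicit false

open Filter Topology

namespace Pool.Agent.TH320

/-- Initial segments of a branch. -/
def br (f : ℕ → ℕ) (j : ℕ) : List ℕ := (List.range j).map f

theorem br_succ (f : ℕ → ℕ) (j : ℕ) : br f (j + 1) = br f j ++ [f j] := by
  rw [br, List.range_succ, List.map_append]
  rfl

/-- The tree attached to a set of finite sequences: finite sequences are written in reverse order,
and only the first components matter. -/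
def tr (T : List ℕ → Bool) : Set (List (ℕ × ℕ)) :=
  {t | ∀ t', t' <:+ t → T (t'.map Prod.fst).reverse = true}

theorem tr_closed (T : List ℕ → Bool) {m : ℕ × ℕ} {t : List (ℕ × ℕ)} (h : (m :: t) ∈ tr T) :
    t ∈ tr T := fun t' ht' => h t' (ht'.trans (List.suffix_cons _ _))

theorem mem_tr_cons {T : List ℕ → Bool} {m : ℕ × ℕ} {t : List (ℕ × ℕ)} :
    (m :: t) ∈ tr T ↔ T ((m :: t).map Prod.fst).reverse = true ∧ t ∈ tr T := by
  constructor
  · intro h
    exact ⟨h _ (List.suffix_refl _), tr_closed T h⟩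
  · rintro ⟨h1, h2⟩ t' ht'
    rcases List.suffix_cons_iff.mp ht' with h | h
    · rw [h]; exact h1
    · exact h2 _ h

theorem tr_firstOnly_aux {T : List ℕ → Bool} : ∀ t t' : List (ℕ × ℕ),
    t.map Prod.fst = t'.map Prod.fst → t ∈ tr T → t' ∈ tr T
  | [], [], _, h => h
  | [], _ :: _, h, _ => by simp at h
  | _ :: _, [], h, _ => by simp at h
  | m :: t, m' :: t', h, ht => by
    rw [mem_tr_cons] at ht ⊢
    refine ⟨?_, ?_⟩
    · rw [← h]; exact ht.1
    · rw [List.map_cons, List.map_cons, List.cons.injEq] at h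
      exact tr_firstOnly_aux t t' h.2 ht.2

theorem tr_firstOnly (T : List ℕ → Bool) : FirstOnly (tr T) := fun t t' h =>
  ⟨tr_firstOnly_aux t t' h, tr_firstOnly_aux t' t h.symm⟩

theorem univ_firstOnly : FirstOnly (Set.univ : Set (List (ℕ × ℕ))) := fun _ _ _ =>
  ⟨fun _ => trivial, fun _ => trivial⟩

/-! ### The projection onto the subspace of a subtree -/

open Classical in
/-- The longest initial segment in the tree. -/
noncomputable def sg (S : Set (List (ℕ × ℕ))) : Nd → Nd
  | [] => []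
  | p :: w => if (p.1 :: pr w) ∈ S then p :: w else sg S w

theorem pf_sg_of_mem {S : Set (List (ℕ × ℕ))} (hS : ∀ m t, (m :: t) ∈ S → t ∈ S)
    {m : ℕ × ℕ} {w : Nd} (h : (m :: pr w) ∈ S) : pf (sg S) (dv m w) = dv m w := by
  have h1 : sg S w = w := by
    cases w with
    | nil => rfl
    | cons p w => rw [sg, if_pos (by simpa using hS _ _ h)]
  rw [map_dv]
  simp only [pf_ee, sg, if_pos h, h1]
  rfl

theorem pf_sg_of_not_mem {S : Set (List (ℕ × ℕ))}
    {m : ℕ × ℕ} {w : Nd} (h : (m :: pr w) ∉ S) : pf (sg S) (dv m w) = 0 := by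
  rw [map_dv]
  simp only [pf_ee, sg, if_neg h]
  exact half_self _

/-! ### The embedding of the full tree along a branch -/

/-- The embedding along the branch `b`. -/
def rh (b : ℕ → ℕ) : Nd → Nd
  | [] => []
  | p :: w => ((b w.length, Nat.pair p.1.1 p.1.2), p.2) :: rh b w

theorem rh_length (b : ℕ → ℕ) : ∀ w : Nd, (rh b w).length = w.length
  | [] => rfl
  | p :: w => by rw [rh, List.length_cons, List.length_cons, rh_length b w]

theorem pf_rh (b : ℕ → ℕ) (m : ℕ × ℕ) (w : Nd) :
    pf (rh b) (dv m w) = dv (b w.length, Nat.pair m.1 m.2) (rh b w) := by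
  rw [map_dv]
  simp only [pf_ee, rh]
  rfl

theorem rh_map (b : ℕ → ℕ) : ∀ w : Nd, ((pr (rh b w)).map Prod.fst).reverse = br b w.length
  | [] => rfl
  | p :: w => by
    rw [rh, pr_cons, List.map_cons, List.reverse_cons, rh_map b w, List.length_cons, br_succ]

theorem rh_mem {T : List ℕ → Bool} {b : ℕ → ℕ} (hb : ∀ n, T (br b n) = true) :
    ∀ w : Nd, pr (rh b w) ∈ tr T
  | [] => by
    intro t' ht'
    have : t' = [] := by simpa [rh] using ht'
    rw [this]
    exact hb 0
  | p :: w => by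
    rw [rh, pr_cons, mem_tr_cons]
    refine ⟨?_, rh_mem hb w⟩
    have := rh_map b (p :: w)
    rw [rh, pr_cons] at this
    rw [this]
    exact hb _

theorem pf_rh_mem {T : List ℕ → Bool} {b : ℕ → ℕ} (hb : ∀ n, T (br b n) = true)
    (m : ℕ × ℕ) (w : Nd) : pf (rh b) (dv m w) ∈ DD (tr T) := by
  rw [pf_rh]
  refine dv_mem ?_
  have := rh_mem hb ((m, true) :: w)
  rwa [rh, pr_cons] at this

/-- Membership in the image of `rh b`. -/
def gd (b : ℕ → ℕ) : Nd → Prop
  | [] => True
  | p :: w => p.1.1 = b w.length ∧ gd b w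

open Classical in
/-- The left inverse of `rh b`. -/
noncomputable def la (b : ℕ → ℕ) : Nd → Nd
  | [] => []
  | p :: w => if gd b (p :: w) then (Nat.unpair p.1.2, p.2) :: la b w else la b w

theorem gd_rh (b : ℕ → ℕ) : ∀ w : Nd, gd b (rh b w)
  | [] => trivial
  | p :: w => ⟨by rw [rh_length], gd_rh b w⟩

theorem la_rh (b : ℕ → ℕ) : ∀ w : Nd, la b (rh b w) = w
  | [] => rfl
  | p :: w => by
    have h1 := gd_rh b (p :: w)
    rw [rh] at h1 ⊢
    rw [la, if_pos h1, la_rh b w]
    simp

theorem pf_la (b : ℕ → ℕ) (m : ℕ × ℕ) (w : Nd) :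
    pf (la b) (dv m w) ∈ DD (Set.univ : Set (List (ℕ × ℕ))) := by
  rw [map_dv]
  simp only [pf_ee, la]
  by_cases h : m.1 = b w.length ∧ gd b w
  · have h1 : ∀ i, gd b ((m, i) :: w) := fun i => h
    rw [if_pos (h1 _), if_pos (h1 _)]
    exact dv_mem (m := Nat.unpair m.2) (w := la b w) trivial
  · have h1 : ∀ i, ¬ gd b ((m, i) :: w) := fun i => h
    rw [if_neg (h1 _), if_neg (h1 _), half_self]
    exact zero_mem _

/-- The subspaces of ill-founded trees are isomorphic to the subspace of the full tree. -/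
theorem iso_of_branch {T : List ℕ → Bool} {b : ℕ → ℕ} (hb : ∀ n, T (br b n) = true) :
    Nonempty (DD (Set.univ : Set (List (ℕ × ℕ))) ≃L[ℝ] DD (tr T)) := by
  have hcl : ∀ m t, (m :: t) ∈ tr T → t ∈ tr T := fun m t h => tr_closed T h
  let i : DD (tr T) →L[ℝ] DD (Set.univ : Set (List (ℕ × ℕ))) :=
    res (ContinuousLinearMap.id ℝ L1) fun m w _ => dv_mem trivial
  let r : DD (Set.univ : Set (List (ℕ × ℕ))) →L[ℝ] DD (tr T) :=
    res (pf (sg (tr T))) fun m w _ => by
      by_cases h : (m :: pr w) ∈ tr T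
      · rw [pf_sg_of_mem hcl h]; exact dv_mem h
      · rw [pf_sg_of_not_mem h]; exact zero_mem _
  let R : DD (Set.univ : Set (List (ℕ × ℕ))) →L[ℝ] DD (tr T) :=
    res (pf (rh b)) fun m w _ => pf_rh_mem hb m w
  let L : DD (tr T) →L[ℝ] DD (Set.univ : Set (List (ℕ × ℕ))) :=
    res (pf (la b)) fun m w _ => pf_la b m w
  refine decomposition i r (fun x => ?_) R L (fun x => ?_) (square univ_firstOnly)
    (square (tr_firstOnly T))
  · apply Subtype.ext
    exact eq_on (pf (sg (tr T))) (ContinuousLinearMap.id ℝ L1)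
      (fun m w h => pf_sg_of_mem hcl h) x.2
  · apply Subtype.ext
    have : (pf (la b)).comp (pf (rh b)) = ContinuousLinearMap.id ℝ L1 := by
      refine clm_ext_ee fun w => ?_
      simp [la_rh]
    exact DFunLike.congr_fun this (x : L1)

end Pool.Agent.TH320
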