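import Pool.Agent.TH320.Tree

/-!
# The subspace of an ill-founded tree is isomorphic to the subspace of the full tree
-/

set_option autoImplicit false

open Filter Topology

namespace Pool.Agent.TH320

/-! ### Squares -/

section square

/-- Splitting maps: `c` sends the root labels with `f m = true` to `g m`. -/
def spl (f : ℕ × ℕ → Bool) (g : ℕ × ℕ → ℕ × ℕ) : Nd → Nd
  | [] => []
  | [p] => if f p.1 then [(g p.1, p.2)] else []
  | p :: q :: w => if spl f g (q :: w) = [] then [] else p :: spl f g (q :: w)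

theorem spl_cons (f : ℕ × ℕ → Bool) (g : ℕ × ℕ → ℕ × ℕ) (p : Lab) {w : Nd} (hw : w ≠ []) :
    spl f g (p :: w) = if spl f g w = [] then [] else p :: spl f g w := by
  cases w with
  | nil => exact absurd rfl hw
  | cons q w => rw [spl]

theorem pf_spl_nil (f : ℕ × ℕ → Bool) (g : ℕ × ℕ → ℕ × ℕ) (m : ℕ × ℕ) :
    pf (spl f g) (dv m []) = if f m then dv (g m) [] else 0 := by
  rw [map_dv]
  simp only [pf_ee, spl]
  split_ifs with h
  · rfl
  · exact half_self _

theorem pf_spl (f : ℕ × ℕ → Bool) (g : ℕ × ℕ → ℕ × ℕ) (m : ℕ × ℕ) {w : Nd} (hw : w ≠ []) :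
    pf (spl f g) (dv m w) = if spl f g w = [] then 0 else dv m (spl f g w) := by
  rw [map_dv]
  simp only [pf_ee, spl_cons f g _ hw]
  split_ifs with h
  · rw [h]; exact half_self _
  · rfl

/-- Every root label is changed by `g`. -/
def chg (g : ℕ × ℕ → ℕ × ℕ) : Nd → Nd := spl (fun _ => true) g

theorem chg_ne (g : ℕ × ℕ → ℕ × ℕ) : ∀ {w : Nd}, w ≠ [] → chg g w ≠ []
  | [], h => absurd rfl h
  | [p], _ => by simp [chg, spl]
  | p :: q :: w, _ => by
    have := chg_ne g (w := q :: w) (by simp)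
    rw [chg] at this ⊢
    rw [spl, if_neg this]
    simp

theorem chg_cons (g : ℕ × ℕ → ℕ × ℕ) (p : Lab) {w : Nd} (hw : w ≠ []) :
    chg g (p :: w) = p :: chg g w := by
  have := chg_ne g hw
  rw [chg] at this ⊢
  rw [spl_cons _ _ _ hw, if_neg this]

theorem spl_chg {f : ℕ × ℕ → Bool} {g g' : ℕ × ℕ → ℕ × ℕ} (h : ∀ m, f (g' m) = true)
    (hg : ∀ m, g (g' m) = m) : ∀ w : Nd, spl f g (chg g' w) = w
  | [] => rfl
  | [p] => by simp [chg, spl, h, hg]
  | p :: q :: w => by
    have ih := spl_chg h hg (q :: w)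
    have h1 := chg_ne g' (w := q :: w) (by simp)
    rw [chg_cons _ _ (by simp), spl_cons _ _ _ h1, ih]
    simp

theorem spl_chg' {f : ℕ × ℕ → Bool} {g g' : ℕ × ℕ → ℕ × ℕ} (h : ∀ m, f (g' m) = false) :
    ∀ w : Nd, spl f g (chg g' w) = []
  | [] => rfl
  | [p] => by simp [chg, spl, h]
  | p :: q :: w => by
    have ih := spl_chg' (g := g) h (q :: w)
    have h1 := chg_ne g' (w := q :: w) (by simp)
    rw [chg_cons _ _ (by simp), spl_cons _ _ _ h1, ih]
    simp

/-- The two splitting maps. -/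
def f0 (m : ℕ × ℕ) : Bool := m.2 % 2 = 0
def f1 (m : ℕ × ℕ) : Bool := m.2 % 2 = 1
def gg (m : ℕ × ℕ) : ℕ × ℕ := (m.1, m.2 / 2)
def g0 (m : ℕ × ℕ) : ℕ × ℕ := (m.1, 2 * m.2)
def g1 (m : ℕ × ℕ) : ℕ × ℕ := (m.1, 2 * m.2 + 1)

theorem split_or : ∀ {w : Nd}, w ≠ [] →
    (spl f0 gg w ≠ [] ∧ chg g0 (spl f0 gg w) = w ∧ spl f1 gg w = []) ∨
    (spl f1 gg w ≠ [] ∧ chg g1 (spl f1 gg w) = w ∧ spl f0 gg w = [])
  | [], h => absurd rfl h
  | [p], _ => by
    obtain ⟨⟨a, c⟩, i⟩ := p
    rcases Nat.mod_two_eq_zero_or_one c with h | h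
    · left
      have h2 : 2 * (c / 2) = c := by omega
      simp [spl, chg, f0, f1, gg, g0, h, h2]
    · right
      have h2 : 2 * (c / 2) + 1 = c := by omega
      simp [spl, chg, f0, f1, gg, g1, h, h2]
  | p :: q :: w, _ => by
    have hq : (q :: w : Nd) ≠ [] := by simp
    rcases split_or hq with ⟨h1, h2, h3⟩ | ⟨h1, h2, h3⟩
    · left
      rw [spl_cons _ _ _ hq, spl_cons _ _ _ hq, if_neg h1, if_pos h3, chg_cons _ _ h1, h2]
      simp
    · right
      rw [spl_cons _ _ _ hq, spl_cons _ _ _ hq, if_neg h1, if_pos h3, chg_cons _ _ h1, h2]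
      simp

/-- A set of finite sequences which depends only on the first components. -/
def FirstOnly (S : Set (List (ℕ × ℕ))) : Prop :=
  ∀ t t' : List (ℕ × ℕ), t.map Prod.fst = t'.map Prod.fst → (t ∈ S ↔ t' ∈ S)

theorem pr_spl {f : ℕ × ℕ → Bool} {g : ℕ × ℕ → ℕ × ℕ} (hg : ∀ m, (g m).1 = m.1) :
    ∀ w : Nd, spl f g w ≠ [] → (pr (spl f g w)).map Prod.fst = (pr w).map Prod.fst
  | [], h => absurd rfl h
  | [p], h => by
    simp only [spl] at h ⊢
    split_ifs at h ⊢ with h1
    · simp [hg]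
    · exact absurd rfl h
  | p :: q :: w, h => by
    have hq : (q :: w : Nd) ≠ [] := by simp
    rw [spl_cons _ _ _ hq] at h ⊢
    split_ifs at h ⊢ with h1
    · exact absurd rfl h
    · have ih := pr_spl hg (q :: w) h1
      rw [pr_cons, pr_cons, List.map_cons, ih, List.map_cons]

theorem spl_mem {S : Set (List (ℕ × ℕ))} (hS : FirstOnly S) {f : ℕ × ℕ → Bool}
    {g : ℕ × ℕ → ℕ × ℕ} (hg : ∀ m, (g m).1 = m.1) (m : ℕ × ℕ) (w : Nd) (h : (m :: pr w) ∈ S) :
    pf (spl f g) (dv m w) ∈ DD S := by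
  by_cases hw : w = []
  · subst hw
    rw [pf_spl_nil]
    split_ifs with h1
    · refine dv_mem ((hS _ _ ?_).mp h)
      simp [hg]
    · exact zero_mem _
  · rw [pf_spl _ _ _ hw]
    split_ifs with h1
    · exact zero_mem _
    · refine dv_mem ((hS _ _ ?_).mp h)
      rw [List.map_cons, List.map_cons, pr_spl hg w h1]

theorem square {S : Set (List (ℕ × ℕ))} (hS : FirstOnly S) :
    Nonempty (DD S ≃L[ℝ] DD S × DD S) := by
  let C0 : DD S →L[ℝ] DD S := res (pf (spl f0 gg)) (spl_mem hS fun _ => rfl)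
  let C1 : DD S →L[ℝ] DD S := res (pf (spl f1 gg)) (spl_mem hS fun _ => rfl)
  let I0 : DD S →L[ℝ] DD S := res (pf (chg g0)) (spl_mem hS fun _ => rfl)
  let I1 : DD S →L[ℝ] DD S := res (pf (chg g1)) (spl_mem hS fun _ => rfl)
  have k1 : ∀ x, C0 (I0 x) = x := by
    intro x
    apply Subtype.ext
    have : (pf (spl f0 gg)).comp (pf (chg g0)) = ContinuousLinearMap.id ℝ L1 := by
      refine clm_ext_ee fun w => ?_
      simp [spl_chg (f := f0) (g := gg) (g' := g0) (by intro m; simp [f0, g0])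
        (by intro m; simp [gg, g0])]
    exact DFunLike.congr_fun this (x : L1)
  have k2 : ∀ x, C1 (I1 x) = x := by
    intro x
    apply Subtype.ext
    have : (pf (spl f1 gg)).comp (pf (chg g1)) = ContinuousLinearMap.id ℝ L1 := by
      refine clm_ext_ee fun w => ?_
      have := spl_chg (f := f1) (g := gg) (g' := g1) (by intro m; simp [f1, g1])
        (by intro m; simp only [gg, g1]; ext <;> simp; omega) w
      simp [this]
    exact DFunLike.congr_fun this (x : L1)
  have k3 : ∀ x, C0 (I1 x) = 0 := by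
    intro x
    apply Subtype.ext
    refine eq_on ((pf (spl f0 gg)).comp (pf (chg g1))) 0 (fun m w _ => ?_) x.2
    rw [map_dv]
    simp only [ContinuousLinearMap.comp_apply, pf_ee]
    rw [spl_chg' (by intro m; simp [f0, g1]), spl_chg' (by intro m; simp [f0, g1]),
      spl_chg' (by intro m; simp [f0, g1])]
    exact half_self _
  have k4 : ∀ x, C1 (I0 x) = 0 := by
    intro x
    apply Subtype.ext
    refine eq_on ((pf (spl f1 gg)).comp (pf (chg g0))) 0 (fun m w _ => ?_) x.2
    rw [map_dv]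
    simp only [ContinuousLinearMap.comp_apply, pf_ee]
    rw [spl_chg' (by intro m; simp [f1, g0]), spl_chg' (by intro m; simp [f1, g0]),
      spl_chg' (by intro m; simp [f1, g0])]
    exact half_self _
  have k5 : ∀ x, I0 (C0 x) + I1 (C1 x) = x := by
    intro x
    apply Subtype.ext
    refine eq_on ((pf (chg g0)).comp (pf (spl f0 gg)) + (pf (chg g1)).comp (pf (spl f1 gg)))
      (ContinuousLinearMap.id ℝ L1) (fun m w _ => ?_) x.2
    change pf (chg g0) (pf (spl f0 gg) (dv m w)) + pf (chg g1) (pf (spl f1 gg) (dv m w)) = dv m w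
    by_cases hw : w = []
    · subst hw
      rw [pf_spl_nil, pf_spl_nil]
      obtain ⟨a, c⟩ := m
      rcases Nat.mod_two_eq_zero_or_one c with h | h
      · have h2 : 2 * (c / 2) = c := by omega
        rw [if_pos (by simp [f0, h]), if_neg (by simp [f1, h]), chg, pf_spl_nil, if_pos rfl,
          map_zero, add_zero]
        simp [g0, gg, h2]
      · have h2 : 2 * (c / 2) + 1 = c := by omega
        rw [if_neg (by simp [f0, h]), if_pos (by simp [f1, h]), chg, chg, pf_spl_nil, if_pos rfl,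
          map_zero, zero_add]
        simp [g1, gg, h2]
    · rw [pf_spl _ _ _ hw, pf_spl _ _ _ hw]
      rcases split_or hw with ⟨h1, h2, h3⟩ | ⟨h1, h2, h3⟩
      · rw [if_neg h1, if_pos h3, map_zero, add_zero, chg, pf_spl _ _ _ h1,
          if_neg (by exact chg_ne g0 h1)]
        change dv m (chg g0 (spl f0 gg w)) = _
        rw [h2]
      · rw [if_neg h1, if_pos h3, map_zero, zero_add, chg, pf_spl _ _ _ h1,
          if_neg (by exact chg_ne g1 h1)]
        change dv m (chg g1 (spl f1 gg w)) = _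
        rw [h2]
  refine ⟨ContinuousLinearEquiv.equivOfInverse (C0.prod C1)
    (I0.comp (ContinuousLinearMap.fst ℝ _ _) + I1.comp (ContinuousLinearMap.snd ℝ _ _)) ?_ ?_⟩
  · intro x
    exact k5 x
  · rintro ⟨x, y⟩
    change (C0 (I0 x + I1 y), C1 (I0 x + I1 y)) = (x, y)
    rw [map_add, map_add, k1, k2, k3, k4, add_zero, zero_add]

end square

end Pool.Agent.TH320
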