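import Mathlib

/-!
# Basic facts on `ℓ₁`: unit vectors, operators defined on unit vectors, weak-star limits
-/

set_option autoImplicit false

open Filter Topology

namespace Pool.Agent.TH320

/-- The real space `ℓ₁`. -/
abbrev L1 : Type := lp (fun _ : ℕ => ℝ) 1

theorem hasSum_abs (x : L1) : HasSum (fun n => |x n|) ‖x‖ := by
  have h := lp.hasSum_norm (p := 1) (by norm_num) x
  simpa using h

theorem summable_abs (x : L1) : Summable fun n => |x n| := (hasSum_abs x).summable

theorem coord_le (x : L1) (n : ℕ) : |x n| ≤ ‖x‖ :=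
  le_hasSum (hasSum_abs x) n (fun _ _ => abs_nonneg _)

theorem mk_of_bound {f : ℕ → ℝ} {C : ℝ} (hC : 0 ≤ C) (h : ∀ s : Finset ℕ, ∑ n ∈ s, |f n| ≤ C) :
    ∃ y : L1, (∀ n, y n = f n) ∧ ‖y‖ ≤ C := by
  have hm : Memℓp (E := fun _ : ℕ => ℝ) f 1 := by
    apply memℓp_gen' (C := C)
    intro s
    simpa using h s
  refine ⟨⟨f, hm⟩, fun n => rfl, ?_⟩
  apply lp.norm_le_of_forall_sum_le (by norm_num) hC
  intro s
  simpa using h s

theorem ext' {y z : L1} (h : ∀ n, y n = z n) : y = z := by
  apply lp.ext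
  funext n
  exact h n

/-- Coordinate functionals. -/
noncomputable def co (n : ℕ) : L1 →L[ℝ] ℝ := lp.evalCLM ℝ (fun _ : ℕ => ℝ) 1 n

theorem co_apply (n : ℕ) (y : L1) : co n y = y n := rfl

/-- Unit vectors. -/
noncomputable def uv (n : ℕ) : L1 := lp.single 1 n (1 : ℝ)

theorem norm_uv (n : ℕ) : ‖uv n‖ = 1 := by
  unfold uv
  rw [lp.norm_single (by norm_num)]
  simp

theorem uv_apply (n k : ℕ) : uv n k = if k = n then 1 else 0 := by
  unfold uv
  by_cases h : k = n
  · subst h; simp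
  · simp [h, lp.single_apply]

theorem hasSum_uv (x : L1) : HasSum (fun n => x n • uv n) x := by
  have h := lp.hasSum_single (p := 1) (by simp) x
  convert h using 2 with n
  unfold uv
  rw [← lp.single_smul]
  simp

section lift

variable {Z : Type*} [NormedAddCommGroup Z] [NormedSpace ℝ Z] [CompleteSpace Z]

theorem summable_lift {z : ℕ → Z} {C : ℝ} (hz : ∀ n, ‖z n‖ ≤ C) (x : L1) :
    Summable fun n => x n • z n := by
  refine Summable.of_norm_bounded ((summable_abs x).mul_right C) fun n => ?_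
  rw [norm_smul, Real.norm_eq_abs]
  exact mul_le_mul_of_nonneg_left (hz n) (abs_nonneg _)

/-- The operator with prescribed values on the unit vectors. -/
theorem exists_lift (z : ℕ → Z) (C : ℝ) (hz : ∀ n, ‖z n‖ ≤ C) :
    ∃ T : L1 →L[ℝ] Z, (∀ n, T (uv n) = z n) ∧ ∀ x, ‖T x‖ ≤ C * ‖x‖ := by
  have hs := fun x : L1 => summable_lift hz x
  have hb : ∀ x : L1, ‖∑' n, x n • z n‖ ≤ C * ‖x‖ := by
    intro x
    refine tsum_of_norm_bounded ((hasSum_abs x).mul_left C) fun n => ?_
    rw [norm_smul, Real.norm_eq_abs, mul_comm]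
    exact mul_le_mul_of_nonneg_right (hz n) (abs_nonneg _)
  let T0 : L1 →ₗ[ℝ] Z :=
    { toFun := fun x => ∑' n, x n • z n
      map_add' := by
        intro x y
        rw [← (hs x).tsum_add (hs y)]
        refine tsum_congr fun n => ?_
        rw [lp.coeFn_add, Pi.add_apply, add_smul]
      map_smul' := by
        intro c x
        rw [RingHom.id_apply, ← (hs x).tsum_const_smul]
        refine tsum_congr fun n => ?_
        rw [lp.coeFn_smul, Pi.smul_apply, smul_eq_mul, mul_smul] }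
  refine ⟨T0.mkContinuous C hb, fun n => ?_, fun x => hb x⟩
  change ∑' k, uv n k • z k = z n
  rw [tsum_eq_single n]
  · rw [uv_apply, if_pos rfl, one_smul]
  · intro k hk
    rw [uv_apply, if_neg hk, zero_smul]

end lift

/-- Two operators on `ℓ₁` which agree on the unit vectors are equal. -/
theorem clm_ext {Z : Type*} [NormedAddCommGroup Z] [NormedSpace ℝ Z] {S T : L1 →L[ℝ] Z}
    (h : ∀ n, S (uv n) = T (uv n)) : S = T := by
  ext x
  have h1 := (hasSum_uv x).mapL S
  have h2 := (hasSum_uv x).mapL T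
  simp only [map_smul] at h1 h2
  simp only [h] at h1
  exact h1.unique h2

/-- Coordinatewise limits along an ultrafilter of a bounded family in `ℓ₁`. -/
theorem exists_wlim (U : Ultrafilter ℕ) (x : ℕ → L1) (C : ℝ) (hx : ∀ n, ‖x n‖ ≤ C) :
    ∃ y : L1, ‖y‖ ≤ C ∧ ∀ i, Tendsto (fun n => x n i) U (𝓝 (y i)) := by
  have hC : 0 ≤ C := (norm_nonneg _).trans (hx 0)
  have h1 : ∀ i, ∃ a : ℝ, Tendsto (fun n => x n i) U (𝓝 a) := by
    intro i
    have hK : IsCompact (Set.Icc (-C) C) := isCompact_Icc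
    have h2 : ∀ n, x n i ∈ Set.Icc (-C) C := fun n =>
      abs_le.mp ((coord_le (x n) i).trans (hx n))
    have h5 : ∀ᶠ n in (U : Filter ℕ), x n i ∈ Set.Icc (-C) C := Filter.Eventually.of_forall h2
    have h3 := hK.ultrafilter_le_nhds (U.map fun n => x n i)
      (by
        rw [le_principal_iff]
        exact h5)
    obtain ⟨a, -, ha⟩ := h3
    exact ⟨a, ha⟩
  choose f hf using h1
  obtain ⟨y, hy, hyC⟩ := mk_of_bound hC (f := f) (fun s => by
    have h4 : Tendsto (fun n => ∑ i ∈ s, |x n i|) U (𝓝 (∑ i ∈ s, |f i|)) :=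
      tendsto_finsetSum s fun i _ => (hf i).abs
    refine le_of_tendsto h4 (Filter.Eventually.of_forall fun n => ?_)
    exact (sum_le_hasSum s (fun _ _ => abs_nonneg _) (hasSum_abs (x n))).trans (hx n))
  exact ⟨y, hyC, fun i => by rw [hy]; exact hf i⟩

end Pool.Agent.TH320
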