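import Pool.Agent.W927.BM.Cls

set_option autoImplicit false

/-! # Borel colourings and maximal separated sets of free Borel actions -/

noncomputable section

namespace Pool.Agent.TH320.LC

open MeasureTheory
open Pool.Agent.W927.BM (FreeBorel)

section color

variable {Γ X : Type} [AddGroup Γ] [MeasurableSpace X]

/-- A countable Borel colouring. -/
theorem exists_kappa [StandardBorelSpace X] {a : Γ → X → X} (ha : FreeBorel a) (F : Finset Γ)
    (hF : ∀ g ∈ F, g ≠ 0) : ∃ κ : X → ℕ, Measurable κ ∧ ∀ g ∈ F, ∀ y, κ (a g y) ≠ κ y := by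
  classical
  obtain ⟨φ, hφ⟩ := exists_measurableEmbedding_real X
  obtain ⟨q, hq⟩ := exists_surjective_nat (ℚ × ℚ)
  let U : ℕ → Set X := fun n => φ ⁻¹' Set.Ioo ((q n).1 : ℝ) (q n).2
  have hU : ∀ n, MeasurableSet (U n) := fun n => hφ.measurable measurableSet_Ioo
  have hex : ∀ y, ∃ n, y ∈ U n ∧ ∀ g ∈ F, a g y ∉ U n := by
    intro y
    let S : Set ℝ := (F.image fun g => φ (a g y) : Finset ℝ)
    have hS : IsOpen Sᶜ := (Finset.finite_toSet _).isClosed.isOpen_compl
    have hy : φ y ∈ Sᶜ := by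
      intro h
      obtain ⟨g, hg, hgy⟩ := Finset.mem_image.1 (Finset.mem_coe.1 h)
      exact hF g hg (ha.free g y (hφ.injective hgy))
    obtain ⟨δ, hδ, hball⟩ := Metric.isOpen_iff.1 hS _ hy
    obtain ⟨p, hp1, hp2⟩ := exists_rat_btwn (show φ y - δ < φ y by linarith)
    obtain ⟨r, hr1, hr2⟩ := exists_rat_btwn (show φ y < φ y + δ by linarith)
    obtain ⟨n, hn⟩ := hq (p, r)
    refine ⟨n, ?_, fun g hg h => ?_⟩
    · simp only [U, Set.mem_preimage, Set.mem_Ioo, hn]
      exact ⟨hp2, hr1⟩
    · simp only [U, Set.mem_preimage, Set.mem_Ioo, hn] at h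
      have h2 : φ (a g y) ∈ Sᶜ := hball (by
        rw [Metric.mem_ball, Real.dist_eq, abs_lt]
        constructor <;> linarith [h.1, h.2])
      exact h2 (Finset.mem_coe.2 (Finset.mem_image.2 ⟨g, hg, rfl⟩))
  refine ⟨fun y => Nat.find (hex y), ?_, ?_⟩
  · refine measurable_find hex fun n => ?_
    have : {y | y ∈ U n ∧ ∀ g ∈ F, a g y ∉ U n} = U n ∩ ⋂ g ∈ F, (a g ⁻¹' (U n))ᶜ := by
      ext y; simp
    rw [this]
    exact (hU n).inter (Finset.measurableSet_biInter F fun g _ => (ha.meas g (hU n)).compl)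
  · intro g hg y h
    have h1 := (Nat.find_spec (hex y)).2 g hg
    have h2 := (Nat.find_spec (hex (a g y))).1
    have h' : Nat.find (hex (a g y)) = Nat.find (hex y) := h
    rw [h'] at h2
    exact h1 h2

open Classical in
/-- a colour outside of a finite set -/
def pick {m : ℕ} [NeZero m] (S : Finset (Fin m)) : Fin m :=
  if h : ∃ c, c ∉ S then h.choose else 0

theorem pick_notMem {m : ℕ} [NeZero m] {S : Finset (Fin m)} (h : S.card < m) : pick S ∉ S := by
  have h' : ∃ c, c ∉ S := by
    by_contra hc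
    push Not at hc
    have : S = Finset.univ := Finset.eq_univ_of_forall hc
    rw [this, Finset.card_univ, Fintype.card_fin] at h
    exact lt_irrefl _ h
  unfold pick
  rw [dif_pos h']
  exact h'.choose_spec

/-- A finite Borel colouring. -/
theorem exists_fin_col [StandardBorelSpace X] {a : Γ → X → X} (ha : FreeBorel a) (F : Finset Γ)
    (hF : ∀ g ∈ F, g ≠ 0) (hneg : ∀ g ∈ F, -g ∈ F) :
    ∃ col : X → Fin (F.card + 1), Measurable col ∧ ∀ g ∈ F, ∀ y, col (a g y) ≠ col y := by
  classical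
  obtain ⟨κ, hκm, hκ⟩ := exists_kappa ha F hF
  let m := F.card + 1
  let step : ℕ → (X → Fin m) → X → Fin m := fun n c y =>
    if κ y = n then pick ((F.filter fun g => κ (a g y) < n).image fun g => c (a g y)) else c y
  let C : ℕ → X → Fin m := fun n => Nat.rec (fun _ => 0) (fun n c => step n c) n
  have hC1 : ∀ n y, C (n + 1) y = step n (C n) y := fun n y => rfl
  have hstep : ∀ n (c : X → Fin m), Measurable c → Measurable (step n c) := by
    intro n c hc
    let G : (ℕ × (F → ℕ × Fin m)) × Fin m → Fin m := fun p =>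
      if p.1.1 = n then pick ((F.attach.filter fun g => (p.1.2 g).1 < n).image fun g => (p.1.2 g).2)
        else p.2
    have hG : Measurable G := measurable_of_countable _
    have hD : Measurable fun y => ((κ y, fun g : F => (κ (a g.1 y), c (a g.1 y))), c y) :=
      (hκm.prodMk (measurable_pi_iff.2 fun g =>
        (hκm.comp (ha.meas _)).prodMk (hc.comp (ha.meas _)))).prodMk hc
    have e : step n c = G ∘ fun y => ((κ y, fun g : F => (κ (a g.1 y), c (a g.1 y))), c y) := by
      funext y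
      simp only [step, G, Function.comp]
      congr 2
      ext x
      simp only [Finset.mem_image, Finset.mem_filter, Finset.mem_attach, true_and, Subtype.exists]
      constructor
      · rintro ⟨g, ⟨hg, hlt⟩, rfl⟩
        exact ⟨g, hg, hlt, rfl⟩
      · rintro ⟨g, hg, hlt, rfl⟩
        exact ⟨g, ⟨hg, hlt⟩, rfl⟩
    rw [e]
    exact hG.comp hD
  have hCm : ∀ n, Measurable (C n) := by
    intro n
    induction n with
    | zero => exact measurable_const
    | succ n ih => exact hstep n _ ih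
  have hstab : ∀ n y, κ y < n → C n y = C (κ y + 1) y := by
    intro n y h
    induction n, (show κ y + 1 ≤ n from h) using Nat.le_induction with
    | base => rfl
    | succ n hn ih =>
      rw [hC1, ← ih (by omega)]
      simp only [step]
      rw [if_neg (by omega)]
  refine ⟨fun y => C (κ y + 1) y, ?_, ?_⟩
  · have : Measurable fun p : ℕ × X => C (p.1 + 1) p.2 :=
      measurable_from_prod_countable_right fun n => hCm (n + 1)
    exact this.comp (hκm.prodMk measurable_id)
  · have key : ∀ g ∈ F, ∀ y, κ (a g y) < κ y → C (κ (a g y) + 1) (a g y) ≠ C (κ y + 1) y := by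
      intro g hg y hlt h
      rw [hC1 (κ y) y] at h
      simp only [step, if_true] at h
      have h1 : pick ((F.filter fun g => κ (a g y) < κ y).image fun g => C (κ y) (a g y)) ∉
          ((F.filter fun g => κ (a g y) < κ y).image fun g => C (κ y) (a g y)) := by
        apply pick_notMem
        refine lt_of_le_of_lt Finset.card_image_le ?_
        exact Nat.lt_succ_of_le (Finset.card_filter_le _ _)
      apply h1
      rw [← h, ← hstab (κ y) (a g y) hlt]
      exact Finset.mem_image.2 ⟨g, Finset.mem_filter.2 ⟨hg, hlt⟩, rfl⟩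
    intro g hg y
    rcases lt_trichotomy (κ (a g y)) (κ y) with h | h | h
    · exact key g hg y h
    · exact absurd h (hκ g hg y)
    · have e : a (-g) (a g y) = y := by rw [← ha.add, neg_add_cancel, ha.zero]
      have := key (-g) (hneg g hg) (a g y) (by rw [e]; exact h)
      rw [e] at this
      exact this.symm

end color

/-! ## boxes -/

/-- the box of radius `m` in `ℤ²` -/
def Box (m : ℤ) : Finset (ℤ × ℤ) := Finset.Icc (-m) m ×ˢ Finset.Icc (-m) m

theorem mem_Box {m : ℤ} {g : ℤ × ℤ} :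
    g ∈ Box m ↔ (-m ≤ g.1 ∧ g.1 ≤ m) ∧ (-m ≤ g.2 ∧ g.2 ≤ m) := by
  simp [Box]

theorem neg_mem_Box {m : ℤ} {g : ℤ × ℤ} : -g ∈ Box m ↔ g ∈ Box m := by
  simp only [mem_Box, Prod.fst_neg, Prod.snd_neg]
  omega

theorem zero_mem_Box {m : ℤ} (h : 0 ≤ m) : (0 : ℤ × ℤ) ∈ Box m := by
  simp only [mem_Box, Prod.fst_zero, Prod.snd_zero]
  omega

section sep

variable {X : Type} [MeasurableSpace X]

/-- `C` is a maximal `M`-separated Borel set. -/
structure MaxSep (T : ℤ × ℤ → X → X) (M : ℤ) (C : Set X) : Prop where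
  meas : MeasurableSet C
  sep : ∀ y ∈ C, ∀ g ∈ Box M, T g y ∈ C → g = 0
  cov : ∀ y, ∃ g ∈ Box M, T g y ∈ C

theorem exists_maxSep [StandardBorelSpace X] {T : ℤ × ℤ → X → X} (ha : FreeBorel T) {M : ℤ}
    (hM : 0 ≤ M) : ∃ C, MaxSep T M C := by
  classical
  obtain ⟨κ, hκm, hκ⟩ := exists_kappa ha ((Box M).erase 0) (fun g hg => (Finset.mem_erase.1 hg).1)
  let C : ℕ → Set X := fun n => Nat.rec ∅ (fun n A => A ∪ {y | κ y = n ∧ ∀ g ∈ Box M, T g y ∉ A}) n
  have hC1 : ∀ n, C (n + 1) = C n ∪ {y | κ y = n ∧ ∀ g ∈ Box M, T g y ∉ C n} := fun n => rfl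
  have hmono : ∀ m n, m ≤ n → C m ⊆ C n := by
    intro m n h
    induction n, h using Nat.le_induction with
    | base => exact subset_rfl
    | succ n hn ih =>
      rw [hC1]
      exact ih.trans Set.subset_union_left
  have hCm : ∀ n, MeasurableSet (C n) := by
    intro n
    induction n with
    | zero => exact MeasurableSet.empty
    | succ n ih =>
      rw [hC1]
      refine ih.union ?_
      have : {y | κ y = n ∧ ∀ g ∈ Box M, T g y ∉ C n} =
          (κ ⁻¹' {n}) ∩ ⋂ g ∈ Box M, (T g ⁻¹' (C n))ᶜ := by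
        ext y; simp
      rw [this]
      exact (hκm (measurableSet_singleton n)).inter
        (Finset.measurableSet_biInter _ fun g _ => (ha.meas g ih).compl)
  -- entering stage
  have hent : ∀ n y, y ∈ C n → κ y < n ∧ ∀ g ∈ Box M, T g y ∉ C (κ y) := by
    intro n
    induction n with
    | zero => intro y hy; exact absurd hy (Set.notMem_empty y)
    | succ n ih =>
      intro y hy
      rw [hC1] at hy
      rcases hy with hy | ⟨h1, h2⟩
      · exact ⟨(ih y hy).1.trans (Nat.lt_succ_self n), (ih y hy).2⟩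
      · subst h1
        exact ⟨Nat.lt_succ_self _, h2⟩
  have hin : ∀ n y, y ∈ C n → y ∈ C (κ y + 1) := by
    intro n y hy
    rw [hC1]
    exact Or.inr ⟨rfl, (hent n y hy).2⟩
  refine ⟨⋃ n, C n, MeasurableSet.iUnion hCm, ?_, ?_⟩
  · have key : ∀ y g, g ∈ Box M → y ∈ ⋃ n, C n → T g y ∈ ⋃ n, C n → ¬ κ (T g y) < κ y := by
      intro y g hg hy hgy hlt
      obtain ⟨n, hn⟩ := Set.mem_iUnion.1 hy
      obtain ⟨m, hm⟩ := Set.mem_iUnion.1 hgy
      exact (hent n y hn).2 g hg (hmono _ _ hlt (hin m _ hm))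
    intro y hy g hg hgy
    by_contra hne
    have h1 := hκ g (Finset.mem_erase.2 ⟨hne, hg⟩) y
    have h2 := key y g hg hy hgy
    have e : T (-g) (T g y) = y := by rw [← ha.add, neg_add_cancel, ha.zero]
    have h3 := key (T g y) (-g) (neg_mem_Box.2 hg) hgy (by rw [e]; exact hy)
    rw [e] at h3
    omega
  · intro y
    rcases Classical.em (∃ g ∈ Box M, T g y ∈ C (κ y)) with h | h
    · obtain ⟨g, hg, hgy⟩ := h
      exact ⟨g, hg, Set.mem_iUnion.2 ⟨_, hgy⟩⟩
    · push Not at h
      refine ⟨0, zero_mem_Box hM, ?_⟩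
      rw [ha.zero]
      refine Set.mem_iUnion.2 ⟨κ y + 1, ?_⟩
      rw [hC1]
      exact Or.inr ⟨rfl, h⟩

/-- translates of maximal separated sets -/
theorem MaxSep.translate {T : ℤ × ℤ → X → X} (ha : FreeBorel T) {M : ℤ} {C : Set X}
    (h : MaxSep T M C) (v : ℤ × ℤ) : MaxSep T M (T v ⁻¹' C) := by
  refine ⟨ha.meas v h.meas, ?_, ?_⟩
  · intro y hy g hg hgy
    refine h.sep (T v y) hy g hg ?_
    have e : T g (T v y) = T v (T g y) := by rw [← ha.add, ← ha.add, add_comm]
    rw [e]; exact hgy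
  · intro y
    obtain ⟨g, hg, hgy⟩ := h.cov (T v y)
    refine ⟨g, hg, ?_⟩
    have e : T g (T v y) = T v (T g y) := by rw [← ha.add, ← ha.add, add_comm]
    rw [e] at hgy
    exact hgy

end sep

end Pool.Agent.TH320.LC
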