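import Pool.Agent.TH320.LHier
import Pool.Agent.W927.BM.Own

set_option autoImplicit false

/-! # The free part of `2^{ℤ^d}` as a Polish space with a free Borel action -/

noncomputable section

namespace Pool.Agent.TH320.LC

open MeasureTheory Topology
open scoped ENNReal
open Pool.Agent.W927.BM (FreeBorel emb emb_add emb_zero emb_eq_zero)
open Pool.Agent.W927 (Conf shift FreePart)

theorem polish_of_iInter {X ι : Type} [TopologicalSpace X] [PolishSpace X] [Countable ι]
    (U : ι → Set X) (hU : ∀ i, IsOpen (U i)) (p : X → Prop) (hp : ∀ x, p x ↔ ∀ i, x ∈ U i) :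
    PolishSpace {x : X // p x} := by
  have hPU : ∀ i, PolishSpace (U i) := fun i => (hU i).polishSpace
  let f : {x : X // p x} → X × ((i : ι) → U i) := fun y => (y.1, fun i => ⟨y.1, (hp y.1).1 y.2 i⟩)
  have hf : Continuous f :=
    continuous_subtype_val.prodMk (continuous_pi fun i => continuous_subtype_val.subtype_mk _)
  have hemb : IsEmbedding f :=
    IsEmbedding.of_comp hf continuous_fst (by exact IsEmbedding.subtypeVal)
  have hcl : IsClosed (Set.range f) := by
    have : Set.range f = ⋂ i : ι, {q : X × ((i : ι) → U i) | ((q.2 i : U i) : X) = q.1} := by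
      ext q
      simp only [Set.mem_range, Set.mem_iInter, Set.mem_ofPred_eq]
      constructor
      · rintro ⟨y, rfl⟩ i
        rfl
      · intro h
        refine ⟨⟨q.1, (hp q.1).2 fun i => by rw [← h i]; exact (q.2 i).2⟩, ?_⟩
        refine Prod.ext rfl (funext fun i => Subtype.ext ?_)
        exact (h i).symm
    rw [this]
    refine isClosed_iInter fun i => isClosed_eq ?_ continuous_fst
    exact continuous_subtype_val.comp ((continuous_apply i).comp continuous_snd)
  exact (IsClosedEmbedding.mk hemb hcl).polishSpace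

variable {d : ℕ}

theorem continuous_shift {A : Type} [TopologicalSpace A] (g : Fin d → ℤ) :
    Continuous (shift g : Conf d A → Conf d A) :=
  continuous_pi fun _ => continuous_apply _

instance polishConf (d : ℕ) : PolishSpace (Conf d Bool) := ⟨⟩

instance polishFree (d : ℕ) : PolishSpace (FreePart d) := by
  refine polish_of_iInter (ι := {g : Fin d → ℤ // g ≠ 0})
    (fun g => {x : Conf d Bool | shift g.1 x ≠ x}) ?_ _ ?_
  · intro g
    exact isOpen_ne_fun (continuous_shift _) continuous_id
  · intro x
    constructor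
    · intro h g
      exact h g.1 g.2
    · intro h g hg
      exact h ⟨g, hg⟩

instance borelFree (d : ℕ) : BorelSpace (FreePart d) := Subtype.borelSpace _

theorem shift_shift {A : Type} (g h : Fin d → ℤ) (x : Conf d A) :
    shift g (shift h x) = shift (g + h) x := by
  funext k
  simp only [shift]
  rw [add_assoc]

/-- The action on the free part. -/
def act (g : Fin d → ℤ) (x : FreePart d) : FreePart d :=
  ⟨shift g x.1, fun h hh he => x.2 h hh (by
    have h1 : shift (-g) (shift h (shift g x.1)) = shift (-g) (shift g x.1) := by rw [he]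
    rw [shift_shift, shift_shift, shift_shift, neg_add_cancel,
      show -g + h + g = h by abel] at h1
    have h2 : shift (0 : Fin d → ℤ) x.1 = x.1 := by funext k; simp [shift]
    rwa [h2] at h1)⟩

theorem act_val (g : Fin d → ℤ) (x : FreePart d) : (act g x).1 = shift g x.1 := rfl

theorem act_zero (x : FreePart d) : act 0 x = x := by
  apply Subtype.ext
  funext k
  simp [act_val, shift]

theorem act_add (g h : Fin d → ℤ) (x : FreePart d) : act (g + h) x = act g (act h x) := by
  apply Subtype.ext
  rw [act_val, act_val, act_val, shift_shift]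

theorem continuous_act (g : Fin d → ℤ) : Continuous (act g : FreePart d → FreePart d) :=
  ((continuous_shift g).comp continuous_subtype_val).subtype_mk _

/-- the action by homeomorphisms -/
def actHomeo (g : Fin d → ℤ) : FreePart d ≃ₜ FreePart d where
  toFun := act g
  invFun := act (-g)
  left_inv x := by rw [← act_add, neg_add_cancel, act_zero]
  right_inv x := by rw [← act_add, add_neg_cancel, act_zero]
  continuous_toFun := continuous_act g
  continuous_invFun := continuous_act (-g)

theorem freeBorel_act (d : ℕ) : FreeBorel (act : (Fin d → ℤ) → FreePart d → FreePart d) where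
  zero := act_zero
  add := act_add
  meas g := (continuous_act g).measurable
  free g x h := by
    by_contra hg
    exact x.2 g hg (congrArg Subtype.val h)

/-- the plane action -/
theorem freeBorel_plane {X : Type} [MeasurableSpace X] {a : (Fin d → ℤ) → X → X}
    (ha : FreeBorel a) (hd : 2 ≤ d) :
    FreeBorel (fun (p : ℤ × ℤ) => a (emb hd p.1 p.2)) where
  zero x := by
    change a (emb hd 0 0) x = x
    rw [emb_zero, ha.zero]
  add g h x := by
    change a (emb hd (g.1 + h.1) (g.2 + h.2)) x = _
    rw [emb_add, ha.add]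
  meas g := ha.meas _
  free g x h := by
    have := emb_eq_zero hd (ha.free _ _ h)
    exact Prod.ext this.1 this.2

/-- A probability measure has a dominating quasi-invariant version: the null sets of `ν` are null
for all translates of `μ`. -/
theorem exists_quasi {X Γ : Type} [MeasurableSpace X] [AddGroup Γ] [Countable Γ]
    {a : Γ → X → X} (ha : FreeBorel a) (μ : Measure X) [IsProbabilityMeasure μ] :
    ∃ ν : Measure X, IsProbabilityMeasure ν ∧ ∀ S : Set X, MeasurableSet S → ν S = 0 →
      ∀ g, μ (a g ⁻¹' S) = 0 := by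
  have hp : ∀ g, IsProbabilityMeasure (μ.map (a g)) := fun g =>
    Measure.isProbabilityMeasure_map (ha.meas g).aemeasurable
  let σ : Measure X := Measure.sum fun g : Γ => μ.map (a g)
  have h0 : σ ≠ 0 := by
    intro h
    have h1 : σ Set.univ = 0 := by rw [h]; simp
    rw [Measure.sum_apply _ MeasurableSet.univ, ENNReal.tsum_eq_zero] at h1
    have := h1 0
    rw [measure_univ] at this
    exact one_ne_zero this
  have _ : NeZero σ := ⟨h0⟩
  refine ⟨σ.toFinite, inferInstance, fun S hS hν g => ?_⟩
  rw [toFinite_apply_eq_zero_iff, Measure.sum_apply _ hS, ENNReal.tsum_eq_zero] at hν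
  have := hν g
  rwa [Measure.map_apply (ha.meas g) hS] at this

/-- The measurable labelling. -/
theorem exists_meas_lab (hd : 2 ≤ d) {X : Type} [MeasurableSpace X] [StandardBorelSpace X]
    {a : (Fin d → ℤ) → X → X} (ha : FreeBorel a) (μ : Measure X) [IsProbabilityMeasure μ] :
    ∃ (f : X → Pool.Agent.W927.Lab) (Y : Set X), (∀ A, MeasurableSet (f ⁻¹' A)) ∧
      MeasurableSet Y ∧ (∀ g y, y ∈ Y → a g y ∈ Y) ∧ μ Yᶜ = 0 ∧
      ∀ y ∈ Y, Pool.Agent.W927.RuleB (emb hd 1 0) (emb hd 0 1) (fun h => f (a h y)) := by
  obtain ⟨ν, hν, hνn⟩ := exists_quasi ha μ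
  let T : ℤ × ℤ → X → X := fun p => a (emb hd p.1 p.2)
  have hT : FreeBorel T := freeBorel_plane ha hd
  obtain ⟨F, hF⟩ := exists_fam hT ν
  let Z : Set X := {y | ∀ g, F.Cov (T g y)}
  have hZm : MeasurableSet Z := by
    have : Z = ⋂ g, T g ⁻¹' {y | F.Cov y} := by
      ext y; simp [Z]
    rw [this]
    exact MeasurableSet.iInter fun g => hT.meas g (F.meas_Cov hT)
  have hZ : ν Zᶜ = 0 := hF
  refine ⟨F.lab, ⋂ g, a g ⁻¹' Z, F.meas_lab hT, MeasurableSet.iInter fun g => ha.meas g hZm,
    ?_, ?_, ?_⟩
  · intro g y hy
    simp only [Set.mem_iInter, Set.mem_preimage] at hy ⊢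
    intro h
    rw [← ha.add]
    exact hy _
  · rw [Set.compl_iInter]
    refine measure_iUnion_null fun g => ?_
    exact hνn Zᶜ hZm.compl hZ g
  · intro y hy
    simp only [Set.mem_iInter, Set.mem_preimage] at hy
    have h0 : y ∈ Z := by have := hy 0; rwa [ha.zero] at this
    have h1 := F.rule hT h0
    have e1 : -emb hd 1 0 = emb hd (-1) 0 := by
      unfold Pool.Agent.W927.BM.emb
      rw [neg_add, ← Pi.single_neg, ← Pi.single_neg, neg_zero]
    have e2 : -emb hd 0 1 = emb hd 0 (-1) := by
      unfold Pool.Agent.W927.BM.emb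
      rw [neg_add, ← Pi.single_neg, ← Pi.single_neg, neg_zero]
    simp only [Pool.Agent.W927.RuleB, e1, e2, ha.zero]
    exact h1

end Pool.Agent.TH320.LC
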