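import Pool.Agent.TH320.LTile
import Pool.Agent.W927.Code

set_option autoImplicit false

/-! # Nested squares and the measurable labelling -/

noncomputable section

namespace Pool.Agent.TH320.LC

open MeasureTheory
open scoped ENNReal
open Pool.Agent.W927.BM (FreeBorel)
open Pool.Agent.W927 (HL VL ML okV)

section hier

variable {X : Type} [MeasurableSpace X] {T : ℤ × ℤ → X → X}

/-- A family of nested squares: `E k` are the centres of the squares of level `k`, of radius `n k`. -/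
structure Fam (T : ℤ × ℤ → X → X) where
  n : ℕ → ℕ
  E : ℕ → Set X
  meas : ∀ k, MeasurableSet (E k)
  sep : ∀ k, ∀ w ∈ E k, ∀ v ∈ Box (2 * n k + 4), T v w ∈ E k → v = 0
  nest : ∀ k m, k < m → ∀ w ∈ E k, ∀ v ∈ Box ((n m : ℤ) + n k + 2), T v w ∈ E m →
    v ∈ Box ((n m : ℤ) - n k - 3)

/-- `y` is in a square of level `k` -/
def Fam.In (F : Fam T) (k : ℕ) (y : X) : Prop := ∃ h ∈ Box (F.n k), T h y ∈ F.E k

/-- `y` is in some square -/
def Fam.Cov (F : Fam T) (y : X) : Prop := ∃ k, F.In k y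

theorem Fam.meas_In (ha : FreeBorel T) (F : Fam T) (k : ℕ) : MeasurableSet {y | F.In k y} := by
  have : {y | F.In k y} = ⋃ h ∈ Box (F.n k), T h ⁻¹' (F.E k) := by
    ext y
    simp only [Fam.In, Set.mem_ofPred_eq, Set.mem_iUnion, Set.mem_preimage, exists_prop]
  rw [this]
  exact Finset.measurableSet_biUnion _ fun h _ => ha.meas h (F.meas k)

theorem Fam.meas_Cov (ha : FreeBorel T) (F : Fam T) : MeasurableSet {y | F.Cov y} := by
  have : {y | F.Cov y} = ⋃ k, {y | F.In k y} := by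
    ext y
    simp only [Fam.Cov, Set.mem_ofPred_eq, Set.mem_iUnion]
  rw [this]
  exact MeasurableSet.iUnion fun k => F.meas_In ha k

theorem Fam.lev_ex (F : Fam T) (y : X) : ∃ k, F.In k y ∨ ¬ F.Cov y := by
  by_cases h : F.Cov y
  · obtain ⟨k, hk⟩ := h
    exact ⟨k, Or.inl hk⟩
  · exact ⟨0, Or.inr h⟩

open Classical in
/-- the level of the innermost square of `y` -/
def Fam.lev (F : Fam T) (y : X) : ℕ := Nat.find (F.lev_ex y)

theorem Fam.meas_lev (ha : FreeBorel T) (F : Fam T) : Measurable F.lev := by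
  classical
  unfold Fam.lev
  refine measurable_find _ fun k => ?_
  exact (F.meas_In ha k).union (F.meas_Cov ha).compl

theorem Fam.lev_in (F : Fam T) {y : X} (h : F.Cov y) : F.In (F.lev y) y := by
  classical
  have := Nat.find_spec (F.lev_ex y)
  rcases this with h1 | h1
  · exact h1
  · exact absurd h h1

theorem Fam.lev_le (F : Fam T) {y : X} {k : ℕ} (h : F.In k y) : F.lev y ≤ k := by
  classical
  exact Nat.find_min' (F.lev_ex y) (Or.inl h)

/-- the colour of `y` -/
def Fam.colP (F : Fam T) (y : X) : Prop :=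
  ∃ k, F.lev y = k ∧ ∃ h ∈ Box (F.n k), T h y ∈ F.E k ∧ (h.1 + h.2) % 2 = 0

theorem Fam.meas_colP (ha : FreeBorel T) (F : Fam T) : MeasurableSet {y | F.colP y} := by
  have : {y | F.colP y} = ⋃ k, ((F.lev ⁻¹' {k}) ∩
      ⋃ h ∈ (Box (F.n k)).filter fun h => (h.1 + h.2) % 2 = 0, T h ⁻¹' (F.E k)) := by
    ext y
    simp only [Fam.colP, Set.mem_ofPred_eq, Set.mem_iUnion, Set.mem_inter_iff, Set.mem_preimage,
      Set.mem_singleton_iff, Finset.mem_filter, exists_prop]
    refine exists_congr fun k => and_congr Iff.rfl (exists_congr fun h => ?_)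
    tauto
  rw [this]
  exact MeasurableSet.iUnion fun k => (F.meas_lev ha (measurableSet_singleton k)).inter
    (Finset.measurableSet_biUnion _ fun h _ => ha.meas h (F.meas k))

theorem add_mem_Box {m m' : ℤ} {g h : ℤ × ℤ} (hg : g ∈ Box m) (hh : h ∈ Box m') :
    g + h ∈ Box (m + m') := by
  rw [mem_Box] at *
  simp only [Prod.fst_add, Prod.snd_add]
  omega

theorem sub_mem_Box {m m' : ℤ} {g h : ℤ × ℤ} (hg : g ∈ Box m) (hh : h ∈ Box m') :
    g - h ∈ Box (m + m') := by
  rw [mem_Box] at *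
  simp only [Prod.fst_sub, Prod.snd_sub]
  omega

theorem Box_mono {m m' : ℤ} (h : m ≤ m') {g : ℤ × ℤ} (hg : g ∈ Box m) : g ∈ Box m' := by
  rw [mem_Box] at *
  omega

/-- two cells of the same level at distance at most one are in the same square -/
theorem Fam.same (ha : FreeBorel T) (F : Fam T) {y : X} {c c' h h' : ℤ × ℤ} {k : ℕ}
    (hc : c - c' ∈ Box 1) (hh : h ∈ Box (F.n k)) (hE : T (c + h) y ∈ F.E k)
    (hh' : h' ∈ Box (F.n k)) (hE' : T (c' + h') y ∈ F.E k) : c + h = c' + h' := by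
  have h1 : T ((c' + h') - (c + h)) (T (c + h) y) ∈ F.E k := by
    rw [← ha.add, sub_add_cancel]; exact hE'
  have h2 : (c' + h') - (c + h) ∈ Box (2 * F.n k + 4) := by
    have e : (c' + h') - (c + h) = (h' - h) - (c - c') := by abel
    rw [e]
    exact Box_mono (by omega) (sub_mem_Box (sub_mem_Box hh' hh) hc)
  exact (sub_eq_zero.1 (F.sep k _ hE _ h2 h1)).symm

/-- The levels of the four cells around a vertex. -/
theorem Fam.block (ha : FreeBorel T) (F : Fam T) {y : X} (hy : ∀ g, F.Cov (T g y)) :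
    ∃ (k j : ℕ) (a b : ℤ → Prop), k < j ∧ ∀ c : ℤ × ℤ, -1 ≤ c.1 → c.1 ≤ 0 → -1 ≤ c.2 → c.2 ≤ 0 →
      ((a c.1 ∧ b c.2) → F.lev (T c y) = k) ∧ (¬ (a c.1 ∧ b c.2) → F.lev (T c y) = j) := by
  classical
  let S : Finset (ℤ × ℤ) := Finset.Icc (-1 : ℤ) 0 ×ˢ Finset.Icc (-1 : ℤ) 0
  have hS : ∀ c : ℤ × ℤ, c ∈ S ↔ (-1 ≤ c.1 ∧ c.1 ≤ 0) ∧ (-1 ≤ c.2 ∧ c.2 ≤ 0) := by
    intro c; simp [S]
  have hSd : ∀ c ∈ S, ∀ c' ∈ S, c - c' ∈ Box 1 := by
    intro c hc c' hc'
    rw [hS] at hc hc'
    rw [mem_Box]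
    simp only [Prod.fst_sub, Prod.snd_sub]
    omega
  obtain ⟨c0, hc0, hmin⟩ := Finset.exists_min_image S (fun c => F.lev (T c y))
    ⟨(0, 0), by rw [hS]; norm_num⟩
  set k := F.lev (T c0 y) with hk
  obtain ⟨h0, hh0, hE0⟩ := F.lev_in (hy c0)
  rw [← ha.add, add_comm h0 c0] at hE0
  rw [← hk] at hh0 hE0
  -- the square
  set w := c0 + h0 with hw
  have hQ : ∀ c ∈ S, (w - c ∈ Box (F.n k) ↔ F.lev (T c y) = k) := by
    intro c hc
    constructor
    · intro h
      refine le_antisymm (F.lev_le ⟨w - c, h, ?_⟩) (hmin c hc)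
      rw [← ha.add, sub_add_cancel]
      exact hE0
    · intro h
      obtain ⟨h1, hh1, hE1⟩ := F.lev_in (hy c)
      rw [← ha.add, add_comm h1 c] at hE1
      rw [h] at hh1 hE1
      have := F.same ha (hSd c hc c0 hc0) hh1 hE1 hh0 hE0
      rw [hw, ← this, add_sub_cancel_left]
      exact hh1
  have hout : ∀ c ∈ S, ∀ c' ∈ S, w - c ∉ Box (F.n k) → w - c' ∉ Box (F.n k) →
      ¬ F.lev (T c y) < F.lev (T c' y) := by
    intro c hc c' hc' h1 h2 hlt
    obtain ⟨h3, hh3, hE3⟩ := F.lev_in (hy c)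
    rw [← ha.add, add_comm h3 c] at hE3
    set j := F.lev (T c y) with hj
    have hkj : k < j := lt_of_le_of_ne (hmin c hc) (fun h => h1 ((hQ c hc).2 (by rw [← hj, ← h])))
    have e1 : T ((c + h3) - w) (T w y) ∈ F.E j := by
      rw [← ha.add, sub_add_cancel]; exact hE3
    have h4 := F.nest k j hkj (T w y) hE0 ((c + h3) - w) (by
      have e : (c + h3) - w = (h3 - h0) + (c - c0) := by rw [hw]; abel
      rw [e]
      exact Box_mono (by omega) (add_mem_Box (sub_mem_Box hh3 hh0) (hSd c hc c0 hc0))) e1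
    have h5 : F.In j (T c' y) := by
      refine ⟨(c + h3) - c', ?_, by rw [← ha.add, sub_add_cancel]; exact hE3⟩
      have e : (c + h3) - c' = ((c + h3) - w) + h0 + (c0 - c') := by rw [hw]; abel
      rw [e]
      exact Box_mono (by omega) (add_mem_Box (add_mem_Box h4 hh0) (hSd c0 hc0 c' hc'))
    have := F.lev_le h5
    omega
  have hprod : ∀ c : ℤ × ℤ, (w - c ∈ Box (F.n k) ↔
      ((-(F.n k : ℤ) ≤ w.1 - c.1 ∧ w.1 - c.1 ≤ F.n k) ∧
        (-(F.n k : ℤ) ≤ w.2 - c.2 ∧ w.2 - c.2 ≤ F.n k))) := by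
    intro c
    rw [mem_Box]
    rfl
  by_cases hall : ∃ c ∈ S, w - c ∉ Box (F.n k)
  · obtain ⟨c1, hc1, hn1⟩ := hall
    refine ⟨k, F.lev (T c1 y), fun x => -(F.n k : ℤ) ≤ w.1 - x ∧ w.1 - x ≤ F.n k,
      fun x => -(F.n k : ℤ) ≤ w.2 - x ∧ w.2 - x ≤ F.n k, ?_, ?_⟩
    · refine lt_of_le_of_ne (hmin c1 hc1) (fun h => hn1 ((hQ c1 hc1).2 h.symm))
    · intro c g1 g2 g3 g4
      have hcS : c ∈ S := (hS c).2 ⟨⟨g1, g2⟩, g3, g4⟩
      rw [← hprod c]
      refine ⟨fun h => (hQ c hcS).1 h, fun h => ?_⟩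
      have a1 := hout c hcS c1 hc1 h hn1
      have a2 := hout c1 hc1 c hcS hn1 h
      omega
  · push Not at hall
    refine ⟨k, k + 1, fun _ => True, fun _ => True, Nat.lt_succ_self k, ?_⟩
    intro c g1 g2 g3 g4
    have hcS : c ∈ S := (hS c).2 ⟨⟨g1, g2⟩, g3, g4⟩
    exact ⟨fun _ => (hQ c hcS).1 (hall c hcS), fun h => absurd ⟨trivial, trivial⟩ h⟩

/-- label of a horizontal edge from the levels above and below -/
def hl (u l : ℕ) : HL := if u = l then .n else if u < l then .b else .t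

/-- label of a vertical edge from the levels on the right and on the left -/
def vl (r l : ℕ) : VL := if r = l then .n else if r < l then .l else .r

theorem hl_self (k : ℕ) : hl k k = .n := by simp [hl]
theorem hl_lt {k j : ℕ} (h : k < j) : hl k j = .b := by simp [hl, h, h.ne]
theorem hl_gt {k j : ℕ} (h : k < j) : hl j k = .t := by
  simp [hl, h.ne', show ¬ j < k by omega]
theorem vl_self (k : ℕ) : vl k k = .n := by simp [vl]
theorem vl_lt {k j : ℕ} (h : k < j) : vl k j = .l := by simp [vl, h, h.ne]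
theorem vl_gt {k j : ℕ} (h : k < j) : vl j k = .r := by
  simp [vl, h.ne', show ¬ j < k by omega]

/-- the vertex rule -/
theorem Fam.vertex (ha : FreeBorel T) (F : Fam T) {y : X} (hy : ∀ g, F.Cov (T g y)) :
    okV (hl (F.lev (T (-1, 0) y)) (F.lev (T (-1, -1) y)))
      (hl (F.lev (T (0, 0) y)) (F.lev (T (0, -1) y)))
      (vl (F.lev (T (0, -1) y)) (F.lev (T (-1, -1) y)))
      (vl (F.lev (T (0, 0) y)) (F.lev (T (-1, 0) y))) := by
  classical
  obtain ⟨k, j, a, b, hkj, h⟩ := F.block ha hy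
  have h00 := h (0, 0) (by norm_num) (by norm_num) (by norm_num) (by norm_num)
  have h10 := h (-1, 0) (by norm_num) (by norm_num) (by norm_num) (by norm_num)
  have h01 := h (0, -1) (by norm_num) (by norm_num) (by norm_num) (by norm_num)
  have h11 := h (-1, -1) (by norm_num) (by norm_num) (by norm_num) (by norm_num)
  simp only at h00 h10 h01 h11
  by_cases a0 : a 0 <;> by_cases a1 : a (-1) <;> by_cases b0 : b 0 <;> by_cases b1 : b (-1) <;>
    simp only [a0, a1, b0, b1, and_true, and_false, true_and, not_true_eq_false,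
      not_false_eq_true, IsEmpty.forall_iff, forall_const, and_self] at h00 h10 h01 h11 <;>
    rw [h00, h10, h01, h11] <;>
    simp only [hl_self, vl_self, hl_lt hkj, hl_gt hkj, vl_lt hkj, vl_gt hkj] <;> decide

/-- colours alternate inside of a square -/
theorem Fam.colour (ha : FreeBorel T) (F : Fam T) {y : X} (hy : ∀ g, F.Cov (T g y))
    {e : ℤ × ℤ} (he : e ∈ Box 1) (he2 : (e.1 + e.2) % 2 = 1) (hl : F.lev y = F.lev (T (-e) y)) :
    F.colP y ↔ ¬ F.colP (T (-e) y) := by
  have hcov0 : F.Cov y := by have := hy 0; rwa [ha.zero] at this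
  obtain ⟨h0, hh0, hE0⟩ := F.lev_in hcov0
  obtain ⟨h1, hh1, hE1⟩ := F.lev_in (hy (-e))
  rw [← ha.add] at hE1
  rw [← hl] at hh1 hE1
  -- uniqueness of the centres
  have key : ∀ h h' : ℤ × ℤ, h ∈ Box (F.n (F.lev y)) → T h y ∈ F.E (F.lev y) →
      h' ∈ Box (F.n (F.lev y)) → T h' (T (-e) y) ∈ F.E (F.lev y) → h' = h + e := by
    intro h h' a1 a2 a3 a4
    rw [← ha.add] at a4
    have := F.same ha (y := y) (c := 0) (c' := -e) (h := h) (h' := h') (k := F.lev y)
      (by simpa using he) a1 (by simpa using a2) a3 (by rwa [add_comm] at a4)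
    rw [zero_add] at this
    rw [this]; abel
  have keye : h1 = h0 + e := key h0 h1 hh0 hE0 hh1 (by rw [← ha.add]; exact hE1)
  constructor
  · rintro ⟨k, hk, h, hh, hE, hpar⟩ ⟨k', hk', h', hh', hE', hpar'⟩
    rw [← hl] at hk'
    subst hk
    subst hk'
    have := key h h' hh hE hh' hE'
    rw [this] at hpar'
    simp only [Prod.fst_add, Prod.snd_add] at hpar'
    omega
  · intro hn
    refine ⟨_, rfl, h0, hh0, hE0, ?_⟩
    by_contra hodd
    apply hn
    refine ⟨F.lev y, hl.symm, h1, hh1, by rw [← ha.add]; exact hE1, ?_⟩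
    rw [keye]
    simp only [Prod.fst_add, Prod.snd_add]
    omega

open Classical in
/-- The labelling of a family. -/
def Fam.lab (F : Fam T) (y : X) : Pool.Agent.W927.Lab :=
  (hl (F.lev y) (F.lev (T (0, -1) y)), vl (F.lev y) (F.lev (T (-1, 0) y)), decide (F.colP y), .n)

theorem Fam.meas_lab (ha : FreeBorel T) (F : Fam T) (A : Set Pool.Agent.W927.Lab) :
    MeasurableSet (F.lab ⁻¹' A) := by
  classical
  let _ : MeasurableSpace Pool.Agent.W927.Lab := ⊤
  have _ : DiscreteMeasurableSpace Pool.Agent.W927.Lab := ⟨fun _ => trivial⟩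
  have h1 : Measurable fun y => decide (F.colP y) := by
    refine measurable_to_bool ?_
    convert F.meas_colP ha using 1
    ext y
    simp
  have h2 : Measurable fun y => (F.lev y, F.lev (T (0, -1) y), F.lev (T (-1, 0) y),
      decide (F.colP y)) :=
    (F.meas_lev ha).prodMk (((F.meas_lev ha).comp (ha.meas _)).prodMk
      (((F.meas_lev ha).comp (ha.meas _)).prodMk h1))
  have h3 : Measurable fun p : ℕ × ℕ × ℕ × Bool =>
      ((hl p.1 p.2.1, vl p.1 p.2.2.1, p.2.2.2, .n) : Pool.Agent.W927.Lab) :=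
    measurable_of_countable _
  exact (h3.comp h2) (MeasurableSet.of_discrete (s := A))

/-- The rule holds at all points whose plane is covered. -/
theorem Fam.rule (ha : FreeBorel T) (F : Fam T) {y : X} (hy : ∀ g, F.Cov (T g y)) :
    okV (F.lab (T (-1, 0) y)).1 (F.lab y).1 (F.lab (T (0, -1) y)).2.1 (F.lab y).2.1 ∧
    ((F.lab y).2.1 = .n → (F.lab y).2.2.1 = !(F.lab (T (-1, 0) y)).2.2.1) ∧
    ((F.lab y).1 = .n → (F.lab y).2.2.1 = !(F.lab (T (0, -1) y)).2.2.1) := by
  classical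
  refine ⟨?_, ?_, ?_⟩
  · have h := F.vertex ha hy
    have e0 : T (0, 0) y = y := ha.zero y
    have e1 : T (0, -1) (T (-1, 0) y) = T (-1, -1) y := by rw [← ha.add]; rfl
    have e2 : T (-1, 0) (T (0, -1) y) = T (-1, -1) y := by rw [← ha.add]; rfl
    rw [e0] at h
    simp only [Fam.lab, e1, e2]
    exact h
  · intro h
    have h1 : F.lev y = F.lev (T (-1, 0) y) := by
      by_contra hne
      rcases lt_or_gt_of_ne hne with h2 | h2
      · simp only [Fam.lab, vl_lt h2] at h
        exact absurd h (by decide)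
      · simp only [Fam.lab, vl_gt h2] at h
        exact absurd h (by decide)
    have h2 := F.colour ha hy (e := (1, 0)) (by rw [mem_Box]; norm_num) (by norm_num) h1
    have e : (-(1, 0) : ℤ × ℤ) = (-1, 0) := rfl
    rw [e] at h2
    simp only [Fam.lab]
    by_cases h3 : F.colP y
    · simp [h3, h2.1 h3]
    · have : F.colP (T (-1, 0) y) := by
        by_contra h4
        exact h3 (h2.2 h4)
      simp [h3, this]
  · intro h
    have h1 : F.lev y = F.lev (T (0, -1) y) := by
      by_contra hne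
      rcases lt_or_gt_of_ne hne with h2 | h2
      · simp only [Fam.lab, hl_lt h2] at h
        exact absurd h (by decide)
      · simp only [Fam.lab, hl_gt h2] at h
        exact absurd h (by decide)
    have h2 := F.colour ha hy (e := (0, 1)) (by rw [mem_Box]; norm_num) (by norm_num) h1
    have e : (-(0, 1) : ℤ × ℤ) = (0, -1) := rfl
    rw [e] at h2
    simp only [Fam.lab]
    by_cases h3 : F.colP y
    · simp [h3, h2.1 h3]
    · have : F.colP (T (0, -1) y) := by
        by_contra h4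
        exact h3 (h2.2 h4)
      simp [h3, this]

/-- A nested family that covers the planes of almost all points. -/
theorem exists_fam [StandardBorelSpace X] (ha : FreeBorel T) (μ : Measure X)
    [IsProbabilityMeasure μ] : ∃ F : Fam T, ∀ᵐ y ∂μ, ∀ g, F.Cov (T g y) := by
  classical
  have hε : ∀ k : ℕ, ((2 : ℝ≥0∞)⁻¹) ^ k ≠ 0 := fun k => pow_ne_zero _ (by simp)
  choose nn KK h1 h2 h3 h4 using fun (r k : ℕ) => exists_squares ha μ r (hε k)
  obtain ⟨N, hN0, hN1⟩ : ∃ N : ℕ → ℕ, N 0 = nn 0 0 ∧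
      ∀ k, N (k + 1) = nn (2 * N k + 3 + k) (k + 1) :=
    ⟨fun k => Nat.rec (nn 0 0) (fun k m => nn (2 * m + 3 + k) (k + 1)) k, rfl, fun _ => rfl⟩
  obtain ⟨R, hR0, hR1⟩ : ∃ R : ℕ → ℕ, R 0 = 0 ∧ ∀ k, R (k + 1) = 2 * N k + 3 + k :=
    ⟨fun k => match k with
      | 0 => 0
      | k + 1 => 2 * N k + 3 + k, rfl, fun _ => rfl⟩
  have hN : ∀ k, N k = nn (R k) k := by
    intro k
    cases k with
    | zero => rw [hN0, hR0]
    | succ k => rw [hN1, hR1]
  have hRk : ∀ k, k ≤ R k := by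
    intro k
    cases k with
    | zero => omega
    | succ k => rw [hR1]; omega
  have hRN : ∀ k, R k ≤ N k := fun k => by rw [hN]; exact h1 _ _
  have hNm : ∀ k m, k < m → 2 * N k + 3 ≤ R m := by
    intro k m hkm
    induction m, hkm using Nat.le_induction with
    | base => rw [hR1]; omega
    | succ m _ ih =>
      rw [hR1]
      have := hRN m
      omega
  let K : ℕ → Set X := fun k => KK (R k) k
  have hKm : ∀ k, MeasurableSet (K k) := fun k => h2 _ _
  have hKsep : ∀ k : ℕ, ∀ w ∈ K k, ∀ v ∈ Box (2 * (N k : ℤ) + 4), T v w ∈ K k → v = 0 := by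
    intro k
    rw [hN]
    exact h3 _ _
  have hKμ : ∀ k : ℕ, μ {y | ∀ h ∈ Box ((N k : ℤ) - R k), T h y ∉ K k} ≤ (2⁻¹) ^ k := by
    intro k
    rw [hN]
    exact h4 _ _
  let E : ℕ → Set X := fun k => {w | w ∈ K k ∧ ∀ m, k < m → ∀ v ∈ Box ((N m : ℤ) + N k + 2),
    T v w ∈ K m → v ∈ Box ((N m : ℤ) - N k - 3)}
  have hEm : ∀ k, MeasurableSet (E k) := by
    intro k
    have : E k = K k ∩ ⋂ m : ℕ, ⋂ (_ : k < m), ⋂ v ∈ Box ((N m : ℤ) + N k + 2),
        ((T v ⁻¹' (K m))ᶜ ∪ {_y | v ∈ Box ((N m : ℤ) - N k - 3)}) := by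
      ext w
      simp only [E, Set.mem_ofPred_eq, Set.mem_inter_iff, Set.mem_iInter, Set.mem_union,
        Set.mem_compl_iff, Set.mem_preimage]
      refine and_congr Iff.rfl (forall_congr' fun m => forall_congr' fun _ =>
        forall_congr' fun v => forall_congr' fun _ => ?_)
      tauto
    rw [this]
    exact (hKm k).inter (MeasurableSet.iInter fun m => MeasurableSet.iInter fun _ =>
      Finset.measurableSet_biInter _ fun v _ =>
        ((ha.meas v (hKm m)).compl.union (MeasurableSet.const _)))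
  let F : Fam T :=
    { n := N
      E := E
      meas := hEm
      sep := fun k w hw v hv hvw => hKsep k w hw.1 v hv hvw.1
      nest := fun k m hkm w hw v hv hvw => hw.2 m hkm v hv hvw.1 }
  refine ⟨F, ?_⟩
  have hsum : (∑' k, μ {y | ∀ h ∈ Box ((N k : ℤ) - R k), T h y ∉ K k}) ≠ ⊤ := by
    have h5 : (∑' k : ℕ, ((2 : ℝ≥0∞)⁻¹) ^ k) ≠ ⊤ := by
      rw [ENNReal.tsum_geometric, ENNReal.one_sub_inv_two]
      simp
    exact ne_top_of_le_ne_top h5 (ENNReal.tsum_le_tsum hKμ)
  filter_upwards [ae_eventually_notMem hsum] with y hy g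
  obtain ⟨m0, hm0⟩ := Filter.eventually_atTop.1 hy
  -- a level which is large
  obtain ⟨G, hG⟩ : ∃ G : ℕ, g ∈ Box G := by
    refine ⟨g.1.natAbs + g.2.natAbs, ?_⟩
    rw [mem_Box]
    omega
  have hcore : ∀ m, m0 ≤ m → ∃ h ∈ Box ((N m : ℤ) - R m), T h y ∈ K m := by
    intro m hm
    have := hm0 m hm
    simp only [Set.mem_ofPred_eq, not_forall, not_not] at this
    obtain ⟨h, hh, hK⟩ := this
    exact ⟨h, hh, hK⟩
  let k := max m0 G
  obtain ⟨h, hh, hK⟩ := hcore k (le_max_left _ _)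
  have hRkk : (G : ℤ) ≤ R k := by
    have h6 : G ≤ R k := (le_max_right m0 G).trans (hRk k)
    exact_mod_cast h6
  have hE : T h y ∈ E k := by
    refine ⟨hK, fun m hkm v hv hvK => ?_⟩
    obtain ⟨h', hh', hK'⟩ := hcore m ((le_max_left m0 G).trans hkm.le)
    have h7 := hNm k m hkm
    have h8 : T ((v + h) - h') (T h' y) ∈ K m := by
      rw [← ha.add, sub_add_cancel, ha.add]; exact hvK
    have h9 := hKsep m (T h' y) hK' ((v + h) - h')
      (Box_mono (by omega) (sub_mem_Box (add_mem_Box hv hh) hh')) h8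
    have h10 : v = h' - h := by
      have := sub_eq_zero.1 h9
      rw [← this, add_sub_cancel_right]
    rw [h10]
    exact Box_mono (by omega) (sub_mem_Box hh' hh)
  refine ⟨k, h - g, ?_, ?_⟩
  · change h - g ∈ Box ((N k : ℕ) : ℤ)
    exact Box_mono (by omega) (sub_mem_Box hh hG)
  · change T (h - g) (T g y) ∈ E k
    rw [← ha.add, sub_add_cancel]
    exact hE

end hier

end Pool.Agent.TH320.LC
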