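import Pool.Agent.TH320.LFree

set_option autoImplicit false

/-! # Subshifts of finite type that separate Borel, Baire measurable and measurable maps -/

noncomputable section

namespace Pool.Agent.TH320.LC

open MeasureTheory Topology
open scoped ENNReal
open Pool.Agent.W927.BM (FreeBorel emb emb_add emb_zero emb_eq_zero emb_fst emb_snd LCLP PBM
  PBM_iff PBM_inBaire circle_neg exists_cocycle)
open Pool.Agent.W927 (Conf shift FreePart IsSFT IsEquivMap HasBorel HasBaire HasMeasure
  isSFT_of_window SB RuleB code_shift codeF measurable_codeF lin TT)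

variable {d : ℕ}

/-- the equivariant map of a labelling -/
def mapOf {k : ℕ} (f : FreePart d → Fin k) (x : FreePart d) : Conf d (Fin k) := fun g => f (act g x)

theorem mapOf_equivariant {k : ℕ} (f : FreePart d → Fin k) (g : Fin d → ℤ) (x y : FreePart d)
    (h : y.1 = shift g x.1) : mapOf f y = shift g (mapOf f x) := by
  have : y = act g x := Subtype.ext h
  subst this
  funext h
  simp only [mapOf, shift]
  rw [act_add]

/-! ## measure -/

theorem SB_hasMeasure (hd : 2 ≤ d) {k : ℕ} (e : Fin k ≃ Pool.Agent.W927.Lab) :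
    HasMeasure (SB e (emb hd 1 0) (emb hd 0 1)) := by
  classical
  intro μ hμ
  have ha := freeBorel_act d
  obtain ⟨f, Y, hf, hY, hYinv, hYμ, hR⟩ := exists_meas_lab hd ha μ
  obtain ⟨γ, hγ⟩ := exists_cocycle ha.zero ha.add ha.free
  let c : FreePart d → Bool := fun y => decide ((γ y ⟨0, by omega⟩ + γ y ⟨1, by omega⟩) % 2 = 0)
  let F : FreePart d → Pool.Agent.W927.Lab := fun y => if y ∈ Y then f y else (.n, .n, c y, .n)
  have hYinv' : ∀ g y, y ∉ Y → act g y ∉ Y := by
    intro g y hy h
    apply hy
    have := hYinv (-g) _ h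
    rwa [← ha.add, neg_add_cancel, ha.zero] at this
  have hc0 : ∀ y, c y = !c (act (-emb hd 1 0) y) := by
    intro y
    simp only [c, hγ, Pi.add_apply, Pi.neg_apply, emb_fst, emb_snd]
    by_cases h : (γ y ⟨0, by omega⟩ + γ y ⟨1, by omega⟩) % 2 = 0
    · rw [decide_eq_true h, decide_eq_false (by omega)]; rfl
    · rw [decide_eq_false h, decide_eq_true (by omega)]; rfl
  have hc1 : ∀ y, c y = !c (act (-emb hd 0 1) y) := by
    intro y
    simp only [c, hγ, Pi.add_apply, Pi.neg_apply, emb_fst, emb_snd]
    by_cases h : (γ y ⟨0, by omega⟩ + γ y ⟨1, by omega⟩) % 2 = 0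
    · rw [decide_eq_true h, decide_eq_false (by omega)]; rfl
    · rw [decide_eq_false h, decide_eq_true (by omega)]; rfl
  have hrule : ∀ y, RuleB (emb hd 1 0) (emb hd 0 1) (fun h => F (act h y)) := by
    intro y
    by_cases hy : y ∈ Y
    · have : (fun h => F (act h y)) = fun h => f (act h y) := by
        funext h
        simp only [F]
        rw [if_pos (hYinv h y hy)]
      rw [this]
      exact hR y hy
    · have : ∀ h, F (act h y) = (.n, .n, c (act h y), .n) := by
        intro h
        simp only [F]
        rw [if_neg (hYinv' h y hy)]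
      have hF0 : F y = (.n, .n, c y, .n) := by
        simp only [F]
        rw [if_neg hy]
      simp only [RuleB, ha.zero, hF0, this]
      refine ⟨by decide, fun _ => hc0 y, fun _ => hc1 y⟩
  refine ⟨mapOf fun y => e.symm (F y), ⟨?_, mapOf_equivariant _⟩, ?_⟩
  · intro x g
    have h1 := hrule (act g x)
    have e1 : (fun h => e (shift g (mapOf (fun y => e.symm (F y)) x) h)) =
        fun h => F (act h (act g x)) := by
      funext h
      simp only [shift, mapOf, Equiv.apply_symm_apply]
      rw [act_add]
    rw [e1]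
    exact h1
  · intro B hB
    -- the map equals a measurable one almost everywhere
    have h2 : Measurable (mapOf fun y => e.symm (f y)) := by
      refine measurable_pi_iff.2 fun g => ?_
      have h3 : Measurable fun y => e.symm (f y) := by
        intro A _
        have : (fun y => e.symm (f y)) ⁻¹' A = f ⁻¹' {l | e.symm l ∈ A} := rfl
        rw [this]
        exact hf _
      exact h3.comp (ha.meas g)
    refine (h2 hB).nullMeasurableSet.congr ?_
    have h4 : ∀ᵐ x ∂μ, x ∈ Y := by
      rw [ae_iff]; exact hYμ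
    filter_upwards [h4] with x hx
    refine propext ?_
    have : mapOf (fun y => e.symm (f y)) x = mapOf (fun y => e.symm (F y)) x := by
      funext g
      simp only [mapOf, F]
      rw [if_pos (hYinv g x hx)]
    change mapOf (fun y => e.symm (f y)) x ∈ B ↔ mapOf (fun y => e.symm (F y)) x ∈ B
    rw [this]

/-! ## the subshift of a labelling problem -/

/-- the subshift of a labelling problem -/
def SofP (P : LCLP (Fin d → ℤ)) : Set (Conf d (Fin P.k)) :=
  {s | ∀ g, (fun σ : P.W => shift g s σ.1) ∈ P.A}

theorem isSFT_SofP (P : LCLP (Fin d → ℤ)) : IsSFT (SofP P) := by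
  refine isSFT_of_window P.W (fun s => (fun σ : P.W => s σ.1) ∈ P.A) ?_
  intro s s' h hs
  have : (fun σ : P.W => s' σ.1) = fun σ : P.W => s σ.1 := by
    funext σ
    exact (h σ.1 σ.2).symm
  rw [this]
  exact hs

theorem mapOf_mem {P : LCLP (Fin d → ℤ)} {f : FreePart d → Fin P.k} (h : P.IsLabelling act f)
    (x : FreePart d) : mapOf f x ∈ SofP P := by
  intro g
  have h1 := h (act g x)
  have : (fun σ : P.W => shift g (mapOf f x) σ.1) = fun σ : P.W => f (act σ.1 (act g x)) := by
    funext σ
    simp only [shift, mapOf]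
    rw [act_add]
  rw [this]
  exact h1

theorem hasBaire_of_inBaire {P : LCLP (Fin d → ℤ)} (h : P.InBaire) : HasBaire (SofP P) := by
  obtain ⟨f, hf, hP⟩ := h (FreePart d) act (freeBorel_act d)
  refine ⟨mapOf f, ⟨mapOf_mem hP, mapOf_equivariant f⟩, ?_⟩
  intro B hB
  have h1 : @Measurable _ _ (eventuallyMeasurableSpace (borel (FreePart d)) (residual (FreePart d)))
      _ (mapOf f) := by
    refine @measurable_pi_lambda _ _ _
      (eventuallyMeasurableSpace (borel (FreePart d)) (residual (FreePart d))) _ _ fun g => ?_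
    refine @measurable_to_countable' (Fin P.k) (FreePart d) _ _
      (eventuallyMeasurableSpace (borel (FreePart d)) (residual (FreePart d))) _ fun i => ?_
    exact (hf i).preimage (actHomeo g).continuous (actHomeo g).isOpenMap
  exact h1 hB

theorem hasMeasure_of_hasBorel {k : ℕ} {S : Set (Conf d (Fin k))} (h : HasBorel S) :
    HasMeasure S := by
  obtain ⟨T, hT, hTm⟩ := h
  exact fun μ _ => ⟨T, hT, fun B hB => (hTm hB).nullMeasurableSet⟩

theorem PBM_not_hasMeasure (hd : 2 ≤ d) {k : ℕ} (e : Fin k ≃ Pool.Agent.W927.BM.Lab) :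
    ¬ HasMeasure (SofP (PBM hd e)) := by
  intro H
  obtain ⟨α, hα⟩ := Pool.Agent.W927.exists_alpha d
  have : IsProbabilityMeasure (volume : Measure TT) := ⟨by simp⟩
  obtain ⟨T, hT, hTm⟩ := H (Measure.map (codeF hα) volume)
    (Measure.isProbabilityMeasure_map (measurable_codeF hα).aemeasurable)
  let f : TT → Fin k := fun θ => T (codeF hα θ) 0
  have hread : ∀ (θ : TT) (g : Fin d → ℤ), T (codeF hα θ) g = f (lin α g + θ) := by
    intro θ g
    have := hT.equivariant g (codeF hα θ) (codeF hα (lin α g + θ))
      (by rw [add_comm]; exact code_shift α θ g)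
    simp only [f]
    rw [this]
    simp [shift]
  have hlab : (PBM hd e).IsLabelling (fun g θ => lin α g + θ) f := by
    intro θ
    have h1 := hT.mem (codeF hα θ) 0
    have e1 : (fun σ : (PBM hd e).W => shift 0 (T (codeF hα θ)) σ.1) =
        fun σ : (PBM hd e).W => f (lin α σ.1 + θ) := by
      funext σ
      simp only [shift, add_zero]
      exact hread θ σ.1
    rw [e1] at h1
    exact h1
  refine circle_neg hd hα ⟨fun y => e (f y), ?_, ?_⟩
  · intro l
    have h0 : Measurable fun s : Conf d (Fin k) => s 0 := measurable_pi_apply 0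
    have h1 : MeasurableSet {s : Conf d (Fin k) | e (s 0) = l} :=
      h0 (MeasurableSet.of_discrete (s := {i | e i = l}))
    exact (hTm _ h1).preimage ((measurable_codeF hα).quasiMeasurePreserving volume)
  · refine Filter.Eventually.of_forall fun y => ?_
    exact (PBM_iff hd e (fun g h x => by simp only [map_add, add_assoc]) f).1 hlab y

/-- the separation -/
theorem separation (d : ℕ) (hd : 2 ≤ d) :
    (∃ (k : ℕ) (S : Set (Conf d (Fin k))), IsSFT S ∧ HasBaire S ∧ ¬ HasMeasure S ∧ ¬ HasBorel S) ∧
    (∃ (k : ℕ) (S : Set (Conf d (Fin k))), IsSFT S ∧ HasMeasure S ∧ ¬ HasBorel S) := by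
  constructor
  · let e := (Fintype.equivFin Pool.Agent.W927.BM.Lab).symm
    refine ⟨_, SofP (PBM hd e), isSFT_SofP _, hasBaire_of_inBaire (PBM_inBaire hd e),
      PBM_not_hasMeasure hd e, fun h => PBM_not_hasMeasure hd e (hasMeasure_of_hasBorel h)⟩
  · let e := (Fintype.equivFin Pool.Agent.W927.Lab).symm
    refine ⟨_, SB e (emb hd 1 0) (emb hd 0 1), Pool.Agent.W927.isSFT_SB _ _ _, SB_hasMeasure hd e,
      Pool.Agent.W927.SB_not_borel ?_ ?_⟩
    · intro h
      have := (emb_eq_zero hd h).1
      omega
    · intro h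
      have := (emb_eq_zero hd h).2
      omega

end Pool.Agent.TH320.LC
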