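import Pool.Agent.TH320.LCol

set_option autoImplicit false

/-! # Almost covering by separated squares -/

noncomputable section

namespace Pool.Agent.TH320.LC

open MeasureTheory
open scoped ENNReal
open Pool.Agent.W927.BM (FreeBorel)

/-! ## counting -/

/-- averaging over a finite family of sets -/
theorem avg {X ι : Type} [MeasurableSpace X] (μ : Measure X) [IsProbabilityMeasure μ]
    (S : Finset ι) (hS : S.Nonempty) (A : ι → Set X) (hA : ∀ s ∈ S, MeasurableSet (A s)) (c : ℕ)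
    (h : ∀ y, ∀ F : Finset ι, F ⊆ S → (∀ s ∈ F, y ∈ A s) → F.card ≤ c) :
    ∃ s ∈ S, μ (A s) ≤ (c : ℝ≥0∞) / S.card := by
  classical
  have h1 : ∑ s ∈ S, μ (A s) ≤ c := by
    have e : ∀ s ∈ S, μ (A s) = ∫⁻ y, (A s).indicator 1 y ∂μ := fun s hs =>
      (lintegral_indicator_one (hA s hs)).symm
    rw [Finset.sum_congr rfl e, ← lintegral_finsetSum' S fun s hs =>
      ((measurable_one.indicator (hA s hs))).aemeasurable]
    calc ∫⁻ y, ∑ s ∈ S, (A s).indicator 1 y ∂μ ≤ ∫⁻ _, (c : ℝ≥0∞) ∂μ := by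
          refine lintegral_mono fun y => ?_
          have e2 : ∑ s ∈ S, (A s).indicator (1 : X → ℝ≥0∞) y =
              ((S.filter fun s => y ∈ A s).card : ℝ≥0∞) := by
            rw [Finset.card_filter, Nat.cast_sum]
            refine Finset.sum_congr rfl fun s _ => ?_
            by_cases hy : y ∈ A s
            · simp [hy]
            · simp [hy]
          rw [e2]
          exact (Nat.cast_le (α := ℝ≥0∞)).2
            (h y _ (Finset.filter_subset _ _) fun s hs => (Finset.mem_filter.1 hs).2)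
      _ = c := by simp
  have hc0 : (S.card : ℝ≥0∞) ≠ 0 := by
    exact_mod_cast (Finset.card_pos.2 hS).ne'
  have h2 : ∑ s ∈ S, μ (A s) ≤ ∑ _s ∈ S, (c : ℝ≥0∞) / S.card := by
    rw [Finset.sum_const, nsmul_eq_mul, ENNReal.mul_div_cancel hc0 (by simp)]
    exact h1
  exact ENNReal.exists_le_of_sum_le hS h2

/-- number of shifts that are bad in one coordinate -/
theorem card_shift (n r : ℕ) (hr : r ≤ n) (c : ℤ) :
    ((Finset.Ico (0 : ℤ) (2 * n + 5)).filter fun x =>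
      ¬ (-((n : ℤ) - r) ≤ (c + x + n + 2) % (2 * n + 5) - (n + 2) ∧
        (c + x + n + 2) % (2 * n + 5) - (n + 2) ≤ (n : ℤ) - r)).card ≤ 2 * r + 4 := by
  classical
  have h1 : ((Finset.Ico (0 : ℤ) (2 * n + 5)).filter fun x =>
      ¬ (-((n : ℤ) - r) ≤ (c + x + n + 2) % (2 * n + 5) - (n + 2) ∧
        (c + x + n + 2) % (2 * n + 5) - (n + 2) ≤ (n : ℤ) - r)).card ≤
      (Finset.Ico (0 : ℤ) (r + 2) ∪ Finset.Ico (2 * (n : ℤ) + 3 - r) (2 * n + 5)).card := by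
    refine Finset.card_le_card_of_injOn (fun x => (c + x + n + 2) % (2 * n + 5)) ?_ ?_
    · intro x hx
      have hx' := (Finset.mem_filter.1 (Finset.mem_coe.1 hx))
      have h3 := Int.emod_nonneg (c + x + n + 2) (show (2 * (n : ℤ) + 5) ≠ 0 by omega)
      have h4 := Int.emod_lt_of_pos (c + x + n + 2) (show (0 : ℤ) < 2 * (n : ℤ) + 5 by omega)
      simp only [Finset.coe_union, Finset.coe_Ico, Set.mem_union, Set.mem_Ico]
      omega
    · intro x hx y hy hxy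
      have hx' := (Finset.mem_Ico.1 (Finset.mem_filter.1 (Finset.mem_coe.1 hx)).1)
      have hy' := (Finset.mem_Ico.1 (Finset.mem_filter.1 (Finset.mem_coe.1 hy)).1)
      have h5 : (2 * (n : ℤ) + 5) ∣ (c + x + n + 2) - (c + y + n + 2) :=
        Int.dvd_of_emod_eq_zero (Int.emod_eq_emod_iff_emod_sub_eq_zero.1 hxy)
      have h6 : (c + x + n + 2) - (c + y + n + 2) = x - y := by ring
      rw [h6] at h5
      by_contra hne
      obtain ⟨k, hk⟩ := h5
      rcases lt_trichotomy k 0 with h | h | h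
      · nlinarith
      · subst h; omega
      · nlinarith
  refine h1.trans ((Finset.card_union_le _ _).trans ?_)
  rw [Int.card_Ico, Int.card_Ico]
  omega

/-- number of translations that are bad in one coordinate -/
theorem card_trans (M N : ℕ) (z : ℤ) :
    ((Finset.Ico (0 : ℤ) M).filter fun x =>
      (M : ℤ) - N ≤ |z - x| ∧ |z - x| ≤ (M : ℤ) + N).card ≤ 2 * (2 * N + 1) := by
  classical
  have h1 : ((Finset.Ico (0 : ℤ) M).filter fun x =>
      (M : ℤ) - N ≤ |z - x| ∧ |z - x| ≤ (M : ℤ) + N) ⊆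
      Finset.Icc (z - M - N) (z - M + N) ∪ Finset.Icc (z + M - N) (z + M + N) := by
    intro x hx
    obtain ⟨-, h2, h3⟩ := Finset.mem_filter.1 hx
    simp only [Finset.mem_union, Finset.mem_Icc]
    rcases abs_cases (z - x) with ⟨h4, h5⟩ | ⟨h4, h5⟩
    · rw [h4] at h2 h3; omega
    · rw [h4] at h2 h3; omega
  refine (Finset.card_le_card h1).trans ((Finset.card_union_le _ _).trans ?_)
  rw [Int.card_Icc, Int.card_Icc]
  omega

/-- `c / n` is small for large `n` -/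
theorem exists_small (c : ℕ) {ε : ℝ≥0∞} (hε : ε ≠ 0) :
    ∃ n0 : ℕ, ∀ n : ℕ, n0 ≤ n → (c : ℝ≥0∞) / n ≤ ε := by
  have h1 : (c : ℝ≥0∞) / ε ≠ ⊤ := ENNReal.div_ne_top (by simp) hε
  obtain ⟨n0, hn0⟩ := ENNReal.exists_nat_gt h1
  refine ⟨n0, fun n hn => ?_⟩
  refine ENNReal.div_le_of_le_mul ?_
  rcases eq_or_ne ε ⊤ with rfl | ht
  · rcases Nat.eq_zero_or_pos n with rfl | hpos
    · simp only [nonpos_iff_eq_zero] at hn
      subst hn
      simp at hn0
    · rw [ENNReal.top_mul (by exact_mod_cast hpos.ne')]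
      exact le_top
  · have h2 : (c : ℝ≥0∞) / ε ≤ n := hn0.le.trans (by exact_mod_cast hn)
    rw [ENNReal.div_le_iff_le_mul (Or.inl hε) (Or.inl ht)] at h2
    rwa [mul_comm]

section tile

variable {X : Type} [MeasurableSpace X] {T : ℤ × ℤ → X → X}

/-- `g` is the displacement from `y` to the centre to which `y` is assigned. -/
def Asg (T : ℤ × ℤ → X → X) (M : ℤ) (C : Set X) (κ : X → ℕ) (y : X) (g : ℤ × ℤ) : Prop :=
  g ∈ Box M ∧ T g y ∈ C ∧ ∀ h ∈ Box M, T h y ∈ C → h ≠ g → κ (T g y) < κ (T h y)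

/-- points near the boundary of the box of some centre -/
def Bad (T : ℤ × ℤ → X → X) (M N : ℤ) (C : Set X) : Set X :=
  {y | ∃ g ∈ Box (M + N), T g y ∈ C ∧ (M - N ≤ |g.1| ∨ M - N ≤ |g.2|)}

theorem meas_Asg (ha : FreeBorel T) {M : ℤ} {C : Set X} (hC : MeasurableSet C) {κ : X → ℕ}
    (hκ : Measurable κ) (g : ℤ × ℤ) : MeasurableSet {y | Asg T M C κ y g} := by
  have : {y | Asg T M C κ y g} = {_y | g ∈ Box M} ∩ ((T g ⁻¹' C) ∩
      ⋂ h ∈ Box M, ((T h ⁻¹' C)ᶜ ∪ ({_y | h = g} ∪ {y | κ (T g y) < κ (T h y)}))) := by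
    ext y
    simp only [Asg, Set.mem_inter_iff, Set.mem_iInter, Set.mem_union, Set.mem_compl_iff,
      Set.mem_preimage, Set.mem_ofPred_eq]
    refine and_congr Iff.rfl (and_congr Iff.rfl (forall_congr' fun h => forall_congr' fun hh => ?_))
    tauto
  rw [this]
  refine (MeasurableSet.const _).inter ((ha.meas g hC).inter
    (Finset.measurableSet_biInter _ fun h _ => (ha.meas h hC).compl.union
      ((MeasurableSet.const _).union ?_)))
  exact measurableSet_lt (hκ.comp (ha.meas g)) (hκ.comp (ha.meas h))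

theorem meas_Bad (ha : FreeBorel T) (M N : ℤ) {C : Set X} (hC : MeasurableSet C) :
    MeasurableSet (Bad T M N C) := by
  have : Bad T M N C = ⋃ g ∈ Box (M + N), ((T g ⁻¹' C) ∩ {_y | M - N ≤ |g.1| ∨ M - N ≤ |g.2|}) := by
    ext y
    simp only [Bad, Set.mem_iUnion, Set.mem_inter_iff, Set.mem_preimage, Set.mem_ofPred_eq,
      exists_prop]
  rw [this]
  exact Finset.measurableSet_biUnion _ fun g _ => (ha.meas g hC).inter (MeasurableSet.const _)

theorem asg_exists (ha : FreeBorel T) {M : ℤ} {C : Set X} (hC : MaxSep T M C) {κ : X → ℕ}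
    (hκ : ∀ g ∈ (Box (2 * M)).erase 0, ∀ y, κ (T g y) ≠ κ y) (y : X) : ∃ g, Asg T M C κ y g := by
  classical
  obtain ⟨g0, hg0, hg0C⟩ := hC.cov y
  obtain ⟨g, hg, hmin⟩ := Finset.exists_min_image ((Box M).filter fun g => T g y ∈ C)
    (fun g => κ (T g y)) ⟨g0, Finset.mem_filter.2 ⟨hg0, hg0C⟩⟩
  obtain ⟨hg1, hg2⟩ := Finset.mem_filter.1 hg
  refine ⟨g, hg1, hg2, fun h hh hhC hne => ?_⟩
  have h1 := hmin h (Finset.mem_filter.2 ⟨hh, hhC⟩)
  refine lt_of_le_of_ne h1 ?_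
  have h2 := hκ (g - h) (Finset.mem_erase.2 ⟨sub_ne_zero.2 hne.symm, by
    rw [mem_Box] at hg1 hh ⊢
    simp only [Prod.fst_sub, Prod.snd_sub]
    omega⟩) (T h y)
  rwa [← ha.add, sub_add_cancel] at h2

theorem asg_unique {M : ℤ} {C : Set X} {κ : X → ℕ} {y : X} {g g' : ℤ × ℤ}
    (h : Asg T M C κ y g) (h' : Asg T M C κ y g') : g = g' := by
  by_contra hne
  have h1 := h.2.2 g' h'.1 h'.2.1 (Ne.symm hne)
  have h2 := h'.2.2 g h.1 h.2.1 hne
  omega

theorem asg_const (ha : FreeBorel T) {M N : ℤ} {C : Set X} {κ : X → ℕ} {y : X}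
    (hy : y ∉ Bad T M N C) (hN : 0 ≤ N) {g h : ℤ × ℤ} (hh : h ∈ Box N) (hg : Asg T M C κ y g) :
    Asg T M C κ (T h y) (g - h) := by
  have hb : ∀ v ∈ Box (M + N), T v y ∈ C → |v.1| < M - N ∧ |v.2| < M - N := by
    intro v hv hvC
    by_contra hcon
    apply hy
    refine ⟨v, hv, hvC, ?_⟩
    by_contra h2
    push Not at h2
    exact hcon h2
  have e : ∀ v, T v (T h y) = T (v + h) y := fun v => (ha.add v h y).symm
  rw [mem_Box] at hh
  have hg1 := hg.1
  rw [mem_Box] at hg1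
  have hgb := hb g (by rw [mem_Box]; omega) hg.2.1
  rw [abs_lt, abs_lt] at hgb
  refine ⟨?_, ?_, ?_⟩
  · rw [mem_Box]
    simp only [Prod.fst_sub, Prod.snd_sub]
    omega
  · rw [e, sub_add_cancel]; exact hg.2.1
  · intro v hv hvC hne
    rw [e] at hvC
    rw [mem_Box] at hv
    have hvb := hb (v + h) (by rw [mem_Box]; simp only [Prod.fst_add, Prod.snd_add]; omega) hvC
    rw [abs_lt, abs_lt] at hvb
    simp only [Prod.fst_add, Prod.snd_add] at hvb
    have h3 := hg.2.2 (v + h) (by rw [mem_Box]; simp only [Prod.fst_add, Prod.snd_add]; omega)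
      hvC (fun h4 => hne (by rw [← h4, add_sub_cancel_right]))
    rw [e, e, sub_add_cancel]
    exact h3

/-- centres of squares -/
def Mk (T : ℤ × ℤ → X → X) (M : ℤ) (C : Set X) (κ : X → ℕ) (n : ℤ) (s : ℤ × ℤ) : Set X :=
  {w | ∃ g ∈ Box M, (2 * n + 5) ∣ (g.1 + s.1) ∧ (2 * n + 5) ∣ (g.2 + s.2) ∧
    ∀ h ∈ Box (n + 2), Asg T M C κ (T h w) (g - h)}

theorem meas_Mk (ha : FreeBorel T) {M : ℤ} {C : Set X} (hC : MeasurableSet C) {κ : X → ℕ}
    (hκ : Measurable κ) (n : ℤ) (s : ℤ × ℤ) : MeasurableSet (Mk T M C κ n s) := by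
  have : Mk T M C κ n s = ⋃ g ∈ Box M, ({_w | (2 * n + 5) ∣ (g.1 + s.1) ∧ (2 * n + 5) ∣ (g.2 + s.2)} ∩
      ⋂ h ∈ Box (n + 2), T h ⁻¹' {y | Asg T M C κ y (g - h)}) := by
    ext w
    simp only [Mk, Set.mem_iUnion, Set.mem_inter_iff, Set.mem_iInter, Set.mem_preimage,
      Set.mem_ofPred_eq, exists_prop, and_assoc]
  rw [this]
  exact Finset.measurableSet_biUnion _ fun g _ => (MeasurableSet.const _).inter
    (Finset.measurableSet_biInter _ fun h _ => ha.meas h (meas_Asg ha hC hκ _))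

theorem Mk_sep (ha : FreeBorel T) {M : ℤ} {C : Set X} {κ : X → ℕ} {n : ℤ} (hn : 0 ≤ n)
    {s : ℤ × ℤ} {w : X} (hw : w ∈ Mk T M C κ n s) {v : ℤ × ℤ} (hv : v ∈ Box (2 * n + 4))
    (hvw : T v w ∈ Mk T M C κ n s) : v = 0 := by
  obtain ⟨g, -, hg1, hg2, hg3⟩ := hw
  obtain ⟨g', -, hg1', hg2', hg3'⟩ := hvw
  rw [mem_Box] at hv
  have h1 := hg3 (v.1 / 2, v.2 / 2) (by rw [mem_Box]; simp only; omega)
  have h2 := hg3' ((v.1 / 2, v.2 / 2) - v) (by
    rw [mem_Box]; simp only [Prod.fst_sub, Prod.snd_sub]; omega)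
  rw [← ha.add, sub_add_cancel] at h2
  have h3 := asg_unique h1 h2
  have h4 := congrArg Prod.fst h3
  have h5 := congrArg Prod.snd h3
  simp only [Prod.fst_sub, Prod.snd_sub] at h4 h5
  have d1 : (2 * n + 5) ∣ v.1 := by
    have := dvd_sub hg1 hg1'
    rwa [show g.1 + s.1 - (g'.1 + s.1) = v.1 by omega] at this
  have d2 : (2 * n + 5) ∣ v.2 := by
    have := dvd_sub hg2 hg2'
    rwa [show g.2 + s.2 - (g'.2 + s.2) = v.2 by omega] at this
  have z1 : v.1 = 0 := Int.eq_zero_of_abs_lt_dvd d1 (by rw [abs_lt]; omega)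
  have z2 : v.2 = 0 := Int.eq_zero_of_abs_lt_dvd d2 (by rw [abs_lt]; omega)
  exact Prod.ext z1 z2

theorem Mk_cov (ha : FreeBorel T) {M : ℤ} {C : Set X} {κ : X → ℕ} {n : ℤ} (hn : 0 ≤ n)
    {s : ℤ × ℤ} {y : X} (hy : y ∉ Bad T M (2 * n + 4) C) {g h : ℤ × ℤ} (hg : Asg T M C κ y g)
    (hh : h ∈ Box (n + 2)) (h1 : (2 * n + 5) ∣ (g.1 - h.1 + s.1))
    (h2 : (2 * n + 5) ∣ (g.2 - h.2 + s.2)) : T h y ∈ Mk T M C κ n s := by
  have hh' := hh
  rw [mem_Box] at hh'
  refine ⟨g - h, ?_, h1, h2, ?_⟩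
  · exact (asg_const ha hy (by omega) (by rw [mem_Box]; omega) hg).1
  · intro h' hh''
    rw [mem_Box] at hh''
    rw [← ha.add, sub_sub, add_comm h h']
    exact asg_const ha hy (by omega) (by
      rw [mem_Box]; simp only [Prod.fst_add, Prod.snd_add]; omega) hg

/-- a maximal separated set has few points in a box -/
theorem card_sep (ha : FreeBorel T) {M : ℕ} (hM : 0 < M) {C : Set X} (hC : MaxSep T M C) (y : X)
    (F : Finset (ℤ × ℤ)) (hF : ∀ z ∈ F, z ∈ Box (3 * M) ∧ T z y ∈ C) : F.card ≤ 36 := by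
  classical
  have h1 : F.card ≤ (Finset.Icc (-3 : ℤ) 2 ×ˢ Finset.Icc (-3 : ℤ) 2).card := by
    refine Finset.card_le_card_of_injOn (fun z => (z.1 / ((M : ℤ) + 1), z.2 / ((M : ℤ) + 1))) ?_ ?_
    · intro z hz
      obtain ⟨hz1, -⟩ := hF z hz
      rw [mem_Box] at hz1
      simp only [Finset.coe_product, Finset.coe_Icc, Set.mem_prod, Set.mem_Icc]
      have hp : (0 : ℤ) < (M : ℤ) + 1 := by omega
      refine ⟨⟨?_, ?_⟩, ⟨?_, ?_⟩⟩
      · rw [Int.le_ediv_iff_mul_le hp]; omega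
      · have : z.1 / ((M : ℤ) + 1) < 3 := by rw [Int.ediv_lt_iff_lt_mul hp]; omega
        omega
      · rw [Int.le_ediv_iff_mul_le hp]; omega
      · have : z.2 / ((M : ℤ) + 1) < 3 := by rw [Int.ediv_lt_iff_lt_mul hp]; omega
        omega
    · intro z hz z' hz' heq
      obtain ⟨-, hz2⟩ := hF z hz
      obtain ⟨-, hz2'⟩ := hF z' hz'
      simp only [Prod.mk.injEq] at heq
      have hp : (0 : ℤ) < (M : ℤ) + 1 := by omega
      have a1 := Int.mul_ediv_add_emod z.1 ((M : ℤ) + 1)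
      have a2 := Int.mul_ediv_add_emod z'.1 ((M : ℤ) + 1)
      have a3 := Int.mul_ediv_add_emod z.2 ((M : ℤ) + 1)
      have a4 := Int.mul_ediv_add_emod z'.2 ((M : ℤ) + 1)
      have b1 := Int.emod_nonneg z.1 hp.ne'
      have b2 := Int.emod_nonneg z'.1 hp.ne'
      have b3 := Int.emod_nonneg z.2 hp.ne'
      have b4 := Int.emod_nonneg z'.2 hp.ne'
      have c1 := Int.emod_lt_of_pos z.1 hp
      have c2 := Int.emod_lt_of_pos z'.1 hp
      have c3 := Int.emod_lt_of_pos z.2 hp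
      have c4 := Int.emod_lt_of_pos z'.2 hp
      rw [heq.1] at a1
      rw [heq.2] at a3
      have h2 := hC.sep (T z y) hz2 (z' - z) (by
        rw [mem_Box]; simp only [Prod.fst_sub, Prod.snd_sub]
        omega) (by rw [← ha.add, sub_add_cancel]; exact hz2')
      exact (sub_eq_zero.1 h2).symm
  refine h1.trans ?_
  rw [Finset.card_product, Int.card_Icc]
  decide

/-- number of bad translations -/
theorem card_bad (ha : FreeBorel T) {M N : ℕ} (hM : 0 < M) (hN : N ≤ M) {C : Set X}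
    (hC : MaxSep T M C) (y : X) (F : Finset (ℤ × ℤ))
    (hF : F ⊆ Finset.Ico (0 : ℤ) M ×ˢ Finset.Ico (0 : ℤ) M)
    (hb : ∀ v ∈ F, y ∈ Bad T M N (T v ⁻¹' C)) : F.card ≤ 144 * (2 * N + 1) * M := by
  classical
  let S := (Box (3 * M)).filter fun z => T z y ∈ C
  have hS : S.card ≤ 36 := card_sep ha hM hC y S fun z hz => Finset.mem_filter.1 hz
  let I := Finset.Ico (0 : ℤ) M
  let P : ℤ → Finset ℤ := fun z => I.filter fun x => (M : ℤ) - N ≤ |z - x| ∧ |z - x| ≤ (M : ℤ) + N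
  have hsub : F ⊆ S.biUnion fun z => (P z.1 ×ˢ I) ∪ (I ×ˢ P z.2) := by
    intro v hv
    obtain ⟨g, hg, hgC, hor⟩ := hb v hv
    have hvI := Finset.mem_product.1 (hF hv)
    have hv1 := Finset.mem_Ico.1 hvI.1
    have hv2 := Finset.mem_Ico.1 hvI.2
    rw [mem_Box] at hg
    refine Finset.mem_biUnion.2 ⟨g + v, ?_, ?_⟩
    · refine Finset.mem_filter.2 ⟨?_, ?_⟩
      · rw [mem_Box]; simp only [Prod.fst_add, Prod.snd_add]; omega
      · have : T v (T g y) ∈ C := hgC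
        rwa [← ha.add, add_comm] at this
    · have e1 : (g + v).1 - v.1 = g.1 := by simp
      have e2 : (g + v).2 - v.2 = g.2 := by simp
      rcases hor with h | h
      · refine Finset.mem_union_left _ (Finset.mem_product.2 ⟨Finset.mem_filter.2 ⟨hvI.1, ?_⟩, hvI.2⟩)
        rw [e1]
        exact ⟨h, by rw [abs_le]; omega⟩
      · refine Finset.mem_union_right _ (Finset.mem_product.2 ⟨hvI.1, Finset.mem_filter.2 ⟨hvI.2, ?_⟩⟩)
        rw [e2]
        exact ⟨h, by rw [abs_le]; omega⟩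
  have hI : I.card = M := by simp [I]
  have hP : ∀ z, (P z).card ≤ 2 * (2 * N + 1) := fun z => card_trans M N z
  refine (Finset.card_le_card hsub).trans ((Finset.card_biUnion_le_card_mul S _
    (4 * (2 * N + 1) * M) ?_).trans ?_)
  · intro z _
    refine (Finset.card_union_le _ _).trans ?_
    rw [Finset.card_product, Finset.card_product, hI]
    have h1 := Nat.mul_le_mul_right M (hP z.1)
    have h2 := Nat.mul_le_mul_left M (hP z.2)
    nlinarith
  · calc S.card * (4 * (2 * N + 1) * M) ≤ 36 * (4 * (2 * N + 1) * M) :=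
          Nat.mul_le_mul_right _ hS
      _ = 144 * (2 * N + 1) * M := by ring

/-- number of bad shifts -/
theorem card_undeep (ha : FreeBorel T) {M n r : ℕ} (hr : r ≤ n) {C : Set X} (hC : MaxSep T M C)
    {κ : X → ℕ} (hκ : ∀ g ∈ (Box (2 * M)).erase 0, ∀ y, κ (T g y) ≠ κ y) (y : X)
    (hy : y ∉ Bad T M (2 * n + 4) C) (F : Finset (ℤ × ℤ))
    (hF : F ⊆ Finset.Ico (0 : ℤ) (2 * n + 5) ×ˢ Finset.Ico (0 : ℤ) (2 * n + 5))
    (hb : ∀ s ∈ F, ∀ h ∈ Box ((n : ℤ) - r), T h y ∉ Mk T M C κ n s) :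
    F.card ≤ 2 * (2 * r + 4) * (2 * n + 5) := by
  classical
  obtain ⟨g, hg⟩ := asg_exists ha hC hκ y
  let I := Finset.Ico (0 : ℤ) (2 * n + 5)
  let Q : ℤ → Finset ℤ := fun c => I.filter fun x =>
      ¬ (-((n : ℤ) - r) ≤ (c + x + n + 2) % (2 * n + 5) - (n + 2) ∧
        (c + x + n + 2) % (2 * n + 5) - (n + 2) ≤ (n : ℤ) - r)
  have hsub : F ⊆ (Q g.1 ×ˢ I) ∪ (I ×ˢ Q g.2) := by
    intro s hs
    have hsI := Finset.mem_product.1 (hF hs)
    by_contra hcon
    simp only [Finset.mem_union, Finset.mem_product, not_or, not_and] at hcon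
    have q1 : s.1 ∉ Q g.1 := fun h => hcon.1 h hsI.2
    have q2 : s.2 ∉ Q g.2 := fun h => hcon.2 hsI.1 h
    have p1 : (-((n : ℤ) - r) ≤ (g.1 + s.1 + n + 2) % (2 * n + 5) - (n + 2) ∧
        (g.1 + s.1 + n + 2) % (2 * n + 5) - (n + 2) ≤ (n : ℤ) - r) := by
      by_contra h
      exact q1 (Finset.mem_filter.2 ⟨hsI.1, h⟩)
    have p2 : (-((n : ℤ) - r) ≤ (g.2 + s.2 + n + 2) % (2 * n + 5) - (n + 2) ∧
        (g.2 + s.2 + n + 2) % (2 * n + 5) - (n + 2) ≤ (n : ℤ) - r) := by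
      by_contra h
      exact q2 (Finset.mem_filter.2 ⟨hsI.2, h⟩)
    refine hb s hs ((g.1 + s.1 + n + 2) % (2 * n + 5) - (n + 2),
      (g.2 + s.2 + n + 2) % (2 * n + 5) - (n + 2)) ?_ ?_
    · rw [mem_Box]; simp only; omega
    · refine Mk_cov ha (by omega) hy hg ?_ ?_ ?_
      · rw [mem_Box]; simp only; omega
      · have := Int.mul_ediv_add_emod (g.1 + s.1 + n + 2) (2 * n + 5)
        exact ⟨(g.1 + s.1 + n + 2) / (2 * n + 5), by simp only; omega⟩
      · have := Int.mul_ediv_add_emod (g.2 + s.2 + n + 2) (2 * n + 5)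
        exact ⟨(g.2 + s.2 + n + 2) / (2 * n + 5), by simp only; omega⟩
  have hI : I.card = 2 * n + 5 := by
    simp only [I]; rw [Int.card_Ico]; omega
  have hQ : ∀ c, (Q c).card ≤ 2 * r + 4 := fun c => card_shift n r hr c
  refine (Finset.card_le_card hsub).trans ((Finset.card_union_le _ _).trans ?_)
  rw [Finset.card_product, Finset.card_product, hI]
  have h1 := Nat.mul_le_mul_right (2 * n + 5) (hQ g.1)
  have h2 := Nat.mul_le_mul_left (2 * n + 5) (hQ g.2)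
  nlinarith

/-- Almost every point is deep inside of one of the squares of a separated Borel family. -/
theorem exists_squares [StandardBorelSpace X] (ha : FreeBorel T) (μ : Measure X)
    [IsProbabilityMeasure μ] (r : ℕ) {ε : ℝ≥0∞} (hε : ε ≠ 0) :
    ∃ (n : ℕ) (K : Set X), r ≤ n ∧ MeasurableSet K ∧
      (∀ w ∈ K, ∀ v ∈ Box (2 * n + 4), T v w ∈ K → v = 0) ∧
      μ {y | ∀ h ∈ Box ((n : ℤ) - r), T h y ∉ K} ≤ ε := by
  classical
  have hε2 : ε / 2 ≠ 0 := by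
    simp only [ne_eq, ENNReal.div_eq_zero_iff, not_or]
    exact ⟨hε, by simp⟩
  obtain ⟨n0, hn0⟩ := exists_small (2 * (2 * r + 4)) hε2
  let n := max n0 r
  obtain ⟨m0, hm0⟩ := exists_small (144 * (2 * (2 * n + 4) + 1)) hε2
  let M := max m0 (2 * n + 4)
  have hM : 0 < M := by simp only [M]; omega
  obtain ⟨κ, hκm, hκ⟩ := exists_kappa ha ((Box (2 * (M : ℤ))).erase 0)
    (fun g hg => (Finset.mem_erase.1 hg).1)
  obtain ⟨C0, hC0⟩ := exists_maxSep ha (show (0 : ℤ) ≤ (M : ℤ) by omega)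
  -- choose the translation
  obtain ⟨v, -, hv⟩ := avg μ (Finset.Ico (0 : ℤ) M ×ˢ Finset.Ico (0 : ℤ) M)
    ⟨(0, 0), by simp; omega⟩ (fun v => Bad T M (2 * n + 4 : ℕ) (T v ⁻¹' C0))
    (fun v _ => meas_Bad ha _ _ (ha.meas v hC0.meas)) (144 * (2 * (2 * n + 4) + 1) * M)
    (fun y F hF hb => card_bad ha hM (le_max_right _ _) hC0 y F hF hb)
  have hC := hC0.translate ha v
  set C := T v ⁻¹' C0 with hCdef
  have hv' : μ (Bad T M (2 * n + 4) C) ≤ ε / 2 := by
    have e1 : (((2 * n + 4 : ℕ) : ℤ)) = 2 * (n : ℤ) + 4 := by push_cast; ring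
    rw [e1] at hv
    refine hv.trans ?_
    have e2 : (Finset.Ico (0 : ℤ) M ×ˢ Finset.Ico (0 : ℤ) M).card = M * M := by
      rw [Finset.card_product]; simp
    rw [e2]
    refine le_trans ?_ (hm0 M (le_max_left _ _))
    push_cast
    rw [ENNReal.mul_div_mul_right _ _ (by exact_mod_cast hM.ne') (by simp)]
  -- choose the shift
  have hP : 0 < 2 * n + 5 := by omega
  obtain ⟨s, -, hs⟩ := avg μ (Finset.Ico (0 : ℤ) (2 * n + 5) ×ˢ Finset.Ico (0 : ℤ) (2 * n + 5))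
    ⟨(0, 0), by simp; omega⟩
    (fun s => {y | y ∉ Bad T M (2 * n + 4) C ∧ ∀ h ∈ Box ((n : ℤ) - r), T h y ∉ Mk T M C κ n s})
    (fun s _ => by
      have : {y | y ∉ Bad T M (2 * n + 4) C ∧ ∀ h ∈ Box ((n : ℤ) - r), T h y ∉ Mk T M C κ n s} =
          (Bad T M (2 * n + 4) C)ᶜ ∩ ⋂ h ∈ Box ((n : ℤ) - r), (T h ⁻¹' (Mk T M C κ n s))ᶜ := by
        ext y; simp
      rw [this]
      exact (meas_Bad ha _ _ hC.meas).compl.inter (Finset.measurableSet_biInter _ fun h _ =>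
        (ha.meas h (meas_Mk ha hC.meas hκm _ _)).compl))
    (2 * (2 * r + 4) * (2 * n + 5))
    (fun y F hF hb => by
      rcases F.eq_empty_or_nonempty with rfl | ⟨s0, hs0⟩
      · simp
      · exact card_undeep ha (le_max_right _ _) hC hκ y (hb s0 hs0).1 F hF
          (fun s hs => (hb s hs).2))
  refine ⟨n, Mk T M C κ n s, le_max_right _ _, meas_Mk ha hC.meas hκm _ _,
    fun w hw v hv hvw => Mk_sep ha (by omega) hw hv hvw, ?_⟩
  have hs' : μ {y | y ∉ Bad T M (2 * n + 4) C ∧ ∀ h ∈ Box ((n : ℤ) - r), T h y ∉ Mk T M C κ n s} ≤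
      ε / 2 := by
    refine hs.trans ?_
    have e2 : (Finset.Ico (0 : ℤ) (2 * n + 5) ×ˢ Finset.Ico (0 : ℤ) (2 * n + 5)).card =
        (2 * n + 5) * (2 * n + 5) := by
      rw [Finset.card_product, Int.card_Ico]
      congr 1 <;> omega
    have e3 : ((2 * (2 * r + 4) * (2 * n + 5) : ℕ) : ℝ≥0∞) =
        ((2 * (2 * r + 4) : ℕ) : ℝ≥0∞) * ((2 * n + 5 : ℕ) : ℝ≥0∞) := Nat.cast_mul _ _
    have e4 : (((2 * n + 5) * (2 * n + 5) : ℕ) : ℝ≥0∞) =
        ((2 * n + 5 : ℕ) : ℝ≥0∞) * ((2 * n + 5 : ℕ) : ℝ≥0∞) := Nat.cast_mul _ _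
    have hP' : ((2 * n + 5 : ℕ) : ℝ≥0∞) ≠ 0 := (Nat.cast_ne_zero (R := ℝ≥0∞)).2 hP.ne'
    rw [e2, e3, e4, ENNReal.mul_div_mul_right _ _ hP' (ENNReal.natCast_ne_top _)]
    exact hn0 (2 * n + 5) (by simp only [n]; omega)
  calc μ {y | ∀ h ∈ Box ((n : ℤ) - r), T h y ∉ Mk T M C κ n s}
      ≤ μ (Bad T M (2 * n + 4) C ∪ {y | y ∉ Bad T M (2 * n + 4) C ∧
          ∀ h ∈ Box ((n : ℤ) - r), T h y ∉ Mk T M C κ n s}) := by
        refine measure_mono fun y hy => ?_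
        by_cases h : y ∈ Bad T M (2 * n + 4) C
        · exact Or.inl h
        · exact Or.inr ⟨h, hy⟩
    _ ≤ ε / 2 + ε / 2 := (measure_union_le _ _).trans (add_le_add hv' hs')
    _ = ε := ENNReal.add_halves ε

end tile

end Pool.Agent.TH320.LC
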