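import Pool.Agent.TH320.Ill

/-!
# The quotients of `ℓ₁` attached to well-founded trees have the Schur property
-/

set_option autoImplicit false

open Filter Topology

namespace Pool.Agent.TH320

theorem exists_norming (D : Submodule ℝ L1) (hD : IsClosed (D : Set L1)) (x : L1) :
    ∃ f : L1 →L[ℝ] ℝ, (∀ y ∈ D, f y = 0) ∧ (∀ y, |f y| ≤ ‖y‖) ∧
      f x = Metric.infDist x (D : Set L1) := by
  have _ : IsClosed (D : Set L1) := hD
  obtain ⟨g, hg1, hg2⟩ := exists_dual_vector'' ℝ (D.mkQ x)
  refine ⟨g.comp D.mkQL, fun y hy => ?_, fun y => ?_, ?_⟩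
  · rw [ContinuousLinearMap.comp_apply, Submodule.mkQL_apply, Submodule.mkQ_apply,
      (Submodule.Quotient.mk_eq_zero D).mpr hy, map_zero]
  · rw [ContinuousLinearMap.comp_apply, Submodule.mkQL_apply, Submodule.mkQ_apply,
      ← Real.norm_eq_abs]
    calc ‖g (Submodule.Quotient.mk y)‖ ≤ ‖g‖ * ‖(Submodule.Quotient.mk y : L1 ⧸ D)‖ :=
          g.le_opNorm _
      _ ≤ 1 * ‖y‖ := mul_le_mul hg1 (Submodule.Quotient.norm_mk_le _ _) (norm_nonneg _)
          zero_le_one
      _ = ‖y‖ := one_mul _
  · rw [ContinuousLinearMap.comp_apply, Submodule.mkQL_apply, hg2]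
    exact QuotientAddGroup.norm_mk (S := D.toAddSubgroup) x

theorem le_infDist {D : Submodule ℝ L1} {f : L1 →L[ℝ] ℝ} (hf : ∀ y ∈ D, f y = 0)
    (hf1 : ∀ y, |f y| ≤ ‖y‖) (x : L1) : |f x| ≤ Metric.infDist x (D : Set L1) := by
  rw [Metric.le_infDist ⟨0, D.zero_mem⟩]
  intro y hy
  have h : f x = f (x - y) := by rw [map_sub, hf y hy, sub_zero]
  rw [h, dist_eq_norm]
  exact hf1 _

theorem infDist_le_norm (D : Submodule ℝ L1) (x : L1) : Metric.infDist x (D : Set L1) ≤ ‖x‖ := by
  have := Metric.infDist_le_dist_of_mem (x := x) (s := (D : Set L1)) D.zero_mem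
  rwa [dist_zero_right] at this

/-- The Schur property of the quotient `ℓ₁ / D`. -/
def PS (D : Submodule ℝ L1) : Prop :=
  ∀ α : ℕ → L1, (∀ f : L1 →L[ℝ] ℝ, (∀ x ∈ D, f x = 0) → Tendsto (fun k => f (α k)) atTop (𝓝 0)) →
    Tendsto (fun k => Metric.infDist (α k) (D : Set L1)) atTop (𝓝 0)

/-! ### Blocks -/

theorem nil_or_append (w : Nd) : w = [] ∨ ∃ (v : Nd) (q : Lab), w = v ++ [q] := by
  rcases List.eq_nil_or_concat w with h | ⟨v, q, h⟩
  · exact Or.inl h
  · exact Or.inr ⟨v, q, by rw [h, List.concat_eq_append]⟩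

open Classical in
theorem exists_B (p : Lab) : ∃ B : L1 →L[ℝ] L1, (∀ v, B (ee (v ++ [p])) = ee v) ∧
    (∀ w, (∀ v, w ≠ v ++ [p]) → B (ee w) = 0) := by
  obtain ⟨B, hB, -⟩ := exists_lift_ee (Z := L1)
    (fun w => if h : ∃ v, w = v ++ [p] then ee h.choose else 0) 1 (fun w => by
      split_ifs with h
      · exact (norm_ee _).le
      · simp)
  refine ⟨B, fun v => ?_, fun w hw => ?_⟩
  · have h : ∃ v', v ++ [p] = v' ++ [p] := ⟨v, rfl⟩
    rw [hB, dif_pos h]
    have := h.choose_spec
    rw [← List.append_cancel_right this]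
  · rw [hB, dif_neg]
    rintro ⟨v, hv⟩
    exact hw v hv

/-- The block of the nodes with root label `p`. -/
noncomputable def B (p : Lab) : L1 →L[ℝ] L1 := (exists_B p).choose

theorem B_append (p : Lab) (v : Nd) : B p (ee (v ++ [p])) = ee v := (exists_B p).choose_spec.1 v

theorem B_nil (p : Lab) : B p (ee []) = 0 :=
  (exists_B p).choose_spec.2 _ (fun v h => by
    have := congrArg List.length h
    simp at this)

theorem B_ne {p q : Lab} (h : q ≠ p) (v : Nd) : B p (ee (v ++ [q])) = 0 :=
  (exists_B p).choose_spec.2 _ (fun v' h' => h (by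
    have := List.append_inj_right' h' rfl
    simpa using this))

theorem norm_B_le_one (p : Lab) (w : Nd) : ‖B p (ee w)‖ ≤ 1 := by
  rcases nil_or_append w with rfl | ⟨v, q, rfl⟩
  · rw [B_nil]; simp
  · by_cases h : q = p
    · subst h
      rw [B_append]; exact (norm_ee _).le
    · rw [B_ne h]; simp

theorem norm_apply_le {Z : Type*} [NormedAddCommGroup Z] [NormedSpace ℝ Z] (T : L1 →L[ℝ] Z)
    (x : L1) : ‖T x‖ ≤ ∑' n, |x n| * ‖T (uv n)‖ := by
  have h1 := (hasSum_uv x).mapL T
  simp only [map_smul] at h1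
  rw [← h1.tsum_eq]
  refine (norm_tsum_le_tsum_norm ?_).trans (le_of_eq ?_)
  · refine Summable.of_nonneg_of_le (fun _ => norm_nonneg _) (fun n => ?_)
      ((summable_abs x).mul_right ‖T‖)
    rw [norm_smul, Real.norm_eq_abs]
    refine mul_le_mul_of_nonneg_left ?_ (abs_nonneg _)
    have := T.le_opNorm (uv n)
    rwa [norm_uv, mul_one] at this
  · refine tsum_congr fun n => ?_
    rw [norm_smul, Real.norm_eq_abs]

theorem sum_B_le (x : L1) (F : Finset Lab) : ∑ p ∈ F, ‖B p x‖ ≤ ‖x‖ := by
  classical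
  have h2 : ∀ p : Lab, Summable fun n => |x n| * ‖B p (uv n)‖ := by
    intro p
    refine Summable.of_nonneg_of_le (fun n => mul_nonneg (abs_nonneg _) (norm_nonneg _))
      (fun n => ?_) (summable_abs x)
    have := norm_B_le_one p (code.symm n)
    rw [ee, Equiv.apply_symm_apply] at this
    exact (mul_le_mul_of_nonneg_left this (abs_nonneg _)).trans (mul_one _).le
  calc ∑ p ∈ F, ‖B p x‖ ≤ ∑ p ∈ F, ∑' n, |x n| * ‖B p (uv n)‖ :=
        Finset.sum_le_sum fun p _ => norm_apply_le _ _
    _ = ∑' n, ∑ p ∈ F, |x n| * ‖B p (uv n)‖ := (Summable.tsum_finsetSum fun p _ => h2 p).symm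
    _ ≤ ∑' n, |x n| := by
        refine Summable.tsum_le_tsum (fun n => ?_) (summable_sum fun p _ => h2 p) (summable_abs x)
        rw [← Finset.mul_sum]
        refine (mul_le_mul_of_nonneg_left ?_ (abs_nonneg _)).trans (mul_one _).le
        have h3 : uv n = ee (code.symm n) := by rw [ee, Equiv.apply_symm_apply]
        rw [h3]
        rcases nil_or_append (code.symm n) with h | ⟨v, q, h⟩
        · rw [h]; simp [B_nil]
        · rw [h]
          calc ∑ p ∈ F, ‖B p (ee (v ++ [q]))‖ ≤ ∑ p ∈ F, (if p = q then (1 : ℝ) else 0) := by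
                refine Finset.sum_le_sum fun p _ => ?_
                split_ifs with hp
                · exact norm_B_le_one _ _
                · rw [B_ne (Ne.symm hp)]; simp
            _ ≤ 1 := by
                rw [Finset.sum_ite_eq']
                split_ifs <;> norm_num
    _ = ‖x‖ := (hasSum_abs x).tsum_eq

theorem summable_B (x : L1) : Summable fun p => ‖B p x‖ :=
  summable_of_sum_le (fun _ => norm_nonneg _) (sum_B_le x)

theorem exists_G (φ : Lab → L1 →L[ℝ] ℝ) (hφ : ∀ p y, |φ p y| ≤ ‖y‖) :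
    ∃ G : L1 →L[ℝ] ℝ, ∀ x, G x = ∑' p, φ p (B p x) := by
  have hs : ∀ x, Summable fun p => φ p (B p x) := fun x =>
    Summable.of_norm_bounded (summable_B x) fun p => hφ _ _
  let G0 : L1 →ₗ[ℝ] ℝ :=
    { toFun := fun x => ∑' p, φ p (B p x)
      map_add' := by
        intro x y
        rw [← (hs x).tsum_add (hs y)]
        simp only [map_add]
      map_smul' := by
        intro c x
        rw [RingHom.id_apply, smul_eq_mul, ← tsum_mul_left]
        simp only [map_smul, smul_eq_mul] }
  refine ⟨G0.mkContinuous 1 fun x => ?_, fun x => rfl⟩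
  rw [one_mul]
  change ‖∑' p, φ p (B p x)‖ ≤ ‖x‖
  refine (tsum_of_norm_bounded (summable_B x).hasSum fun p => hφ _ _).trans ?_
  exact (summable_B x).tsum_le_of_sum_le (sum_B_le x)

/-! ### The recursion -/

/-- The subtree above the root label `n`. -/
def ch (S : Set (List (ℕ × ℕ))) (n : ℕ × ℕ) : Set (List (ℕ × ℕ)) := {t | t ++ [n] ∈ S}

theorem pr_append (v : Nd) (p : Lab) : pr (v ++ [p]) = pr v ++ [p.1] := by
  rw [pr, pr, List.map_append]; rfl

open Classical in
theorem exists_Th (S : Set (List (ℕ × ℕ))) : ∃ Th : L1 →L[ℝ] L1, Th (ee []) = ee [] ∧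
    ∀ v p, Th (ee (v ++ [p])) = ee (v ++ [p]) + (if [p.1] ∈ S then dv p.1 [] else 0) := by
  have hdv : ∀ m, ‖dv m []‖ ≤ 2 := by
    intro m
    rw [dv]
    refine (norm_sub_le _ _).trans ?_
    rw [norm_smul, norm_ee]
    have := norm_add_le (ee ((m, false) :: [])) (ee ((m, true) :: []))
    rw [norm_ee, norm_ee] at this
    have h : ‖(1 / 2 : ℝ)‖ = 1 / 2 := by norm_num
    rw [h]
    linarith
  obtain ⟨T, hT, -⟩ := exists_lift_ee (Z := L1)
    (fun w => ee w + (if h : ∃ p : Lab, ∃ v, w = v ++ [p] ∧ [p.1] ∈ S then dv h.choose.1 [] else 0))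
    3 (fun w => by
      refine (norm_add_le _ _).trans ?_
      rw [norm_ee]
      split_ifs with h
      · linarith [hdv h.choose.1]
      · simp)
  refine ⟨T, ?_, fun v p => ?_⟩
  · rw [hT, dif_neg, add_zero]
    rintro ⟨p, v, h, -⟩
    have := congrArg List.length h
    simp at this
  · rw [hT]
    congr 1
    by_cases hp : [p.1] ∈ S
    · have h : ∃ q : Lab, ∃ v', v ++ [p] = v' ++ [q] ∧ [q.1] ∈ S := ⟨p, v, rfl, hp⟩
      rw [dif_pos h, if_pos hp]
      obtain ⟨v', h1, -⟩ := h.choose_spec
      have h2 := List.append_inj_right' h1 rfl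
      rw [List.cons.injEq] at h2
      rw [← h2.1]
    · rw [if_neg hp, dif_neg]
      rintro ⟨q, v', h1, h2⟩
      have h3 := List.append_inj_right' h1 rfl
      rw [List.cons.injEq] at h3
      rw [← h3.1] at h2
      exact hp h2

theorem dv_append (m : ℕ × ℕ) (v : Nd) (p : Lab) :
    dv m (v ++ [p]) = pf (fun w => w ++ [p]) (dv m v) := by
  rw [map_dv]
  simp only [pf_ee]
  rfl

theorem B_dv (m : ℕ × ℕ) (v : Nd) (p : Lab) : B p (dv m (v ++ [p])) = dv m v := by
  rw [map_dv, ← List.cons_append, ← List.cons_append, B_append, B_append, B_append]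
  rfl

theorem B_dv_ne (m : ℕ × ℕ) (v : Nd) {p q : Lab} (h : q ≠ p) : B p (dv m (v ++ [q])) = 0 := by
  rw [map_dv, ← List.cons_append, ← List.cons_append, B_ne h, B_ne h, B_ne h]
  simp

theorem ps_step {S : Set (List (ℕ × ℕ))} (h : ∀ n, PS (DD (ch S n))) : PS (DD S) := by
  classical
  intro α hα
  obtain ⟨Th, hTh0, hTh⟩ := exists_Th S
  -- `Th x - x` belongs to `DD S`
  have t1 : ∀ x, Th x - x ∈ DD S := by
    intro x
    have h1 : ∀ n, (Th - ContinuousLinearMap.id ℝ L1) (uv n) ∈ DD S := by
      intro n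
      have h3 : uv n = ee (code.symm n) := by rw [ee, Equiv.apply_symm_apply]
      have e0 : ∀ y, (Th - ContinuousLinearMap.id ℝ L1) y = Th y - y := fun y => rfl
      rw [h3, e0]
      rcases nil_or_append (code.symm n) with h | ⟨v, q, h⟩
      · rw [h, hTh0]; simp
      · rw [h, hTh, add_sub_cancel_left]
        split_ifs with h4
        · exact dv_mem (by simpa using h4)
        · exact zero_mem _
    have h2 := (hasSum_uv x).mapL (Th - ContinuousLinearMap.id ℝ L1)
    simp only [map_smul] at h2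
    refine (isClosed_DD S).mem_of_tendsto h2 (Filter.Eventually.of_forall fun s => ?_)
    exact Submodule.sum_mem _ fun n _ => Submodule.smul_mem _ _ (h1 n)
  -- `Th` on the generators
  have t2 : ∀ m, (m :: pr []) ∈ S → Th (dv m []) = 0 := by
    intro m hm
    have e1 : ∀ i, Th (ee [(m, i)]) = ee [(m, i)] + dv m [] := by
      intro i
      have := hTh [] (m, i)
      rw [List.nil_append, if_pos (by simpa using hm)] at this
      exact this
    rw [map_dv, hTh0, e1, e1]
    have : dv m [] = ee [] - (1 / 2 : ℝ) • (ee [(m, false)] + ee [(m, true)]) := rfl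
    rw [this]
    module
  have t3 : ∀ m v p, Th (dv m (v ++ [p])) = dv m (v ++ [p]) := by
    intro m v p
    rw [map_dv, ← List.cons_append, ← List.cons_append, hTh, hTh, hTh]
    have : dv m (v ++ [p]) = ee (v ++ [p]) - (1 / 2 : ℝ) •
      (ee (((m, false) :: v) ++ [p]) + ee (((m, true) :: v) ++ [p])) := rfl
    rw [this]
    module
  -- the root coordinate
  obtain ⟨cr, hcr, -⟩ := exists_lift_ee (Z := ℝ) (fun w => if w = [] then 1 else 0) 1
    (fun w => by split_ifs <;> simp)
  have t4 : ∀ x ∈ DD S, cr (Th x) = 0 := by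
    intro x hx
    refine eq_on (cr.comp Th) 0 (fun m w hw => ?_) hx
    rw [ContinuousLinearMap.comp_apply]
    rcases nil_or_append w with rfl | ⟨v, q, rfl⟩
    · rw [t2 m hw]; simp
    · rw [t3, map_dv]
      simp [hcr]
  -- the blocks
  have t5 : ∀ p : Lab, ∀ x ∈ DD S, B p (Th x) ∈ DD (ch S p.1) := by
    intro p x hx
    refine map_mem ((B p).comp Th) (isClosed_DD _) (fun m w hw => ?_) hx
    rw [ContinuousLinearMap.comp_apply]
    rcases nil_or_append w with rfl | ⟨v, q, rfl⟩
    · rw [t2 m hw, map_zero]; exact zero_mem _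
    · rw [t3]
      by_cases hq : q = p
      · subst hq
        rw [B_dv]
        refine dv_mem ?_
        rw [pr_append] at hw
        exact hw
      · rw [B_dv_ne _ _ hq]; exact zero_mem _
  have t6 : ∀ p : Lab, ∀ x ∈ DD (ch S p.1), pf (fun w => w ++ [p]) x ∈ DD S := by
    intro p x hx
    refine map_mem (pf fun w => w ++ [p]) (isClosed_DD _) (fun m w hw => ?_) hx
    rw [← dv_append]
    refine dv_mem ?_
    rw [pr_append]
    exact hw
  have hpf : ∀ (p : Lab) (x : L1), ‖pf (fun w => w ++ [p]) x‖ ≤ ‖x‖ := by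
    intro p x
    refine (norm_apply_le _ _).trans ?_
    rw [← (hasSum_abs x).tsum_eq]
    refine le_of_eq (tsum_congr fun n => ?_)
    have h3 : uv n = ee (code.symm n) := by rw [ee, Equiv.apply_symm_apply]
    rw [h3, pf_ee, norm_ee, mul_one]
  -- norming functionals
  choose f hf0 hf1 hf2 using fun (k : ℕ) (p : Lab) =>
    exists_norming (DD (ch S p.1)) (isClosed_DD _) (B p (Th (α k)))
  have key := gliding (P := Lab)
    (fun k p => Metric.infDist (B p (Th (α k))) (DD (ch S p.1) : Set L1))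
    (fun k p l => f k p (B p (Th (α l)))) (fun k p => Metric.infDist_nonneg)
    (fun k => Summable.of_nonneg_of_le (fun p => Metric.infDist_nonneg)
      (fun p => infDist_le_norm _ _) (summable_B (Th (α k))))
    (fun p => h p.1 _ fun g hg => hα (g.comp ((B p).comp Th)) fun x hx => hg _ (t5 p x hx))
    (fun k p l => le_infDist (hf0 k p) (hf1 k p) _)
    (fun k p => hf2 k p)
    (fun κ => by
      obtain ⟨G, hG⟩ := exists_G (fun p => f (κ p) p) fun p y => hf1 _ _ _
      refine (hα (G.comp Th) fun x hx => ?_).congr fun l => ?_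
      · rw [ContinuousLinearMap.comp_apply, hG]
        have : ∀ p, f (κ p) p (B p (Th x)) = 0 := fun p => hf0 _ _ _ (t5 p x hx)
        simp [this]
      · rw [ContinuousLinearMap.comp_apply, hG])
  have key2 : Tendsto (fun k => |cr (Th (α k))|) atTop (𝓝 0) := by
    have := (hα (cr.comp Th) t4).abs
    simpa using this
  have key3 := key2.add key
  rw [add_zero] at key3
  refine squeeze_zero (fun k => Metric.infDist_nonneg) (fun k => ?_) key3
  obtain ⟨g, hg0, hg1, hg2⟩ := exists_norming (DD S) (isClosed_DD _) (α k)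
  rw [← hg2]
  have e1 : g (α k) = g (Th (α k)) := by
    have := hg0 _ (t1 (α k))
    rw [map_sub, sub_eq_zero] at this
    exact this.symm
  obtain ⟨G, hG⟩ := exists_G (fun p => g.comp (pf fun w => w ++ [p])) fun p y => by
    exact (hg1 _).trans (hpf _ _)
  have e2 : g = (g (ee [])) • cr + G := by
    refine clm_ext_ee fun w => ?_
    rw [add_apply, smul_apply, hcr, hG]
    rcases nil_or_append w with rfl | ⟨v, q, rfl⟩
    · simp [B_nil]
    · rw [if_neg (by simp), smul_zero, zero_add, tsum_eq_single q]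
      · rw [B_append, ContinuousLinearMap.comp_apply, pf_ee]
      · intro p hp
        rw [B_ne (Ne.symm hp), map_zero]
  have e3 : g (Th (α k)) = g (ee []) * cr (Th (α k)) + G (Th (α k)) := by
    conv_lhs => rw [e2]
    rw [add_apply, smul_apply, smul_eq_mul]
  rw [e1, e3]
  refine (le_abs_self _).trans ((abs_add_le _ _).trans (add_le_add ?_ ?_))
  · rw [abs_mul]
    have := hg1 (ee [])
    rw [norm_ee] at this
    exact (mul_le_mul_of_nonneg_right this (abs_nonneg _)).trans (one_mul _).le
  · rw [hG, ← Real.norm_eq_abs]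
    refine tsum_of_norm_bounded (Summable.hasSum ?_) fun p => ?_
    · exact Summable.of_nonneg_of_le (fun p => Metric.infDist_nonneg)
        (fun p => infDist_le_norm _ _) (summable_B (Th (α k)))
    · exact le_infDist (f := g.comp (pf fun w => w ++ [p])) (fun y hy => hg0 _ (t6 p y hy))
        (fun y => (hg1 _).trans (hpf _ _)) _

theorem ps_of_trivial {S : Set (List (ℕ × ℕ))} (h : ∀ m t, (m :: t) ∉ S) : PS (DD S) := by
  have h1 : DD S = ⊥ := by
    rw [eq_bot_iff]
    exact DD_le (by simp) fun m w hw => absurd hw (h _ _)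
  intro α hα
  rw [h1] at hα ⊢
  have := schur α fun f => hα f fun x hx => by
    rw [Submodule.mem_bot] at hx
    rw [hx, map_zero]
  refine this.congr fun k => ?_
  simp

theorem exists_branch_of_not_ps {T : List ℕ → Bool} (h : ¬ PS (DD (tr T))) :
    ∃ f : ℕ → ℕ, ∀ n, T (br f n) = true := by
  classical
  let up : List (ℕ × ℕ) → Set (List (ℕ × ℕ)) := fun u => {t | t ++ u ∈ tr T}
  have h1 : ∀ u, ¬ PS (DD (up u)) → ∃ n, ¬ PS (DD (up (n :: u))) := by
    intro u hu
    by_contra hcon
    push Not at hcon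
    refine hu (ps_step fun n => ?_)
    have : ch (up u) n = up (n :: u) := by
      ext t
      change (t ++ [n]) ++ u ∈ tr T ↔ t ++ (n :: u) ∈ tr T
      rw [List.append_assoc]
      rfl
    rw [this]
    exact hcon n
  have h0 : ¬ PS (DD (up [])) := by
    have : up [] = tr T := by
      ext t
      change t ++ [] ∈ tr T ↔ _
      rw [List.append_nil]
    rwa [this]
  choose! nx hnx using h1
  let u : ℕ → List (ℕ × ℕ) := fun k => Nat.rec [] (fun _ v => nx v :: v) k
  have hu : ∀ k, ¬ PS (DD (up (u k))) := by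
    intro k
    induction k with
    | zero => exact h0
    | succ k ih => exact hnx _ ih
  have hsuf : ∀ (t s : List (ℕ × ℕ)), t ++ s ∈ tr T → s ∈ tr T := by
    intro t s hts s' hs'
    exact hts s' (hs'.trans (List.suffix_append t s))
  have hmem : ∀ k, u k ∈ tr T := by
    intro k
    by_contra hcon
    refine hu k (ps_of_trivial fun m t hmt => hcon (hsuf _ _ hmt))
  refine ⟨fun k => (nx (u k)).1, fun n => ?_⟩
  have h2 : ∀ k, ((u k).map Prod.fst).reverse = br (fun k => (nx (u k)).1) k := by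
    intro k
    induction k with
    | zero => rfl
    | succ k ih =>
      rw [br_succ, ← ih]
      change ((nx (u k) :: u k).map Prod.fst).reverse = _
      rw [List.map_cons, List.reverse_cons]
  rw [← h2]
  exact hmem n _ (List.suffix_refl _)

end Pool.Agent.TH320
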