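import Pool.Agent.TH320.Gliding

/-!
# Subspaces of `ℓ₁` attached to trees
-/

set_option autoImplicit false

open Filter Topology

namespace Pool.Agent.TH320

/-- Labels. -/
abbrev Lab : Type := (ℕ × ℕ) × Bool

/-- Nodes; the last label is the head of the list. -/
abbrev Nd : Type := List Lab

noncomputable def code : Nd ≃ ℕ :=
  Classical.choice (nonempty_equiv_of_countable (α := Nd) (β := ℕ))

/-- The unit vector of a node. -/
noncomputable def ee (w : Nd) : L1 := uv (code w)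

theorem norm_ee (w : Nd) : ‖ee w‖ = 1 := norm_uv _

theorem clm_ext_ee {Z : Type*} [NormedAddCommGroup Z] [NormedSpace ℝ Z] {S T : L1 →L[ℝ] Z}
    (h : ∀ w, S (ee w) = T (ee w)) : S = T := by
  refine clm_ext fun n => ?_
  have := h (code.symm n)
  rwa [ee, Equiv.apply_symm_apply] at this

theorem exists_lift_ee {Z : Type*} [NormedAddCommGroup Z] [NormedSpace ℝ Z] [CompleteSpace Z]
    (z : Nd → Z) (C : ℝ) (hz : ∀ w, ‖z w‖ ≤ C) :
    ∃ T : L1 →L[ℝ] Z, (∀ w, T (ee w) = z w) ∧ ∀ x, ‖T x‖ ≤ C * ‖x‖ := by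
  obtain ⟨T, hT, hT'⟩ := exists_lift (fun n => z (code.symm n)) C fun n => hz _
  exact ⟨T, fun w => by rw [ee, hT, Equiv.symm_apply_apply], hT'⟩

/-- Push-forward of a map of nodes. -/
noncomputable def pf (c : Nd → Nd) : L1 →L[ℝ] L1 :=
  (exists_lift_ee (fun w => ee (c w)) 1 fun w => (norm_ee _).le).choose

@[simp] theorem pf_ee (c : Nd → Nd) (w : Nd) : pf c (ee w) = ee (c w) :=
  (exists_lift_ee (fun w => ee (c w)) 1 fun w => (norm_ee _).le).choose_spec.1 w

/-- The vectors `e_w - (e_{w(m,0)} + e_{w(m,1)}) / 2`. -/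
noncomputable def dv (m : ℕ × ℕ) (w : Nd) : L1 :=
  ee w - (1 / 2 : ℝ) • (ee ((m, false) :: w) + ee ((m, true) :: w))

theorem map_dv {Z : Type*} [NormedAddCommGroup Z] [NormedSpace ℝ Z] (F : L1 →L[ℝ] Z)
    (m : ℕ × ℕ) (w : Nd) :
    F (dv m w) = F (ee w) - (1 / 2 : ℝ) • (F (ee ((m, false) :: w)) + F (ee ((m, true) :: w))) := by
  rw [dv, map_sub, map_smul, map_add]

/-- The projection of a node to the list of its first labels. -/
def pr (w : Nd) : List (ℕ × ℕ) := w.map Prod.fst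

@[simp] theorem pr_nil : pr [] = [] := rfl

@[simp] theorem pr_cons (p : Lab) (w : Nd) : pr (p :: w) = p.1 :: pr w := rfl

/-- The closed subspace attached to a set of finite sequences. -/
noncomputable def DD (S : Set (List (ℕ × ℕ))) : Submodule ℝ L1 :=
  (Submodule.span ℝ {x | ∃ m w, (m :: pr w) ∈ S ∧ x = dv m w}).topologicalClosure

theorem isClosed_DD (S : Set (List (ℕ × ℕ))) : IsClosed (DD S : Set L1) :=
  Submodule.isClosed_topologicalClosure _

theorem dv_mem {S : Set (List (ℕ × ℕ))} {m : ℕ × ℕ} {w : Nd} (h : (m :: pr w) ∈ S) :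
    dv m w ∈ DD S :=
  Submodule.le_topologicalClosure _ (Submodule.subset_span ⟨m, w, h, rfl⟩)

theorem DD_le {S : Set (List (ℕ × ℕ))} {K : Submodule ℝ L1} (hK : IsClosed (K : Set L1))
    (h : ∀ m w, (m :: pr w) ∈ S → dv m w ∈ K) : DD S ≤ K := by
  refine Submodule.topologicalClosure_minimal _ ?_ hK
  rw [Submodule.span_le]
  rintro x ⟨m, w, hw, rfl⟩
  exact h m w hw

theorem map_mem {S : Set (List (ℕ × ℕ))} {Z : Type*} [NormedAddCommGroup Z] [NormedSpace ℝ Z]
    (F : L1 →L[ℝ] Z) {K : Submodule ℝ Z} (hK : IsClosed (K : Set Z))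
    (h : ∀ m w, (m :: pr w) ∈ S → F (dv m w) ∈ K) {x : L1} (hx : x ∈ DD S) : F x ∈ K := by
  have h1 : DD S ≤ K.comap (F : L1 →ₗ[ℝ] Z) := by
    refine DD_le ?_ h
    exact hK.preimage F.continuous
  exact h1 hx

theorem eq_on {S : Set (List (ℕ × ℕ))} {Z : Type*} [NormedAddCommGroup Z] [NormedSpace ℝ Z]
    (F G : L1 →L[ℝ] Z) (h : ∀ m w, (m :: pr w) ∈ S → F (dv m w) = G (dv m w)) {x : L1}
    (hx : x ∈ DD S) : F x = G x := by
  have := map_mem (F - G) (K := ⊥) (by simp) (fun m w hw => by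
    rw [Submodule.mem_bot, sub_apply, h m w hw, sub_self]) hx
  rw [Submodule.mem_bot, sub_apply, sub_eq_zero] at this
  exact this

theorem half_self (x : L1) : x - (1 / 2 : ℝ) • (x + x) = 0 := by
  rw [← two_smul ℝ x, smul_smul]
  norm_num

/-- Restriction of an operator to the subspaces. -/
noncomputable def res {S S' : Set (List (ℕ × ℕ))} (F : L1 →L[ℝ] L1)
    (h : ∀ m w, (m :: pr w) ∈ S → F (dv m w) ∈ DD S') : DD S →L[ℝ] DD S' :=
  (F.comp (DD S).subtypeL).codRestrict (DD S') fun x => map_mem F (isClosed_DD S') h x.2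

theorem res_apply {S S' : Set (List (ℕ × ℕ))} (F : L1 →L[ℝ] L1)
    (h : ∀ m w, (m :: pr w) ∈ S → F (dv m w) ∈ DD S') (x : DD S) :
    (res F h x : L1) = F x := rfl

/-- Pełczyński's decomposition method. -/
theorem decomposition {D E : Type*} [NormedAddCommGroup D] [NormedSpace ℝ D]
    [NormedAddCommGroup E] [NormedSpace ℝ E] (i : E →L[ℝ] D) (r : D →L[ℝ] E)
    (hr : ∀ x, r (i x) = x) (R : D →L[ℝ] E) (L : E →L[ℝ] D) (hL : ∀ x, L (R x) = x)
    (hD : Nonempty (D ≃L[ℝ] D × D)) (hE : Nonempty (E ≃L[ℝ] E × E)) :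
    Nonempty (D ≃L[ℝ] E) := by
  obtain ⟨a⟩ := hD
  obtain ⟨b⟩ := hE
  let u := ContinuousLinearEquiv.equivOfRightInverse r i hr
  let v := ContinuousLinearEquiv.equivOfRightInverse L R hL
  -- D ≃ E × ker r ≃ (E × E) × ker r ≃ E × D
  let u1 : D ≃L[ℝ] E × D :=
    (u.trans (b.prodCongr (ContinuousLinearEquiv.refl ℝ _))).trans
      ((ContinuousLinearEquiv.prodAssoc ℝ E E _).trans
        ((ContinuousLinearEquiv.refl ℝ E).prodCongr u.symm))
  let v1 : E ≃L[ℝ] D × E :=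
    (v.trans (a.prodCongr (ContinuousLinearEquiv.refl ℝ _))).trans
      ((ContinuousLinearEquiv.prodAssoc ℝ D D _).trans
        ((ContinuousLinearEquiv.refl ℝ D).prodCongr v.symm))
  exact ⟨(u1.trans (ContinuousLinearEquiv.prodComm ℝ E D)).trans v1.symm⟩

end Pool.Agent.TH320
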